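import Mathlib

/-!
# Killing all short multiplicative relations modulo a small subgroup
-/

set_option autoImplicit false

namespace Pool.Agent.H.MP_3e6494_nt

variable {q : ℕ} [hq : Fact q.Prime]

/-- `u / v` is congruent modulo `q` to an element of `K` -/
def Rel (K : Subgroup (ZMod q)ˣ) (u v : ℕ) : Prop :=
  ∃ x ∈ K, (u : ZMod q) = (x : ZMod q) * (v : ZMod q)

/-- the data of a triangular chain of relations -/
structure Chain (K : Subgroup (ZMod q)ˣ) (U n : ℕ) (p u v : ℕ → ℕ) : Prop where
  prime : ∀ i < n, (p i).Prime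
  dvd : ∀ i < n, p i ∣ u i ∨ p i ∣ v i
  ple : ∀ i < n, p i ≤ U
  upos : ∀ i < n, 0 < u i
  vpos : ∀ i < n, 0 < v i
  ule : ∀ i < n, u i ≤ U
  vle : ∀ i < n, v i ≤ U
  cop : ∀ i < n, Nat.Coprime (u i) (v i)
  rel : ∀ i < n, Rel K (u i) (v i)
  ndvd : ∀ i < n, ∀ j < i, ¬ p j ∣ u i ∧ ¬ p j ∣ v i

theorem chain_exists (K : Subgroup (ZMod q)ˣ) (U ρ : ℕ)
    (hno : ∀ E : Finset ℕ, (∀ p ∈ E, p.Prime ∧ p ≤ U) → E.card ≤ ρ →
      ∃ u v : ℕ, 0 < u ∧ u ≤ U ∧ 0 < v ∧ v ≤ U ∧ Nat.Coprime u v ∧ ¬ (u = 1 ∧ v = 1) ∧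
        Rel K u v ∧ ∀ p ∈ E, ¬ p ∣ u ∧ ¬ p ∣ v) (n : ℕ) (hn : n ≤ ρ + 1) :
    ∃ p u v : ℕ → ℕ, Chain K U n p u v := by
  classical
  induction n with
  | zero =>
    refine ⟨id, id, id, ?_⟩
    constructor <;> intro i hi <;> omega
  | succ n ih =>
    obtain ⟨p, u, v, hc⟩ := ih (by omega)
    obtain ⟨u', v', hu0, huU, hv0, hvU, hcop, hne, hrel, hE⟩ :=
      hno ((Finset.range n).image p) (by
        intro p' hp'
        rw [Finset.mem_image] at hp'
        obtain ⟨i, hi, rfl⟩ := hp'
        rw [Finset.mem_range] at hi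
        exact ⟨hc.prime i hi, hc.ple i hi⟩) (by
        refine Finset.card_image_le.trans ?_
        rw [Finset.card_range]
        omega)
    -- a prime factor
    obtain ⟨p', hp', hp'd, hp'U⟩ : ∃ p' : ℕ, p'.Prime ∧ (p' ∣ u' ∨ p' ∣ v') ∧ p' ≤ U := by
      by_cases h1 : u' = 1
      · have h2 : v' ≠ 1 := fun h => hne ⟨h1, h⟩
        exact ⟨v'.minFac, Nat.minFac_prime h2, Or.inr (Nat.minFac_dvd v'),
          (Nat.minFac_le hv0).trans hvU⟩
      · exact ⟨u'.minFac, Nat.minFac_prime h1, Or.inl (Nat.minFac_dvd u'),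
          (Nat.minFac_le hu0).trans huU⟩
    refine ⟨Function.update p n p', Function.update u n u', Function.update v n v', ?_⟩
    have hcase : ∀ i < n + 1, i = n ∨ (i ≠ n ∧ i < n) := by intro i hi; omega
    constructor
    · intro i hi
      rcases hcase i hi with rfl | ⟨h1, h2⟩
      · rw [Function.update_self]; exact hp'
      · rw [Function.update_of_ne h1]; exact hc.prime i h2
    · intro i hi
      rcases hcase i hi with rfl | ⟨h1, h2⟩
      · rw [Function.update_self, Function.update_self, Function.update_self]; exact hp'd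
      · rw [Function.update_of_ne h1, Function.update_of_ne h1, Function.update_of_ne h1]
        exact hc.dvd i h2
    · intro i hi
      rcases hcase i hi with rfl | ⟨h1, h2⟩
      · rw [Function.update_self]; exact hp'U
      · rw [Function.update_of_ne h1]; exact hc.ple i h2
    · intro i hi
      rcases hcase i hi with rfl | ⟨h1, h2⟩
      · rw [Function.update_self]; exact hu0
      · rw [Function.update_of_ne h1]; exact hc.upos i h2
    · intro i hi
      rcases hcase i hi with rfl | ⟨h1, h2⟩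
      · rw [Function.update_self]; exact hv0
      · rw [Function.update_of_ne h1]; exact hc.vpos i h2
    · intro i hi
      rcases hcase i hi with rfl | ⟨h1, h2⟩
      · rw [Function.update_self]; exact huU
      · rw [Function.update_of_ne h1]; exact hc.ule i h2
    · intro i hi
      rcases hcase i hi with rfl | ⟨h1, h2⟩
      · rw [Function.update_self]; exact hvU
      · rw [Function.update_of_ne h1]; exact hc.vle i h2
    · intro i hi
      rcases hcase i hi with rfl | ⟨h1, h2⟩
      · rw [Function.update_self, Function.update_self]; exact hcop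
      · rw [Function.update_of_ne h1, Function.update_of_ne h1]; exact hc.cop i h2
    · intro i hi
      rcases hcase i hi with rfl | ⟨h1, h2⟩
      · rw [Function.update_self, Function.update_self]; exact hrel
      · rw [Function.update_of_ne h1, Function.update_of_ne h1]; exact hc.rel i h2
    · intro i hi j hj
      have hjn : j ≠ n := by omega
      rw [Function.update_of_ne hjn]
      rcases hcase i hi with rfl | ⟨h1, h2⟩
      · rw [Function.update_self, Function.update_self]
        exact hE (p j) (Finset.mem_image.mpr ⟨j, Finset.mem_range.mpr hj, rfl⟩)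
      · rw [Function.update_of_ne h1, Function.update_of_ne h1]; exact hc.ndvd i h2 j hj

theorem prod_le_pow {f : ℕ → ℕ} {U n : ℕ} (S : Finset ℕ) (hS : S ⊆ Finset.range n)
    (hU : 1 ≤ U) (hf : ∀ i < n, f i ≤ U) : ∏ i ∈ S, f i ≤ U ^ n := by
  calc ∏ i ∈ S, f i ≤ ∏ _i ∈ S, U :=
        Finset.prod_le_prod' fun i hi => hf i (Finset.mem_range.mp (hS hi))
    _ = U ^ S.card := by rw [Finset.prod_const]
    _ ≤ U ^ n := by
        refine Nat.pow_le_pow_right hU ?_
        have := Finset.card_le_card hS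
        rwa [Finset.card_range] at this

theorem fac_prod {f : ℕ → ℕ} {n : ℕ} (S : Finset ℕ) (hS : S ⊆ Finset.range n)
    (hf : ∀ i < n, 0 < f i) (p : ℕ) :
    (∏ i ∈ S, f i).factorization p = ∑ i ∈ S, (f i).factorization p := by
  rw [Nat.factorization_prod fun i hi => (hf i (Finset.mem_range.mp (hS hi))).ne']
  rw [Finsupp.finsetSum_apply]

theorem chain_card (K : Subgroup (ZMod q)ˣ) {U n : ℕ} (hU : 1 ≤ U) {p u v : ℕ → ℕ}
    (hc : Chain K U n p u v) (hUq : U ^ (2 * n) < q) : 2 ^ n ≤ Nat.card K := by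
  classical
  have hrel : ∀ i, ∃ x : K, i < n → (u i : ZMod q) = ((x : (ZMod q)ˣ) : ZMod q) * (v i : ZMod q) := by
    intro i
    by_cases hi : i < n
    · obtain ⟨x, hxK, hx⟩ := hc.rel i hi
      exact ⟨⟨x, hxK⟩, fun _ => hx⟩
    · exact ⟨1, fun h => absurd h hi⟩
  choose x hx using hrel
  have hprod : ∀ S ⊆ Finset.range n, ((∏ i ∈ S, u i : ℕ) : ZMod q) =
      (((∏ i ∈ S, x i : K) : (ZMod q)ˣ) : ZMod q) * ((∏ i ∈ S, v i : ℕ) : ZMod q) := by
    intro S hS
    rw [Nat.cast_prod, Nat.cast_prod, Subgroup.val_finsetProd, Units.coe_prod,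
      ← Finset.prod_mul_distrib]
    exact Finset.prod_congr rfl fun i hi => hx i (Finset.mem_range.mp (hS hi))
  have hinj : Set.InjOn (fun S : Finset ℕ => ∏ i ∈ S, x i)
      ((Finset.range n).powerset : Set (Finset ℕ)) := by
    intro S hS T hT hST
    have hS' : S ⊆ Finset.range n := Finset.mem_powerset.mp hS
    have hT' : T ⊆ Finset.range n := Finset.mem_powerset.mp hT
    have hST' : ∏ i ∈ S, x i = ∏ i ∈ T, x i := hST
    -- equality of natural numbers
    have h1 : (((∏ i ∈ S, u i) * (∏ i ∈ T, v i) : ℕ) : ZMod q) =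
        (((∏ i ∈ T, u i) * (∏ i ∈ S, v i) : ℕ) : ZMod q) := by
      rw [Nat.cast_mul, Nat.cast_mul, hprod S hS', hprod T hT', hST']
      ring
    have hlt : ∀ S ⊆ Finset.range n, ∀ T ⊆ Finset.range n,
        (∏ i ∈ S, u i) * (∏ i ∈ T, v i) < q := by
      intro S hS T hT
      calc (∏ i ∈ S, u i) * (∏ i ∈ T, v i) ≤ U ^ n * U ^ n :=
            Nat.mul_le_mul (prod_le_pow S hS hU hc.ule) (prod_le_pow T hT hU hc.vle)
        _ = U ^ (2 * n) := by rw [← pow_add]; congr 1; ring
        _ < q := hUq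
    have h2 : (∏ i ∈ S, u i) * (∏ i ∈ T, v i) = (∏ i ∈ T, u i) * (∏ i ∈ S, v i) :=
      Nat.ModEq.eq_of_lt_of_lt ((ZMod.natCast_eq_natCast_iff _ _ _).mp h1)
        (hlt S hS' T hT') (hlt T hT' S hS')
    -- compare the valuations
    set e : ℕ → ℕ → ℤ := fun p i => ((u i).factorization p : ℤ) - (v i).factorization p with he
    have hpos : ∀ {f : ℕ → ℕ}, (∀ i < n, 0 < f i) → ∀ S ⊆ Finset.range n, ∏ i ∈ S, f i ≠ 0 := by
      intro f hf S hS
      exact Finset.prod_ne_zero_iff.mpr fun i hi => (hf i (Finset.mem_range.mp (hS hi))).ne'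
    have h3 : ∀ p, ∑ i ∈ S, e p i = ∑ i ∈ T, e p i := by
      intro p
      have h4 : ((∏ i ∈ S, u i) * (∏ i ∈ T, v i)).factorization p =
          ((∏ i ∈ T, u i) * (∏ i ∈ S, v i)).factorization p := by rw [h2]
      rw [Nat.factorization_mul (hpos hc.upos S hS') (hpos hc.vpos T hT'),
        Nat.factorization_mul (hpos hc.upos T hT') (hpos hc.vpos S hS'),
        Finsupp.add_apply, Finsupp.add_apply, fac_prod S hS' hc.upos, fac_prod T hT' hc.vpos,
        fac_prod T hT' hc.upos, fac_prod S hS' hc.vpos] at h4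
      rw [he]
      simp only [Finset.sum_sub_distrib]
      have h5 : ((∑ i ∈ S, (u i).factorization p : ℕ) : ℤ) + (∑ i ∈ T, (v i).factorization p : ℕ) =
          (∑ i ∈ T, (u i).factorization p : ℕ) + (∑ i ∈ S, (v i).factorization p : ℕ) := by
        exact_mod_cast h4
      push_cast at h5
      linarith
    by_contra hne
    have hsd : (symmDiff S T).Nonempty := by
      rw [Finset.nonempty_iff_ne_empty]
      intro h
      exact hne (symmDiff_eq_bot.mp h)
    set i0 := (symmDiff S T).min' hsd with hi0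
    have hi0mem : i0 ∈ symmDiff S T := Finset.min'_mem _ _
    have hi0n : i0 < n := by
      rw [Finset.mem_symmDiff] at hi0mem
      rcases hi0mem with h | h
      · exact Finset.mem_range.mp (hS' h.1)
      · exact Finset.mem_range.mp (hT' h.1)
    -- terms with larger index vanish
    have hlarge : ∀ i, i < n → i0 < i → e (p i0) i = 0 := by
      intro i hi hlt
      obtain ⟨h6, h7⟩ := hc.ndvd i hi i0 hlt
      rw [he]
      simp only
      rw [Nat.factorization_eq_zero_of_not_dvd h6, Nat.factorization_eq_zero_of_not_dvd h7]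
      simp
    have hsmall : ∀ i, i < i0 → (i ∈ S ↔ i ∈ T) := by
      intro i hi
      by_contra hcon
      have : i ∈ symmDiff S T := by
        rw [Finset.mem_symmDiff]
        tauto
      have := Finset.min'_le _ _ this
      omega
    have hi0e : e (p i0) i0 ≠ 0 := by
      rw [he]
      simp only
      have hpp := hc.prime i0 hi0n
      have hcop := hc.cop i0 hi0n
      rcases hc.dvd i0 hi0n with h8 | h8
      · have h9 : ¬ p i0 ∣ v i0 := fun h => Nat.not_coprime_of_dvd_of_dvd hpp.one_lt h8 h hcop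
        have h10 : 0 < (u i0).factorization (p i0) :=
          hpp.factorization_pos_of_dvd (hc.upos i0 hi0n).ne' h8
        rw [Nat.factorization_eq_zero_of_not_dvd h9]
        push_cast
        omega
      · have h9 : ¬ p i0 ∣ u i0 := fun h => Nat.not_coprime_of_dvd_of_dvd hpp.one_lt h h8 hcop
        have h10 : 0 < (v i0).factorization (p i0) :=
          hpp.factorization_pos_of_dvd (hc.vpos i0 hi0n).ne' h8
        rw [Nat.factorization_eq_zero_of_not_dvd h9]
        push_cast
        omega
    -- split the sums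
    have hsplit : ∀ S ⊆ Finset.range n, ∑ i ∈ S, e (p i0) i =
        ∑ i ∈ S.filter (· < i0), e (p i0) i + (if i0 ∈ S then e (p i0) i0 else 0) := by
      intro S hS
      rw [← Finset.sum_filter_add_sum_filter_not S (· < i0)]
      congr 1
      have h11 : ∑ i ∈ S.filter (fun i => ¬ i < i0), e (p i0) i =
          ∑ i ∈ S.filter (fun i => ¬ i < i0), (if i = i0 then e (p i0) i0 else 0) := by
        refine Finset.sum_congr rfl fun i hi => ?_
        rw [Finset.mem_filter] at hi
        split_ifs with h12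
        · rw [h12]
        · exact hlarge i (Finset.mem_range.mp (hS hi.1)) (by omega)
      rw [h11, Finset.sum_ite_eq']
      simp
    have hfil : S.filter (· < i0) = T.filter (· < i0) := by
      ext i
      simp only [Finset.mem_filter]
      constructor
      · rintro ⟨h, h'⟩
        exact ⟨(hsmall i h').mp h, h'⟩
      · rintro ⟨h, h'⟩
        exact ⟨(hsmall i h').mpr h, h'⟩
    have h13 := h3 (p i0)
    rw [hsplit S hS', hsplit T hT', hfil] at h13
    rw [Finset.mem_symmDiff] at hi0mem
    rcases hi0mem with h | h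
    · rw [if_pos h.1, if_neg h.2] at h13
      apply hi0e
      linarith
    · rw [if_neg h.2, if_pos h.1] at h13
      apply hi0e
      linarith
  calc 2 ^ n = (Finset.range n).powerset.card := by
        rw [Finset.card_powerset, Finset.card_range]
    _ ≤ (Finset.univ : Finset K).card :=
        Finset.card_le_card_of_injOn _ (fun _ _ => Finset.mem_coe.mpr (Finset.mem_univ _)) hinj
    _ = Nat.card K := by rw [Finset.card_univ, Nat.card_eq_fintype_card]

/-- **Killing short relations.** If `|K| < 2^(ρ+1)` and `U^(2(ρ+1)) < q` then there is a set `E`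
of at most `ρ` primes such that every nontrivial relation of height at most `U` involves a prime
of `E`. -/
theorem exists_E (K : Subgroup (ZMod q)ˣ) {U ρ : ℕ} (hU : 1 ≤ U) (hK : Nat.card K < 2 ^ (ρ + 1))
    (hUq : U ^ (2 * (ρ + 1)) < q) :
    ∃ E : Finset ℕ, (∀ p ∈ E, p.Prime ∧ p ≤ U) ∧ E.card ≤ ρ ∧
      ∀ u v : ℕ, 0 < u → u ≤ U → 0 < v → v ≤ U → Nat.Coprime u v → ¬ (u = 1 ∧ v = 1) →
        Rel K u v → ∃ p ∈ E, p ∣ u ∨ p ∣ v := by
  classical
  by_contra hcon
  push Not at hcon
  obtain ⟨p, u, v, hc⟩ := chain_exists K U ρ (by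
    intro E hE hcard
    obtain ⟨u, v, h1, h2, h3, h4, h5, h6, h7, h8⟩ := hcon E hE hcard
    exact ⟨u, v, h1, h2, h3, h4, h5, fun h => h6 h.1 h.2, h7, h8⟩) (ρ + 1) le_rfl
  exact absurd (chain_card K hU hc hUq) (not_le.mpr hK)

end Pool.Agent.H.MP_3e6494_nt
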