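import Pool.Agent.H.MP_3e6494_nt.Orth
import Pool.Agent.H.MP_3e6494_nt.Rel

/-!
# The deterministic resonance inequality
-/

set_option autoImplicit false

open Complex Set Filter Topology

namespace Pool.Agent.H.MP_3e6494_nt

noncomputable section

/-- product of the elements of a set of primes -/
def bp (A : Finset ℕ) : ℕ := ∏ p ∈ A, p

/-- product of the weights -/
def rp (r : ℕ → ℝ) (A : Finset ℕ) : ℝ := ∏ p ∈ A, r p

theorem bp_pos {A : Finset ℕ} (hA : ∀ p ∈ A, p.Prime) : 0 < bp A :=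
  Finset.prod_pos fun p hp => (hA p hp).pos

theorem primeFactors_bp {A : Finset ℕ} (hA : ∀ p ∈ A, p.Prime) : (bp A).primeFactors = A :=
  Nat.primeFactors_prod hA

theorem squarefree_bp {A : Finset ℕ} (hA : ∀ p ∈ A, p.Prime) : Squarefree (bp A) := by
  refine Finset.squarefree_prod_of_pairwise_isCoprime (fun p hp p' hp' hne => ?_)
    (fun p hp => (hA p hp).squarefree)
  exact Nat.coprime_iff_isRelPrime.mp ((Nat.coprime_primes (hA p hp) (hA p' hp')).mpr hne)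

theorem bp_split (A B : Finset ℕ) : bp A = bp (A ∩ B) * bp (A \ B) := by
  unfold bp
  rw [Finset.prod_inter_mul_prod_sdiff]

theorem rp_split (r : ℕ → ℝ) (A B : Finset ℕ) : rp r A = rp r (A ∩ B) * rp r (A \ B) := by
  unfold rp
  rw [Finset.prod_inter_mul_prod_sdiff]

/-- a divisor of a squarefree product -/
theorem dvd_bp {B : Finset ℕ} (hB : ∀ p ∈ B, p.Prime) {v : ℕ} (hv : v ∣ bp B) :
    v = bp v.primeFactors ∧ v.primeFactors ⊆ B ∧ Squarefree v := by
  have hsq : Squarefree v := (squarefree_bp hB).squarefree_of_dvd hv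
  refine ⟨(Nat.prod_primeFactors_of_squarefree hsq).symm, ?_, hsq⟩
  have := Nat.primeFactors_mono hv (bp_pos hB).ne'
  rwa [primeFactors_bp hB] at this

theorem sqrt_bp (A : Finset ℕ) : ∏ p ∈ A, √(p : ℝ) = √(bp A : ℝ) := by
  classical
  unfold bp
  induction A using Finset.induction_on with
  | empty => simp
  | insert p A hp ih =>
    rw [Finset.prod_insert hp, Finset.prod_insert hp, ih]
    push_cast
    rw [Real.sqrt_mul (by positivity)]

theorem rp_nonneg {r : ℕ → ℝ} (hr : ∀ p, 0 ≤ r p) (A : Finset ℕ) : 0 ≤ rp r A :=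
  Finset.prod_nonneg fun p _ => hr p

theorem sum_le_of_inj {α β : Type*} (S : Finset α) (T : Finset β) (f : α → ℝ) (g : β → ℝ)
    (i : α → β) (hi : ∀ a ∈ S, i a ∈ T) (hinj : Set.InjOn i S) (hfg : ∀ a ∈ S, f a ≤ g (i a))
    (hg : ∀ b ∈ T, 0 ≤ g b) : ∑ a ∈ S, f a ≤ ∑ b ∈ T, g b := by
  classical
  calc ∑ a ∈ S, f a ≤ ∑ a ∈ S, g (i a) := Finset.sum_le_sum hfg
    _ = ∑ b ∈ S.image i, g b := (Finset.sum_image hinj).symm
    _ ≤ ∑ b ∈ T, g b := Finset.sum_le_sum_of_subset_of_nonneg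
        (fun b hb => by
          obtain ⟨a, ha, rfl⟩ := Finset.mem_image.mp hb
          exact hi a ha) (fun b hb _ => hg b hb)

/-- the standing assumptions on the resonator -/
structure Res (P : Finset ℕ) (𝒜 : Finset (Finset ℕ)) (r : ℕ → ℝ) : Prop where
  prime : ∀ p ∈ P, p.Prime
  sub : ∀ A ∈ 𝒜, A ⊆ P
  down : ∀ A ∈ 𝒜, ∀ B, B ⊆ A → B ∈ 𝒜
  rnn : ∀ p, 0 ≤ r p
  rbig : ∀ p ∈ P, 1 ≤ r p * √(p : ℝ)

/-- the index set of the diagonal -/
def dset (𝒜 : Finset (Finset ℕ)) : Finset (Finset ℕ × Finset ℕ) :=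
  (𝒜 ×ˢ 𝒜).filter fun X => X.2 ⊆ X.1

/-- the diagonal of the numerator -/
def Md (𝒜 : Finset (Finset ℕ)) (r : ℕ → ℝ) : ℝ :=
  ∑ X ∈ dset 𝒜, rp r X.2 * rp r X.1 * √((bp X.2 : ℝ) / bp X.1)

/-- the diagonal of the denominator -/
def D1 (𝒜 : Finset (Finset ℕ)) (r : ℕ → ℝ) : ℝ := ∑ A ∈ 𝒜, rp r A ^ 2

/-- the weight of the relation `u / v` -/
def WW (P : Finset ℕ) (r : ℕ → ℝ) (u v : ℕ) : ℝ :=
  rp r v.primeFactors * (√(u : ℝ))⁻¹ * ∏ p ∈ P ∩ u.primeFactors, (2 * (r p * √(p : ℝ)))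

variable {P : Finset ℕ} {𝒜 : Finset (Finset ℕ)} {r : ℕ → ℝ}

theorem Res.primeA (h : Res P 𝒜 r) {A : Finset ℕ} (hA : A ∈ 𝒜) : ∀ p ∈ A, p.Prime :=
  fun p hp => h.prime p (h.sub A hA hp)

theorem Md_nonneg (h : Res P 𝒜 r) : 0 ≤ Md 𝒜 r :=
  Finset.sum_nonneg fun _ _ =>
    mul_nonneg (mul_nonneg (rp_nonneg h.rnn _) (rp_nonneg h.rnn _)) (Real.sqrt_nonneg _)

theorem D1_nonneg : 0 ≤ D1 𝒜 r := Finset.sum_nonneg fun _ _ => sq_nonneg _

theorem WW_nonneg (h : Res P 𝒜 r) (u v : ℕ) : 0 ≤ WW P r u v := by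
  unfold WW
  refine mul_nonneg (mul_nonneg (rp_nonneg h.rnn _) (by positivity)) ?_
  exact Finset.prod_nonneg fun p _ => by have := h.rnn p; positivity

theorem D1_le_Md (h : Res P 𝒜 r) : D1 𝒜 r ≤ Md 𝒜 r := by
  unfold D1 Md
  refine sum_le_of_inj _ _ _ _ (fun A => (A, A)) ?_ ?_ ?_ ?_
  · intro A hA
    unfold dset
    rw [Finset.mem_filter, Finset.mem_product]
    exact ⟨⟨hA, hA⟩, Finset.Subset.refl _⟩
  · intro A _ B _ hAB
    exact (Prod.mk.inj hAB).1
  · intro A hA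
    have h1 : (bp A : ℝ) ≠ 0 := by
      have := bp_pos (h.primeA hA)
      positivity
    simp only
    rw [div_self h1, Real.sqrt_one, mul_one, sq]
  · intro X _
    exact mul_nonneg (mul_nonneg (rp_nonneg h.rnn _) (rp_nonneg h.rnn _)) (Real.sqrt_nonneg _)

open Classical in
/-- off-diagonal contribution of one relation to the numerator -/
theorem T_bound (h : Res P 𝒜 r) {u v : ℕ} (hu : 0 < u) (hv : 0 < v) (hcop : Nat.Coprime u v) :
    ∑ X ∈ (𝒜 ×ˢ 𝒜).filter (fun X => ∃ m, 0 < m ∧ m * bp X.1 * v = u * bp X.2),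
      rp r X.1 * rp r X.2 * √((bp X.1 * v : ℝ) / (u * bp X.2)) ≤ WW P r u v * Md 𝒜 r := by
  classical
  set V := v.primeFactors with hV
  set Up := P ∩ u.primeFactors with hUp
  have huR : (0 : ℝ) < u := by exact_mod_cast hu
  -- structure of the elements
  have hstr : ∀ X ∈ (𝒜 ×ˢ 𝒜).filter
      (fun X => ∃ m, 0 < m ∧ m * bp X.1 * v = u * bp X.2),
      X.1 ∈ 𝒜 ∧ X.2 ∈ 𝒜 ∧ V ⊆ X.2 ∧ v = bp V ∧ X.1 \ (X.2 \ V) ⊆ Up := by
    intro X hX
    rw [Finset.mem_filter, Finset.mem_product] at hX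
    obtain ⟨⟨hA, hB⟩, m, hm, hmeq⟩ := hX
    have hvd : v ∣ bp X.2 := by
      have h1 : v ∣ u * bp X.2 := ⟨m * bp X.1, by rw [← hmeq]; ring⟩
      exact hcop.symm.dvd_of_dvd_mul_left h1
    obtain ⟨h2, h3, _⟩ := dvd_bp (h.primeA hB) hvd
    refine ⟨hA, hB, h3, h2, ?_⟩
    intro p hp
    rw [Finset.mem_sdiff] at hp
    have hpp : p.Prime := h.primeA hA p hp.1
    rw [hUp, Finset.mem_inter]
    refine ⟨h.sub _ hA hp.1, ?_⟩
    rw [Nat.mem_primeFactors]
    refine ⟨hpp, ?_, hu.ne'⟩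
    -- m * bp X.1 = u * bp (X.2 \ V)
    have h4 : bp X.2 = v * bp (X.2 \ V) := by
      rw [bp_split X.2 V, Finset.inter_eq_right.mpr h3, ← h2]
    have h5 : m * bp X.1 = u * bp (X.2 \ V) := by
      have h6 : (m * bp X.1) * v = (u * bp (X.2 \ V)) * v := by
        rw [hmeq, h4]; ring
      exact Nat.eq_of_mul_eq_mul_right hv h6
    have h7 : p ∣ u * bp (X.2 \ V) := by
      rw [← h5]
      exact Dvd.dvd.mul_left (Finset.dvd_prod_of_mem _ hp.1) m
    rcases (hpp.dvd_mul).mp h7 with h8 | h8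
    · exact h8
    · exfalso
      unfold bp at h8
      rw [hpp.prime.dvd_finsetProd_iff] at h8
      obtain ⟨p', hp', hd⟩ := h8
      have hp'p : p'.Prime := h.primeA hB p' (Finset.mem_sdiff.mp hp').1
      have : p = p' := (Nat.prime_dvd_prime_iff_eq hpp hp'p).mp hd
      rw [this] at hp
      exact hp.2 hp'
  have hVnn : 0 ≤ rp r V := rp_nonneg h.rnn _
  -- the target
  have htarget : ∑ Y ∈ dset 𝒜 ×ˢ Up.powerset,
      (rp r V * (√(u : ℝ))⁻¹ * ∏ p ∈ Y.2, (r p * √(p : ℝ))) *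
        (rp r Y.1.2 * rp r Y.1.1 * √((bp Y.1.2 : ℝ) / bp Y.1.1)) ≤ WW P r u v * Md 𝒜 r := by
    rw [Finset.sum_product_right]
    simp_rw [← Finset.mul_sum]
    rw [← Finset.sum_mul, ← Finset.mul_sum]
    have h9 : ∑ t ∈ Up.powerset, ∏ p ∈ t, (r p * √(p : ℝ)) = ∏ p ∈ Up, (1 + r p * √(p : ℝ)) :=
      (Finset.prod_one_add Up).symm
    rw [h9]
    have h10 : ∏ p ∈ Up, (1 + r p * √(p : ℝ)) ≤ ∏ p ∈ Up, (2 * (r p * √(p : ℝ))) := by
      refine Finset.prod_le_prod (fun p _ => ?_) fun p hp => ?_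
      · have := h.rnn p; positivity
      · have := h.rbig p (Finset.mem_inter.mp hp).1
        linarith
    unfold WW
    have h11 := Md_nonneg h
    unfold Md at h11 ⊢
    refine mul_le_mul_of_nonneg_right ?_ h11
    refine mul_le_mul_of_nonneg_left h10 ?_
    positivity
  refine le_trans ?_ htarget
  refine sum_le_of_inj _ _ _ _ (fun X => ((X.2 \ V, X.1 ∩ (X.2 \ V)), X.1 \ (X.2 \ V))) ?_ ?_ ?_ ?_
  · intro X hX
    obtain ⟨hA, hB, _, _, h5⟩ := hstr X hX
    unfold dset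
    rw [Finset.mem_product, Finset.mem_filter, Finset.mem_product, Finset.mem_powerset]
    exact ⟨⟨⟨h.down _ hB _ Finset.sdiff_subset, h.down _ hA _ Finset.inter_subset_left⟩,
      Finset.inter_subset_right⟩, h5⟩
  · intro X hX Y hY hXY
    obtain ⟨_, _, hX3, _, _⟩ := hstr X hX
    obtain ⟨_, _, hY3, _, _⟩ := hstr Y hY
    simp only [Prod.mk.injEq] at hXY
    obtain ⟨⟨e1, e2⟩, e3⟩ := hXY
    have e4 : X.2 = Y.2 := by
      rw [← Finset.sdiff_union_of_subset hX3, ← Finset.sdiff_union_of_subset hY3, e1]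
    have e5 : X.1 = Y.1 := by
      rw [← Finset.sdiff_union_inter X.1 (X.2 \ V), ← Finset.sdiff_union_inter Y.1 (Y.2 \ V),
        e3, e2]
    exact Prod.ext e5 e4
  · intro X hX
    obtain ⟨hA, hB, h3, h4, _⟩ := hstr X hX
    refine le_of_eq ?_
    simp only
    set B' := X.2 \ V with hB'
    have f1 : rp r X.1 = rp r (X.1 ∩ B') * rp r (X.1 \ B') := rp_split r X.1 B'
    have f2 : rp r X.2 = rp r V * rp r B' := by
      rw [rp_split r X.2 V, Finset.inter_eq_right.mpr h3]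
    have f3 : bp X.1 = bp (X.1 ∩ B') * bp (X.1 \ B') := bp_split X.1 B'
    have f4 : bp X.2 = v * bp B' := by
      rw [bp_split X.2 V, Finset.inter_eq_right.mpr h3, ← h4]
    have f5 : ∏ p ∈ X.1 \ B', (r p * √(p : ℝ)) = rp r (X.1 \ B') * √(bp (X.1 \ B') : ℝ) := by
      rw [Finset.prod_mul_distrib, sqrt_bp]
      rfl
    have hvR : (0 : ℝ) < v := by exact_mod_cast hv
    have hBpos : (0 : ℝ) < bp B' := by
      exact_mod_cast bp_pos (fun p hp => h.primeA hB p (Finset.sdiff_subset hp))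
    have f6 : √((bp X.1 * v : ℝ) / (u * bp X.2)) =
        √(bp (X.1 \ B') : ℝ) * (√(u : ℝ))⁻¹ * √((bp (X.1 ∩ B') : ℝ) / bp B') := by
      rw [← Real.sqrt_inv, ← Real.sqrt_mul (by positivity), ← Real.sqrt_mul (by positivity)]
      congr 1
      rw [f3, f4]
      push_cast
      field_simp
    rw [f6, f1, f2, f5]
    ring
  · intro Y _
    refine mul_nonneg (mul_nonneg (mul_nonneg hVnn (by positivity)) ?_)
      (mul_nonneg (mul_nonneg (rp_nonneg h.rnn _) (rp_nonneg h.rnn _)) (Real.sqrt_nonneg _))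
    exact Finset.prod_nonneg fun p _ => by have := h.rnn p; positivity

/-- off-diagonal contribution of one relation to the denominator -/
theorem D_bound (h : Res P 𝒜 r) {u v : ℕ} (hu : 0 < u) (hv : 0 < v) (hcop : Nat.Coprime u v) :
    ∑ X ∈ (𝒜 ×ˢ 𝒜).filter (fun X => bp X.1 * v = u * bp X.2), rp r X.1 * rp r X.2 ≤
      WW P r u v * D1 𝒜 r := by
  classical
  set V := v.primeFactors with hV
  set U := u.primeFactors with hU
  have hstr : ∀ X ∈ (𝒜 ×ˢ 𝒜).filter (fun X => bp X.1 * v = u * bp X.2),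
      X.1 ∈ 𝒜 ∧ X.2 ∈ 𝒜 ∧ U ⊆ X.1 ∧ V ⊆ X.2 ∧ u = bp U ∧ X.1 \ U = X.2 \ V := by
    intro X hX
    rw [Finset.mem_filter, Finset.mem_product] at hX
    obtain ⟨⟨hA, hB⟩, heq⟩ := hX
    have hvd : v ∣ bp X.2 := by
      have h1 : v ∣ u * bp X.2 := ⟨bp X.1, by rw [← heq]; ring⟩
      exact hcop.symm.dvd_of_dvd_mul_left h1
    have hud : u ∣ bp X.1 := by
      have h1 : u ∣ bp X.1 * v := ⟨bp X.2, heq⟩
      exact hcop.dvd_of_dvd_mul_right h1
    obtain ⟨h2, h3, _⟩ := dvd_bp (h.primeA hB) hvd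
    obtain ⟨h4, h5, _⟩ := dvd_bp (h.primeA hA) hud
    refine ⟨hA, hB, h5, h3, h4, ?_⟩
    have h6 : bp X.2 = v * bp (X.2 \ V) := by
      rw [bp_split X.2 V, Finset.inter_eq_right.mpr h3, ← h2]
    have h7 : bp X.1 = u * bp (X.1 \ U) := by
      rw [bp_split X.1 U, Finset.inter_eq_right.mpr h5, ← h4]
    have h8 : bp (X.1 \ U) = bp (X.2 \ V) := by
      have h9 : (u * v) * bp (X.1 \ U) = (u * v) * bp (X.2 \ V) := by
        calc (u * v) * bp (X.1 \ U) = bp X.1 * v := by rw [h7]; ring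
          _ = u * bp X.2 := heq
          _ = (u * v) * bp (X.2 \ V) := by rw [h6]; ring
      exact Nat.eq_of_mul_eq_mul_left (Nat.mul_pos hu hv) h9
    have h10 := congrArg Nat.primeFactors h8
    rwa [primeFactors_bp (fun p hp => h.primeA hA p (Finset.sdiff_subset hp)),
      primeFactors_bp (fun p hp => h.primeA hB p (Finset.sdiff_subset hp))] at h10
  by_cases hemp : ((𝒜 ×ˢ 𝒜).filter (fun X => bp X.1 * v = u * bp X.2)).Nonempty
  · obtain ⟨X0, hX0⟩ := hemp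
    obtain ⟨hA0, hB0, hU0, hV0, huU, _⟩ := hstr X0 hX0
    have hUP : U ⊆ P := hU0.trans (h.sub _ hA0)
    have hw : rp r U * rp r V ≤ WW P r u v := by
      unfold WW
      have h1 : P ∩ u.primeFactors = U := Finset.inter_eq_right.mpr hUP
      rw [h1]
      have h2 : ∏ p ∈ U, (2 * (r p * √(p : ℝ))) = 2 ^ U.card * (rp r U * √(u : ℝ)) := by
        rw [Finset.prod_mul_distrib, Finset.prod_const, Finset.prod_mul_distrib, sqrt_bp, ← huU]
        rfl
      rw [h2]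
      have huR : (0 : ℝ) < √(u : ℝ) := Real.sqrt_pos.mpr (by exact_mod_cast hu)
      have h3 : rp r v.primeFactors * (√(u : ℝ))⁻¹ * (2 ^ U.card * (rp r U * √(u : ℝ))) =
          2 ^ U.card * (rp r U * rp r V) := by
        field_simp
        rw [hV]
        ring
      rw [h3]
      have h4 : (1 : ℝ) ≤ 2 ^ U.card := one_le_pow₀ (by norm_num)
      have h5 : 0 ≤ rp r U * rp r V := mul_nonneg (rp_nonneg h.rnn _) (rp_nonneg h.rnn _)
      nlinarith
    refine le_trans ?_ (mul_le_mul_of_nonneg_right hw D1_nonneg)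
    unfold D1
    rw [Finset.mul_sum]
    refine sum_le_of_inj _ _ _ _ (fun X => X.1 \ U) ?_ ?_ ?_ ?_
    · intro X hX
      obtain ⟨hA, _, _, _, _, _⟩ := hstr X hX
      exact h.down _ hA _ Finset.sdiff_subset
    · intro X hX Y hY hXY
      obtain ⟨_, _, hX3, hX4, _, hX5⟩ := hstr X hX
      obtain ⟨_, _, hY3, hY4, _, hY5⟩ := hstr Y hY
      have e0 : X.1 \ U = Y.1 \ U := hXY
      have e1 : X.1 = Y.1 := by
        rw [← Finset.sdiff_union_of_subset hX3, ← Finset.sdiff_union_of_subset hY3, e0]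
      have e2 : X.2 = Y.2 := by
        rw [← Finset.sdiff_union_of_subset hX4, ← Finset.sdiff_union_of_subset hY4, ← hX5, ← hY5,
          e0]
      exact Prod.ext e1 e2
    · intro X hX
      obtain ⟨_, _, hX3, hX4, _, hX5⟩ := hstr X hX
      refine le_of_eq ?_
      rw [rp_split r X.1 U, Finset.inter_eq_right.mpr hX3, rp_split r X.2 V,
        Finset.inter_eq_right.mpr hX4, ← hX5]
      ring
    · intro A _
      exact mul_nonneg (mul_nonneg (rp_nonneg h.rnn _) (rp_nonneg h.rnn _)) (sq_nonneg _)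
  · rw [Finset.not_nonempty_iff_eq_empty.mp hemp, Finset.sum_empty]
    exact mul_nonneg (WW_nonneg h _ _) D1_nonneg

end

end Pool.Agent.H.MP_3e6494_nt
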