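import Pool.Agent.H.MP_3e6494_nt.Det

/-!
# The deterministic resonance inequality: assembly
-/

set_option autoImplicit false

open Complex Set Filter Topology

namespace Pool.Agent.H.MP_3e6494_nt

noncomputable section

variable {q : ℕ} [hq : Fact q.Prime]

open Classical in
/-- the nontrivial relations that can occur off the diagonal -/
def RR (K : Subgroup (ZMod q)ˣ) (P E : Finset ℕ) (N C0 : ℕ) : Finset (ℕ × ℕ) :=
  ((Finset.Icc 1 (C0 * N)) ×ˢ (Finset.Icc 1 N)).filter (fun X => Nat.Coprime X.1 X.2 ∧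
    ¬ (X.1 = 1 ∧ X.2 = 1) ∧ Rel K X.1 X.2 ∧ (∀ p ∈ E, ¬ p ∣ X.1 ∧ ¬ p ∣ X.2) ∧
    Squarefree X.2 ∧ X.2.primeFactors ⊆ P)

open Classical in
/-- the residue class of `bp A` as a unit -/
def ub (q : ℕ) (A : Finset ℕ) : (ZMod q)ˣ :=
  if h : IsUnit ((bp A : ℕ) : ZMod q) then h.unit else 1

theorem natCast_ne_zero_of_lt {n : ℕ} (h0 : 0 < n) (hn : n < q) : (n : ZMod q) ≠ 0 := by
  intro h
  rw [ZMod.natCast_eq_zero_iff] at h
  exact absurd (Nat.le_of_dvd h0 h) (not_le.mpr hn)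

theorem ub_val {A : Finset ℕ} (h0 : 0 < bp A) (hA : bp A < q) :
    ((ub q A : (ZMod q)ˣ) : ZMod q) = (bp A : ZMod q) := by
  unfold ub
  rw [dif_pos (IsUnit.mk0 _ (natCast_ne_zero_of_lt h0 hA))]
  exact IsUnit.unit_spec _

variable {P : Finset ℕ} {𝒜 : Finset (Finset ℕ)} {r : ℕ → ℝ} {N C0 : ℕ} {E : Finset ℕ}
  {K : Subgroup (ZMod q)ˣ}

/-- the class `m` attached to `(A, B, x)` -/
def mv (X : Finset ℕ × Finset ℕ × K) : ℕ :=
  ((((X.2.2 : (ZMod q)ˣ) * ub q X.2.1 * (ub q X.1)⁻¹ : (ZMod q)ˣ)) : ZMod q).val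

theorem mv_lt (X : Finset ℕ × Finset ℕ × K) : mv X < q := ZMod.val_lt _

theorem mv_pos (X : Finset ℕ × Finset ℕ × K) : 0 < mv X := by
  unfold mv
  rw [Nat.pos_iff_ne_zero]
  intro h
  rw [ZMod.val_eq_zero] at h
  exact Units.ne_zero _ h

theorem mv_mul (X : Finset ℕ × Finset ℕ × K) (hA0 : 0 < bp X.1) (hAq : bp X.1 < q)
    (hB0 : 0 < bp X.2.1) (hBq : bp X.2.1 < q) :
    (mv X : ZMod q) * (bp X.1 : ZMod q) = ((X.2.2 : (ZMod q)ˣ) : ZMod q) * (bp X.2.1 : ZMod q) := by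
  unfold mv
  rw [ZMod.natCast_zmod_val, ← ub_val hA0 hAq, ← ub_val hB0 hBq, ← Units.val_mul,
    inv_mul_cancel_right, Units.val_mul]

/-- reduction of a fraction -/
def red (a b : ℕ) : ℕ × ℕ := (a / Nat.gcd a b, b / Nat.gcd a b)

theorem red_spec {a b : ℕ} (ha : 0 < a) (hb : 0 < b) :
    0 < (red a b).1 ∧ 0 < (red a b).2 ∧ Nat.Coprime (red a b).1 (red a b).2 ∧
      a * (red a b).2 = (red a b).1 * b ∧ (red a b).1 * Nat.gcd a b = a ∧
      (red a b).2 * Nat.gcd a b = b := by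
  have hg : 0 < Nat.gcd a b := Nat.gcd_pos_of_pos_left _ ha
  have h1 : a / Nat.gcd a b * Nat.gcd a b = a := Nat.div_mul_cancel (Nat.gcd_dvd_left a b)
  have h2 : b / Nat.gcd a b * Nat.gcd a b = b := Nat.div_mul_cancel (Nat.gcd_dvd_right a b)
  unfold red
  refine ⟨Nat.div_pos (Nat.gcd_le_left _ ha) hg, Nat.div_pos (Nat.gcd_le_right _ hb) hg,
    Nat.coprime_div_gcd_div_gcd hg, ?_, h1, h2⟩
  simp only
  calc a * (b / Nat.gcd a b) = (a / Nat.gcd a b * Nat.gcd a b) * (b / Nat.gcd a b) := by rw [h1]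
    _ = a / Nat.gcd a b * (b / Nat.gcd a b * Nat.gcd a b) := by ring
    _ = a / Nat.gcd a b * b := by rw [h2]

open Classical in
/-- membership of the reduced fraction in `RR` -/
theorem red_mem_RR (h : Res P 𝒜 r) (hEp : ∀ p ∈ E, p.Prime)
    (hPE : ∀ p ∈ P, p ∉ E) (hN : ∀ A ∈ 𝒜, bp A ≤ N) (hNq : N < q)
    {A B : Finset ℕ} (hA : A ∈ 𝒜) (hB : B ∈ 𝒜) {m : ℕ} (hm0 : 0 < m) (hmC : m ≤ C0)
    (hmE : ∀ p ∈ E, ¬ p ∣ m) (hne : m * bp A ≠ bp B)
    {x : (ZMod q)ˣ} (hx : x ∈ K) (hrel : (m : ZMod q) * (bp A : ZMod q) =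
      (x : ZMod q) * (bp B : ZMod q)) :
    red (m * bp A) (bp B) ∈ RR K P E N C0 := by
  have hA0 : 0 < bp A := bp_pos (h.primeA hA)
  have hB0 : 0 < bp B := bp_pos (h.primeA hB)
  obtain ⟨h1, h2, h3, h4, h5, h6⟩ := red_spec (Nat.mul_pos hm0 hA0) hB0
  set g := Nat.gcd (m * bp A) (bp B) with hg
  set u := (red (m * bp A) (bp B)).1 with hu
  set v := (red (m * bp A) (bp B)).2 with hv
  have hg0 : 0 < g := by
    rcases Nat.eq_zero_or_pos g with h | h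
    · rw [h, mul_zero] at h6; omega
    · exact h
  have hgq : g < q := by
    have : g ≤ bp B := by rw [← h6]; exact Nat.le_mul_of_pos_left _ h2
    exact lt_of_le_of_lt (this.trans (hN B hB)) hNq
  have hvB : v ∣ bp B := ⟨g, h6.symm⟩
  have huA : u ∣ m * bp A := ⟨g, h5.symm⟩
  have hpa : ∀ p ∈ E, ∀ C ∈ 𝒜, ¬ p ∣ bp C := by
    intro p hp C hC hd
    unfold bp at hd
    rw [(hEp p hp).prime.dvd_finsetProd_iff] at hd
    obtain ⟨p', hp', hd'⟩ := hd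
    have : p = p' := (Nat.prime_dvd_prime_iff_eq (hEp p hp) (h.primeA hC p' hp')).mp hd'
    rw [this] at hp
    exact hPE p' (h.sub C hC hp') hp
  obtain ⟨hvb, hvs, hvsq⟩ := dvd_bp (h.primeA hB) hvB
  unfold RR
  rw [Finset.mem_filter, Finset.mem_product, Finset.mem_Icc, Finset.mem_Icc]
  refine ⟨⟨⟨h1, ?_⟩, ⟨h2, ?_⟩⟩, h3, ?_, ?_, ?_, hvsq, hvs.trans (h.sub B hB)⟩
  · calc u ≤ m * bp A := Nat.le_of_dvd (Nat.mul_pos hm0 hA0) huA
      _ ≤ C0 * N := Nat.mul_le_mul hmC (hN A hA)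
  · exact (Nat.le_of_dvd hB0 hvB).trans (hN B hB)
  · rintro ⟨e1, e2⟩
    have e1' : u = 1 := e1
    have e2' : v = 1 := e2
    rw [e1', one_mul] at h5
    rw [e2', one_mul] at h6
    exact hne (h5.symm.trans h6)
  · refine ⟨x, hx, ?_⟩
    have hgne : (g : ZMod q) ≠ 0 := natCast_ne_zero_of_lt hg0 hgq
    have e3 : (u : ZMod q) * (g : ZMod q) = ((x : ZMod q) * (v : ZMod q)) * (g : ZMod q) := by
      rw [← Nat.cast_mul, h5, mul_assoc, ← Nat.cast_mul, h6, Nat.cast_mul]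
      exact hrel
    exact mul_right_cancel₀ hgne e3
  · intro p hp
    constructor
    · intro hd
      have : p ∣ m * bp A := hd.trans huA
      rcases ((hEp p hp).dvd_mul).mp this with h7 | h7
      · exact hmE p hp h7
      · exact hpa p hp A hA h7
    · intro hd
      exact hpa p hp B hB (hd.trans hvB)

open Classical in
/-- the off-diagonal part of the numerator -/
theorem offdiag_num (h : Res P 𝒜 r) (hEp : ∀ p ∈ E, p.Prime)
    (hPE : ∀ p ∈ P, p ∉ E) (hN : ∀ A ∈ 𝒜, bp A ≤ N) (hNq : N < q) (hC0 : 1 ≤ C0) {κ : ℝ}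
    (hκ : ∑ X ∈ RR K P E N C0, WW P r X.1 X.2 ≤ κ) :
    ∑ X ∈ (𝒜 ×ˢ 𝒜 ×ˢ (Finset.univ : Finset K)).filter (fun X => ¬ mv X * bp X.1 = bp X.2.1),
      rp r X.1 * rp r X.2.1 * wE E (mv X) ≤
      (√(C0 : ℝ))⁻¹ * (Nat.card K * (∑ A ∈ 𝒜, rp r A) ^ 2) + κ * Md 𝒜 r := by
  set T := 𝒜 ×ˢ 𝒜 ×ˢ (Finset.univ : Finset K) with hT
  set S3 := T.filter (fun X => ¬ mv X * bp X.1 = bp X.2.1 ∧ mv X ≤ C0 ∧ ∀ p ∈ E, ¬ p ∣ mv X)
    with hS3
  have hmemT : ∀ X ∈ T, X.1 ∈ 𝒜 ∧ X.2.1 ∈ 𝒜 := by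
    intro X hX
    rw [hT, Finset.mem_product, Finset.mem_product] at hX
    exact ⟨hX.1, hX.2.1⟩
  have hrr : ∀ X : Finset ℕ × Finset ℕ × K, 0 ≤ rp r X.1 * rp r X.2.1 := fun X =>
    mul_nonneg (rp_nonneg h.rnn _) (rp_nonneg h.rnn _)
  have hwE0 : ∀ m : ℕ, 0 ≤ wE E m := by
    intro m
    unfold wE
    split_ifs
    · positivity
    · exact le_rfl
  have hC0R : (0 : ℝ) < √(C0 : ℝ) := Real.sqrt_pos.mpr (by exact_mod_cast hC0)
  -- pointwise split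
  have hsplit : ∑ X ∈ T.filter (fun X => ¬ mv X * bp X.1 = bp X.2.1),
      rp r X.1 * rp r X.2.1 * wE E (mv X) ≤
      ∑ X ∈ T, rp r X.1 * rp r X.2.1 * (√(C0 : ℝ))⁻¹ +
        ∑ X ∈ S3, rp r X.1 * rp r X.2.1 * wE E (mv X) := by
    rw [Finset.sum_filter, hS3, Finset.sum_filter, ← Finset.sum_add_distrib]
    refine Finset.sum_le_sum fun X _ => ?_
    by_cases h1 : mv X * bp X.1 = bp X.2.1
    · rw [if_neg (not_not.mpr h1), if_neg (fun h' => h'.1 h1), add_zero]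
      exact mul_nonneg (hrr X) (by positivity)
    · rw [if_pos h1]
      by_cases h2 : mv X ≤ C0
      · by_cases h3 : ∀ p ∈ E, ¬ p ∣ mv X
        · rw [if_pos ⟨h1, h2, h3⟩]
          have : 0 ≤ rp r X.1 * rp r X.2.1 * (√(C0 : ℝ))⁻¹ := mul_nonneg (hrr X) (by positivity)
          linarith
        · have h4 : wE E (mv X) = 0 := by
            unfold wE
            rw [if_neg h3]
          rw [h4, mul_zero, if_neg (fun h' => h3 h'.2.2), add_zero]
          exact mul_nonneg (hrr X) (by positivity)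
      · rw [if_neg (fun h' => h2 h'.2.1), add_zero]
        refine mul_le_mul_of_nonneg_left ?_ (hrr X)
        have h5 : wE E (mv X) ≤ (√(mv X : ℝ))⁻¹ := by
          unfold wE
          split_ifs
          · exact le_rfl
          · positivity
        refine h5.trans (inv_anti₀ hC0R (Real.sqrt_le_sqrt ?_))
        push Not at h2
        exact_mod_cast h2.le
  -- the full sum
  have hfull : ∑ X ∈ T, rp r X.1 * rp r X.2.1 * (√(C0 : ℝ))⁻¹ =
      (√(C0 : ℝ))⁻¹ * (Nat.card K * (∑ A ∈ 𝒜, rp r A) ^ 2) := by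
    rw [hT, Finset.sum_product]
    have h1 : ∀ A ∈ 𝒜, ∑ Y ∈ 𝒜 ×ˢ (Finset.univ : Finset K),
        rp r A * rp r Y.1 * (√(C0 : ℝ))⁻¹ =
        rp r A * ((Nat.card K) * (∑ B ∈ 𝒜, rp r B) * (√(C0 : ℝ))⁻¹) := by
      intro A _
      rw [Finset.sum_product]
      simp only [Finset.sum_const, Finset.card_univ, nsmul_eq_mul]
      rw [← Finset.mul_sum, ← Finset.sum_mul, ← Finset.mul_sum, Nat.card_eq_fintype_card]
      ring
    rw [Finset.sum_congr rfl h1, ← Finset.sum_mul]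
    ring
  -- the relations
  have hrel : ∑ X ∈ S3, rp r X.1 * rp r X.2.1 * wE E (mv X) ≤ κ * Md 𝒜 r := by
    have hmaps : ∀ X ∈ S3, red (mv X * bp X.1) (bp X.2.1) ∈ RR K P E N C0 := by
      intro X hX
      rw [hS3, Finset.mem_filter] at hX
      obtain ⟨hXT, h1, h2, h3⟩ := hX
      obtain ⟨hA, hB⟩ := hmemT X hXT
      have hA0 := bp_pos (h.primeA hA)
      have hB0 := bp_pos (h.primeA hB)
      exact red_mem_RR h hEp hPE hN hNq hA hB (mv_pos X) h2 h3 h1 X.2.2.2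
        (mv_mul X hA0 (lt_of_le_of_lt (hN _ hA) hNq) hB0 (lt_of_le_of_lt (hN _ hB) hNq))
    rw [← Finset.sum_fiberwise_of_maps_to hmaps]
    refine le_trans ?_ (mul_le_mul_of_nonneg_right hκ (Md_nonneg h))
    rw [Finset.sum_mul]
    refine Finset.sum_le_sum fun Y hY => ?_
    -- one fibre
    unfold RR at hY
    rw [Finset.mem_filter, Finset.mem_product, Finset.mem_Icc, Finset.mem_Icc] at hY
    obtain ⟨⟨⟨hu0, _⟩, ⟨hv0, _⟩⟩, hcop, _⟩ := hY
    refine le_trans ?_ (T_bound h hu0 hv0 hcop)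
    refine sum_le_of_inj _ _ _ _ (fun X => (X.1, X.2.1)) ?_ ?_ ?_ ?_
    · intro X hX
      rw [Finset.mem_filter] at hX
      obtain ⟨hXS, hXY⟩ := hX
      rw [hS3, Finset.mem_filter] at hXS
      obtain ⟨hXT, h1, h2, h3⟩ := hXS
      obtain ⟨hA, hB⟩ := hmemT X hXT
      have hA0 := bp_pos (h.primeA hA)
      have hB0 := bp_pos (h.primeA hB)
      obtain ⟨_, _, _, h4, _, _⟩ := red_spec (Nat.mul_pos (mv_pos X) hA0) hB0
      rw [hXY] at h4
      rw [Finset.mem_filter, Finset.mem_product]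
      exact ⟨⟨hA, hB⟩, mv X, mv_pos X, h4⟩
    · intro X hX X' hX' hXX
      rw [Finset.mem_coe, Finset.mem_filter] at hX hX'
      obtain ⟨hXS, hXY⟩ := hX
      obtain ⟨hXS', hXY'⟩ := hX'
      rw [hS3, Finset.mem_filter] at hXS hXS'
      obtain ⟨hA, hB⟩ := hmemT X hXS.1
      obtain ⟨hA', hB'⟩ := hmemT X' hXS'.1
      simp only [Prod.mk.injEq] at hXX
      obtain ⟨e1, e2⟩ := hXX
      have hA0 := bp_pos (h.primeA hA)
      have hB0 := bp_pos (h.primeA hB)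
      have hA0' := bp_pos (h.primeA hA')
      have hB0' := bp_pos (h.primeA hB')
      obtain ⟨_, _, _, h4, _, _⟩ := red_spec (Nat.mul_pos (mv_pos X) hA0) hB0
      obtain ⟨_, _, _, h4', _, _⟩ := red_spec (Nat.mul_pos (mv_pos X') hA0') hB0'
      rw [hXY] at h4
      rw [hXY'] at h4'
      -- m is determined
      have hm : mv X = mv X' := by
        rw [← e1, ← e2] at h4'
        have h5 : mv X * (bp X.1 * Y.2) = mv X' * (bp X.1 * Y.2) := by
          rw [← mul_assoc, ← mul_assoc, h4, h4']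
        exact Nat.eq_of_mul_eq_mul_right (Nat.mul_pos hA0 hv0) h5
      have hx1 := mv_mul X hA0 (lt_of_le_of_lt (hN _ hA) hNq) hB0 (lt_of_le_of_lt (hN _ hB) hNq)
      have hx2 := mv_mul X' hA0' (lt_of_le_of_lt (hN _ hA') hNq) hB0'
        (lt_of_le_of_lt (hN _ hB') hNq)
      rw [← e1, ← e2, ← hm, hx1] at hx2
      have hBne : (bp X.2.1 : ZMod q) ≠ 0 :=
        natCast_ne_zero_of_lt hB0 (lt_of_le_of_lt (hN _ hB) hNq)
      have hx3 := mul_right_cancel₀ hBne hx2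
      have hx4 : X.2.2 = X'.2.2 := Subtype.ext (Units.ext hx3)
      exact Prod.ext e1 (Prod.ext e2 hx4)
    · intro X hX
      rw [Finset.mem_filter] at hX
      obtain ⟨hXS, hXY⟩ := hX
      rw [hS3, Finset.mem_filter] at hXS
      obtain ⟨hXT, h1, h2, h3⟩ := hXS
      obtain ⟨hA, hB⟩ := hmemT X hXT
      have hA0 := bp_pos (h.primeA hA)
      have hB0 := bp_pos (h.primeA hB)
      obtain ⟨_, _, _, h4, _, _⟩ := red_spec (Nat.mul_pos (mv_pos X) hA0) hB0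
      rw [hXY] at h4
      refine mul_le_mul_of_nonneg_left ?_ (hrr X)
      unfold wE
      rw [if_pos h3, ← Real.sqrt_inv]
      refine Real.sqrt_le_sqrt (le_of_eq ?_)
      have hmR : (0 : ℝ) < mv X := by exact_mod_cast mv_pos X
      have hAR : (0 : ℝ) < bp X.1 := by exact_mod_cast hA0
      have hBR : (0 : ℝ) < bp X.2.1 := by exact_mod_cast hB0
      have huR : (0 : ℝ) < Y.1 := by exact_mod_cast hu0
      have hvR : (0 : ℝ) < Y.2 := by exact_mod_cast hv0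
      have h4R : (mv X : ℝ) * bp X.1 * Y.2 = Y.1 * bp X.2.1 := by exact_mod_cast h4
      rw [← h4R]
      field_simp
    · intro X _
      exact mul_nonneg (mul_nonneg (rp_nonneg h.rnn _) (rp_nonneg h.rnn _)) (Real.sqrt_nonneg _)
  calc _ ≤ _ := hsplit
    _ ≤ (√(C0 : ℝ))⁻¹ * (Nat.card K * (∑ A ∈ 𝒜, rp r A) ^ 2) + κ * Md 𝒜 r := by
        rw [hfull]
        linarith

open Classical in
/-- the denominator -/
theorem denom_le (h : Res P 𝒜 r) (hEp : ∀ p ∈ E, p.Prime)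
    (hPE : ∀ p ∈ P, p ∉ E) (hN : ∀ A ∈ 𝒜, bp A ≤ N) (hNq : N < q) (hC0 : 1 ≤ C0) {κ : ℝ}
    (hκ : ∑ X ∈ RR K P E N C0, WW P r X.1 X.2 ≤ κ) :
    ∑ A ∈ 𝒜, ∑ B ∈ 𝒜, (if ub q A * (ub q B)⁻¹ ∈ K then rp r A * rp r B else 0) ≤
      D1 𝒜 r * (1 + κ) := by
  rw [← Finset.sum_product (s := 𝒜) (t := 𝒜)
    (f := fun X => if ub q X.1 * (ub q X.2)⁻¹ ∈ K then rp r X.1 * rp r X.2 else 0)]
  set S := (𝒜 ×ˢ 𝒜).filter (fun X => X.1 ≠ X.2 ∧ ub q X.1 * (ub q X.2)⁻¹ ∈ K) with hS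
  have h1 : ∑ X ∈ 𝒜 ×ˢ 𝒜, (if ub q X.1 * (ub q X.2)⁻¹ ∈ K then rp r X.1 * rp r X.2 else 0) ≤
      ∑ X ∈ 𝒜 ×ˢ 𝒜, (if X.1 = X.2 then rp r X.1 * rp r X.2 else 0) +
        ∑ X ∈ S, rp r X.1 * rp r X.2 := by
    rw [hS, Finset.sum_filter, ← Finset.sum_add_distrib]
    refine Finset.sum_le_sum fun X _ => ?_
    have hnn : 0 ≤ rp r X.1 * rp r X.2 := mul_nonneg (rp_nonneg h.rnn _) (rp_nonneg h.rnn _)
    by_cases h2 : X.1 = X.2
    · have h4 : ¬ (X.1 ≠ X.2 ∧ ub q X.1 * (ub q X.2)⁻¹ ∈ K) := fun h' => h'.1 h2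
      rw [if_pos h2, if_neg h4, add_zero]
      split_ifs
      · exact le_rfl
      · exact hnn
    · rw [if_neg h2, zero_add]
      by_cases h3 : ub q X.1 * (ub q X.2)⁻¹ ∈ K
      · rw [if_pos h3, if_pos ⟨h2, h3⟩]
      · rw [if_neg h3, if_neg (fun h' => h3 h'.2)]
  have h2 : ∑ X ∈ 𝒜 ×ˢ 𝒜, (if X.1 = X.2 then rp r X.1 * rp r X.2 else 0) = D1 𝒜 r := by
    rw [Finset.sum_product]
    unfold D1
    refine Finset.sum_congr rfl fun A hA => ?_
    rw [Finset.sum_ite_eq]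
    rw [if_pos hA, sq]
  have h3 : ∑ X ∈ S, rp r X.1 * rp r X.2 ≤ κ * D1 𝒜 r := by
    have hmaps : ∀ X ∈ S, red (1 * bp X.1) (bp X.2) ∈ RR K P E N C0 := by
      intro X hX
      rw [hS, Finset.mem_filter, Finset.mem_product] at hX
      obtain ⟨⟨hA, hB⟩, hne, hK⟩ := hX
      have hA0 := bp_pos (h.primeA hA)
      have hB0 := bp_pos (h.primeA hB)
      refine red_mem_RR h hEp hPE hN hNq hA hB one_pos hC0
        (fun p hp hd => (hEp p hp).one_lt.ne' (Nat.dvd_one.mp hd)) ?_ hK ?_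
      · rw [one_mul]
        intro heq
        apply hne
        have := congrArg Nat.primeFactors heq
        rwa [primeFactors_bp (h.primeA hA), primeFactors_bp (h.primeA hB)] at this
      · rw [Nat.cast_one, one_mul, ← ub_val hA0 (lt_of_le_of_lt (hN _ hA) hNq),
          ← ub_val hB0 (lt_of_le_of_lt (hN _ hB) hNq), ← Units.val_mul, inv_mul_cancel_right]
    rw [← Finset.sum_fiberwise_of_maps_to hmaps]
    refine le_trans ?_ (mul_le_mul_of_nonneg_right hκ D1_nonneg)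
    rw [Finset.sum_mul]
    refine Finset.sum_le_sum fun Y hY => ?_
    unfold RR at hY
    rw [Finset.mem_filter, Finset.mem_product, Finset.mem_Icc, Finset.mem_Icc] at hY
    obtain ⟨⟨⟨hu0, _⟩, ⟨hv0, _⟩⟩, hcop, _⟩ := hY
    refine le_trans ?_ (D_bound h hu0 hv0 hcop)
    refine Finset.sum_le_sum_of_subset_of_nonneg ?_ ?_
    · intro X hX
      rw [Finset.mem_filter] at hX
      obtain ⟨hXS, hXY⟩ := hX
      rw [hS, Finset.mem_filter, Finset.mem_product] at hXS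
      obtain ⟨⟨hA, hB⟩, _, _⟩ := hXS
      have hA0 := bp_pos (h.primeA hA)
      have hB0 := bp_pos (h.primeA hB)
      obtain ⟨_, _, _, h4, _, _⟩ := red_spec (Nat.mul_pos one_pos hA0) hB0
      rw [hXY, one_mul] at h4
      rw [Finset.mem_filter, Finset.mem_product]
      exact ⟨⟨hA, hB⟩, h4⟩
    · intro X _ _
      exact mul_nonneg (rp_nonneg h.rnn _) (rp_nonneg h.rnn _)
  calc _ ≤ _ := h1
    _ ≤ D1 𝒜 r * (1 + κ) := by
        rw [h2]
        linarith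

end

end Pool.Agent.H.MP_3e6494_nt
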