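import Pool.Agent.H.MP_3e6494_nt.Det2

/-!
# The deterministic resonance inequality: conclusion
-/

set_option autoImplicit false

open Complex Set Filter Topology

namespace Pool.Agent.H.MP_3e6494_nt

noncomputable section

variable {q : ℕ} [hq : Fact q.Prime]
variable {P : Finset ℕ} {𝒜 : Finset (Finset ℕ)} {r : ℕ → ℝ} {N C0 : ℕ} {E : Finset ℕ}

open Classical in
/-- the diagonal part of the numerator -/
theorem diag_num {K : Subgroup (ZMod q)ˣ} (h : Res P 𝒜 r) (hEp : ∀ p ∈ E, p.Prime)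
    (hPE : ∀ p ∈ P, p ∉ E) (hN : ∀ A ∈ 𝒜, bp A ≤ N) (hNq : N < q) :
    Md 𝒜 r ≤ ∑ X ∈ (𝒜 ×ˢ 𝒜 ×ˢ (Finset.univ : Finset K)).filter
      (fun X => mv X * bp X.1 = bp X.2.1), rp r X.1 * rp r X.2.1 * wE E (mv X) := by
  unfold Md
  refine sum_le_of_inj _ _ _ _ (fun X => (X.2, X.1, (1 : K))) ?_ ?_ ?_ ?_
  · intro X hX
    unfold dset at hX
    rw [Finset.mem_filter, Finset.mem_product] at hX
    obtain ⟨⟨hB, hA⟩, hsub⟩ := hX
    have hA0 := bp_pos (h.primeA hA)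
    have hB0 := bp_pos (h.primeA hB)
    rw [Finset.mem_filter, Finset.mem_product, Finset.mem_product]
    refine ⟨⟨hA, hB, Finset.mem_univ _⟩, ?_⟩
    simp only
    have h1 : bp X.1 = bp X.2 * bp (X.1 \ X.2) := by
      rw [bp_split X.1 X.2, Finset.inter_eq_right.mpr hsub]
    have h2 := mv_mul (X.2, X.1, (1 : K)) hA0 (lt_of_le_of_lt (hN _ hA) hNq) hB0
      (lt_of_le_of_lt (hN _ hB) hNq)
    simp only [Subgroup.coe_one, Units.val_one, one_mul] at h2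
    rw [h1, Nat.cast_mul, mul_comm (bp X.2 : ZMod q)] at h2
    have h3 := mul_right_cancel₀ (natCast_ne_zero_of_lt hA0 (lt_of_le_of_lt (hN _ hA) hNq)) h2
    have hD : X.1 \ X.2 ∈ 𝒜 := h.down _ hB _ Finset.sdiff_subset
    have h4 : mv (X.2, X.1, (1 : K)) = bp (X.1 \ X.2) :=
      Nat.ModEq.eq_of_lt_of_lt ((ZMod.natCast_eq_natCast_iff _ _ _).mp h3) (mv_lt _)
        (lt_of_le_of_lt (hN _ hD) hNq)
    rw [h4, h1]
    ring
  · intro X _ Y _ hXY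
    simp only [Prod.mk.injEq] at hXY
    exact Prod.ext hXY.2.1 hXY.1
  · intro X hX
    unfold dset at hX
    rw [Finset.mem_filter, Finset.mem_product] at hX
    obtain ⟨⟨hB, hA⟩, hsub⟩ := hX
    have hA0 := bp_pos (h.primeA hA)
    have hB0 := bp_pos (h.primeA hB)
    simp only
    have h1 : bp X.1 = bp X.2 * bp (X.1 \ X.2) := by
      rw [bp_split X.1 X.2, Finset.inter_eq_right.mpr hsub]
    have h2 := mv_mul (X.2, X.1, (1 : K)) hA0 (lt_of_le_of_lt (hN _ hA) hNq) hB0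
      (lt_of_le_of_lt (hN _ hB) hNq)
    simp only [Subgroup.coe_one, Units.val_one, one_mul] at h2
    rw [h1, Nat.cast_mul, mul_comm (bp X.2 : ZMod q)] at h2
    have h3 := mul_right_cancel₀ (natCast_ne_zero_of_lt hA0 (lt_of_le_of_lt (hN _ hA) hNq)) h2
    have hD : X.1 \ X.2 ∈ 𝒜 := h.down _ hB _ Finset.sdiff_subset
    have h4 : mv (X.2, X.1, (1 : K)) = bp (X.1 \ X.2) :=
      Nat.ModEq.eq_of_lt_of_lt ((ZMod.natCast_eq_natCast_iff _ _ _).mp h3) (mv_lt _)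
        (lt_of_le_of_lt (hN _ hD) hNq)
    have h5 : wE E (mv (X.2, X.1, (1 : K))) = (√(bp (X.1 \ X.2) : ℝ))⁻¹ := by
      rw [h4]
      unfold wE
      rw [if_pos]
      intro p hp hd
      unfold bp at hd
      rw [(hEp p hp).prime.dvd_finsetProd_iff] at hd
      obtain ⟨p', hp', hd'⟩ := hd
      have : p = p' := (Nat.prime_dvd_prime_iff_eq (hEp p hp) (h.primeA hD p' hp')).mp hd'
      rw [this] at hp
      exact hPE p' (h.sub _ hD hp') hp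
    rw [h5, ← Real.sqrt_inv]
    refine le_of_eq ?_
    congr 2
    have hAR : (0 : ℝ) < bp X.2 := by exact_mod_cast hA0
    have hDR : (0 : ℝ) < bp (X.1 \ X.2) := by exact_mod_cast bp_pos (h.primeA hD)
    rw [h1]
    push_cast
    field_simp
  · intro X _
    refine mul_nonneg (mul_nonneg (rp_nonneg h.rnn _) (rp_nonneg h.rnn _)) ?_
    unfold wE
    split_ifs
    · positivity
    · exact le_rfl

open Classical in
/-- **The deterministic resonance inequality.** -/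
theorem det_main (H : Subgroup (DirichletCharacter ℂ q)) (χ₀ : DirichletCharacter ℂ q)
    (h : Res P 𝒜 r) (hE : ∀ p ∈ E, p.Prime ∧ p < q)
    (hPE : ∀ p ∈ P, p ∉ E) (hN : ∀ A ∈ 𝒜, bp A ≤ N) (hNq : N < q) (hC0 : 1 ≤ C0) {κ : ℝ}
    (hκ : ∑ X ∈ RR (KK H) P E N C0, WW P r X.1 X.2 ≤ κ) {Λ : ℝ}
    (hΛ : ∀ ψ ∈ H, ‖(χ₀ * ψ).LFunction (1 / 2)‖ ≤ Λ) :
    Md 𝒜 r * (1 - κ) - ((√(C0 : ℝ))⁻¹ + 5 * 2 ^ E.card * (√(q : ℝ))⁻¹) *
        (H.index * (∑ A ∈ 𝒜, rp r A) ^ 2) ≤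
      Λ * (∏ p ∈ E, (1 + (√(p : ℝ))⁻¹)) * (D1 𝒜 r * (1 + κ)) := by
  have hEp : ∀ p ∈ E, p.Prime := fun p hp => (hE p hp).1
  obtain ⟨V, hV1, hV2⟩ := exists_VE (q := q) E hE
  have hΛ0 : 0 ≤ Λ := le_trans (norm_nonneg _) (hΛ 1 H.one_mem)
  set Q := ∏ p ∈ E, (1 + (√(p : ℝ))⁻¹) with hQ
  have hQ0 : 0 ≤ Q := Finset.prod_nonneg fun p _ => by positivity
  -- bound of the mollified values
  have hbd : ∀ ψ ∈ H, ‖∑ c : ZMod q, (χ₀ * ψ) c * V c‖ ≤ Λ * Q := by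
    intro ψ hψ
    rw [← hV1, norm_mul]
    refine mul_le_mul (hΛ ψ hψ) ?_ (norm_nonneg _) hΛ0
    rw [norm_prod]
    refine Finset.prod_le_prod (fun p _ => norm_nonneg _) fun p _ => ?_
    refine (norm_sub_le _ _).trans ?_
    rw [norm_one, norm_mul, Complex.norm_real, Real.norm_eq_abs, abs_of_nonneg (by positivity)]
    have h1 : ‖(χ₀ * ψ) (p : ZMod q)‖ ≤ 1 := DirichletCharacter.norm_le_one _ _
    have h2 : 0 ≤ (√(p : ℝ))⁻¹ := by positivity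
    nlinarith
  have hres := resonance 𝒜 (rp r) (fun A _ => rp_nonneg h.rnn A) (ub q) H χ₀ V hbd
  have hden := denom_le (K := KK H) h hEp hPE hN hNq hC0 hκ
  set K := KK H with hK
  set T := 𝒜 ×ˢ 𝒜 ×ˢ (Finset.univ : Finset K) with hT
  set η : ℝ := 5 * 2 ^ E.card * (√(q : ℝ))⁻¹ with hη
  -- rewrite the numerator as a sum over triples
  have hnum : ∑ A ∈ 𝒜, ∑ B ∈ 𝒜, ∑ x : K, ((rp r A * rp r B : ℝ) : ℂ) *
      (χ₀ ((x : (ZMod q)ˣ) : ZMod q) *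
        V (((x : (ZMod q)ˣ) * ub q B * (ub q A)⁻¹ : (ZMod q)ˣ) : ZMod q)) =
      ∑ X ∈ T, ((rp r X.1 * rp r X.2.1 : ℝ) : ℂ) * (χ₀ ((X.2.2 : (ZMod q)ˣ) : ZMod q) *
        V (((X.2.2 : (ZMod q)ˣ) * ub q X.2.1 * (ub q X.1)⁻¹ : (ZMod q)ˣ) : ZMod q)) := by
    rw [hT, Finset.sum_product]
    refine Finset.sum_congr rfl fun A _ => ?_
    rw [Finset.sum_product]
  rw [hnum] at hres
  set f : Finset ℕ × Finset ℕ × K → ℂ := fun X =>
    ((rp r X.1 * rp r X.2.1 : ℝ) : ℂ) * (χ₀ ((X.2.2 : (ZMod q)ˣ) : ZMod q) *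
        V (((X.2.2 : (ZMod q)ˣ) * ub q X.2.1 * (ub q X.1)⁻¹ : (ZMod q)ˣ) : ZMod q)) with hf
  set g : Finset ℕ × Finset ℕ × K → ℂ := fun X =>
    ((rp r X.1 * rp r X.2.1 : ℝ) : ℂ) * (χ₀ ((X.2.2 : (ZMod q)ˣ) : ZMod q) *
      ((wE E (mv X) : ℝ) : ℂ)) with hg
  have hrr : ∀ X : Finset ℕ × Finset ℕ × K, 0 ≤ rp r X.1 * rp r X.2.1 := fun X =>
    mul_nonneg (rp_nonneg h.rnn _) (rp_nonneg h.rnn _)
  have hchi : ∀ X : Finset ℕ × Finset ℕ × K, ‖χ₀ ((X.2.2 : (ZMod q)ˣ) : ZMod q)‖ ≤ 1 :=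
    fun X => DirichletCharacter.norm_le_one _ _
  have hwE0 : ∀ m : ℕ, 0 ≤ wE E m := by
    intro m
    unfold wE
    split_ifs
    · positivity
    · exact le_rfl
  -- first error
  have herr : ‖∑ X ∈ T, (f X - g X)‖ ≤ η * (Nat.card K * (∑ A ∈ 𝒜, rp r A) ^ 2) := by
    have h1 : ∀ X ∈ T, ‖f X - g X‖ ≤ rp r X.1 * rp r X.2.1 * η := by
      intro X _
      have h2 : f X - g X = ((rp r X.1 * rp r X.2.1 : ℝ) : ℂ) *
          (χ₀ ((X.2.2 : (ZMod q)ˣ) : ZMod q) *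
          (V (((X.2.2 : (ZMod q)ˣ) * ub q X.2.1 * (ub q X.1)⁻¹ : (ZMod q)ˣ) : ZMod q) -
            ((wE E (mv X) : ℝ) : ℂ))) := by
        rw [hf, hg]
        ring
      rw [h2, norm_mul, Complex.norm_real, Real.norm_eq_abs, abs_of_nonneg (hrr X), norm_mul]
      refine mul_le_mul_of_nonneg_left ?_ (hrr X)
      have h3 := hV2 (((X.2.2 : (ZMod q)ˣ) * ub q X.2.1 * (ub q X.1)⁻¹ : (ZMod q)ˣ) : ZMod q)
        (Units.ne_zero _)
      have h4 : ‖V (((X.2.2 : (ZMod q)ˣ) * ub q X.2.1 * (ub q X.1)⁻¹ : (ZMod q)ˣ) : ZMod q) -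
            ((wE E (mv X) : ℝ) : ℂ)‖ ≤ η := by
        refine h3.trans ?_
        rw [hη]
        refine mul_le_mul_of_nonneg_right ?_ (by positivity)
        linarith
      calc _ ≤ 1 * ‖V (((X.2.2 : (ZMod q)ˣ) * ub q X.2.1 * (ub q X.1)⁻¹ : (ZMod q)ˣ) : ZMod q) -
            ((wE E (mv X) : ℝ) : ℂ)‖ := mul_le_mul_of_nonneg_right (hchi X) (norm_nonneg _)
        _ ≤ η := by rw [one_mul]; exact h4
    calc ‖∑ X ∈ T, (f X - g X)‖ ≤ ∑ X ∈ T, rp r X.1 * rp r X.2.1 * η :=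
          (norm_sum_le _ _).trans (Finset.sum_le_sum h1)
      _ = η * (Nat.card K * (∑ A ∈ 𝒜, rp r A) ^ 2) := by
          rw [hT, Finset.sum_product]
          have h5 : ∀ A ∈ 𝒜, ∑ Y ∈ 𝒜 ×ˢ (Finset.univ : Finset K),
              rp r A * rp r Y.1 * η = rp r A * ((Nat.card K) * (∑ B ∈ 𝒜, rp r B) * η) := by
            intro A _
            rw [Finset.sum_product]
            simp only [Finset.sum_const, Finset.card_univ, nsmul_eq_mul]
            rw [← Finset.mul_sum, ← Finset.sum_mul, ← Finset.mul_sum, Nat.card_eq_fintype_card]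
            ring
          rw [Finset.sum_congr rfl h5, ← Finset.sum_mul]
          ring
  -- the diagonal and off-diagonal parts of g
  set Sd := ∑ X ∈ T.filter (fun X => mv X * bp X.1 = bp X.2.1),
    rp r X.1 * rp r X.2.1 * wE E (mv X) with hSd
  have hdiag : ∑ X ∈ T.filter (fun X => mv X * bp X.1 = bp X.2.1), g X = (Sd : ℂ) := by
    rw [hSd, Complex.ofReal_sum]
    refine Finset.sum_congr rfl fun X hX => ?_
    rw [Finset.mem_filter, hT, Finset.mem_product, Finset.mem_product] at hX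
    obtain ⟨⟨hA, hB, _⟩, heq⟩ := hX
    have hA0 := bp_pos (h.primeA hA)
    have hB0 := bp_pos (h.primeA hB)
    have h2 := mv_mul X hA0 (lt_of_le_of_lt (hN _ hA) hNq) hB0 (lt_of_le_of_lt (hN _ hB) hNq)
    rw [← Nat.cast_mul, heq] at h2
    have h3 : ((X.2.2 : (ZMod q)ˣ) : ZMod q) = 1 := by
      have h4 : (1 : ZMod q) * (bp X.2.1 : ZMod q) =
          ((X.2.2 : (ZMod q)ˣ) : ZMod q) * (bp X.2.1 : ZMod q) := by rw [one_mul]; exact h2
      exact (mul_right_cancel₀ (natCast_ne_zero_of_lt hB0 (lt_of_le_of_lt (hN _ hB) hNq)) h4).symm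
    rw [hg]
    simp only
    rw [h3, map_one, one_mul]
    push_cast
    ring
  have hoff : ‖∑ X ∈ T.filter (fun X => ¬ mv X * bp X.1 = bp X.2.1), g X‖ ≤
      (√(C0 : ℝ))⁻¹ * (Nat.card K * (∑ A ∈ 𝒜, rp r A) ^ 2) + κ * Md 𝒜 r := by
    refine (norm_sum_le _ _).trans
      (le_trans ?_ (offdiag_num h hEp hPE hN hNq hC0 hκ))
    refine Finset.sum_le_sum fun X _ => ?_
    rw [hg]
    simp only
    rw [norm_mul, Complex.norm_real, Real.norm_eq_abs, abs_of_nonneg (hrr X), norm_mul,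
      Complex.norm_real, Real.norm_eq_abs, abs_of_nonneg (hwE0 _)]
    refine mul_le_mul_of_nonneg_left ?_ (hrr X)
    calc _ ≤ 1 * wE E (mv X) := mul_le_mul_of_nonneg_right (hchi X) (hwE0 _)
      _ = wE E (mv X) := one_mul _
  have hMd := diag_num (K := K) h hEp hPE hN hNq
  have hSd0 : 0 ≤ Sd := le_trans (Md_nonneg h) hMd
  -- combine
  have hcomb : ∑ X ∈ T, f X = (Sd : ℂ) +
      ∑ X ∈ T.filter (fun X => ¬ mv X * bp X.1 = bp X.2.1), g X + ∑ X ∈ T, (f X - g X) := by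
    rw [← hdiag, Finset.sum_filter_add_sum_filter_not, Finset.sum_sub_distrib]
    ring
  have hlow : Sd - ((√(C0 : ℝ))⁻¹ * (Nat.card K * (∑ A ∈ 𝒜, rp r A) ^ 2) + κ * Md 𝒜 r) -
      η * (Nat.card K * (∑ A ∈ 𝒜, rp r A) ^ 2) ≤ ‖∑ X ∈ T, f X‖ := by
    rw [hcomb]
    have h6 := norm_sub_le_norm_add ((Sd : ℂ) +
      ∑ X ∈ T.filter (fun X => ¬ mv X * bp X.1 = bp X.2.1), g X) (∑ X ∈ T, (f X - g X))
    have h7 := norm_sub_le_norm_add (Sd : ℂ)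
      (∑ X ∈ T.filter (fun X => ¬ mv X * bp X.1 = bp X.2.1), g X)
    have h8 : ‖(Sd : ℂ)‖ = Sd := by
      rw [Complex.norm_real, Real.norm_eq_abs, abs_of_nonneg hSd0]
    linarith
  have hcK : (Nat.card K : ℝ) = H.index := by
    rw [hK, card_KK]
  rw [hcK] at hlow
  have hfin : Λ * Q * ∑ A ∈ 𝒜, ∑ B ∈ 𝒜,
      (if ub q A * (ub q B)⁻¹ ∈ K then rp r A * rp r B else 0) ≤
      Λ * Q * (D1 𝒜 r * (1 + κ)) := mul_le_mul_of_nonneg_left hden (by positivity)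
  have hres' : ‖∑ X ∈ T, f X‖ ≤ Λ * Q * (D1 𝒜 r * (1 + κ)) := hres.trans hfin
  have hMd' : Md 𝒜 r ≤ Sd := hMd
  nlinarith [hMd', hlow, hres']

end

end Pool.Agent.H.MP_3e6494_nt
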