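import Pool.Agent.H.MP_3e6494_nt.Det

/-!
# Product families of sets of primes
-/

set_option autoImplicit false

open Set Filter Topology

namespace Pool.Agent.H.MP_3e6494_nt

noncomputable section

/-- subsets of `P` with at most `w` elements -/
def cap (P : Finset ℕ) (w : ℕ) : Finset (Finset ℕ) := P.powerset.filter (fun A => A.card ≤ w)

/-- at most `w i` elements from the window `P i` -/
def fam (I : Finset ℕ) (P : ℕ → Finset ℕ) (w : ℕ → ℕ) : Finset (Finset ℕ) :=
  (I.biUnion P).powerset.filter (fun A => ∀ i ∈ I, (A ∩ P i).card ≤ w i)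

theorem mem_cap {P : Finset ℕ} {w : ℕ} {A : Finset ℕ} : A ∈ cap P w ↔ A ⊆ P ∧ A.card ≤ w := by
  unfold cap
  rw [Finset.mem_filter, Finset.mem_powerset]

theorem mem_fam {I : Finset ℕ} {P : ℕ → Finset ℕ} {w : ℕ → ℕ} {A : Finset ℕ} :
    A ∈ fam I P w ↔ A ⊆ I.biUnion P ∧ ∀ i ∈ I, (A ∩ P i).card ≤ w i := by
  unfold fam
  rw [Finset.mem_filter, Finset.mem_powerset]

theorem fam_down {I : Finset ℕ} {P : ℕ → Finset ℕ} {w : ℕ → ℕ} {A B : Finset ℕ}
    (hA : A ∈ fam I P w) (hBA : B ⊆ A) : B ∈ fam I P w := by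
  rw [mem_fam] at hA ⊢
  exact ⟨hBA.trans hA.1, fun i hi =>
    (Finset.card_le_card (Finset.inter_subset_inter_right hBA)).trans (hA.2 i hi)⟩

theorem fam_sum (P : ℕ → Finset ℕ) (w : ℕ → ℕ) (G : ℕ → Finset ℕ → ℝ) (I : Finset ℕ)
    (hd : ∀ i ∈ I, ∀ j ∈ I, i ≠ j → Disjoint (P i) (P j)) :
    ∑ A ∈ fam I P w, ∏ i ∈ I, G i (A ∩ P i) = ∏ i ∈ I, ∑ A ∈ cap (P i) (w i), G i A := by
  induction I using Finset.induction_on with
  | empty =>
    simp [fam]
  | insert a I ha ih =>
    have hdI : ∀ i ∈ I, Disjoint (P i) (P a) := fun i hi =>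
      hd i (Finset.mem_insert_of_mem hi) a (Finset.mem_insert_self _ _)
        (fun h => ha (h ▸ hi))
    have ih' := ih fun i hi j hj => hd i (Finset.mem_insert_of_mem hi) j
      (Finset.mem_insert_of_mem hj)
    rw [Finset.prod_insert ha, ← ih', Finset.sum_mul_sum, ← Finset.sum_product']
    -- facts on the components
    have hcomp1 : ∀ A : Finset ℕ, ∀ i ∈ I, (A \ P a) ∩ P i = A ∩ P i := by
      intro A i hi
      ext x
      simp only [Finset.mem_inter, Finset.mem_sdiff]
      constructor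
      · rintro ⟨⟨h1, _⟩, h3⟩
        exact ⟨h1, h3⟩
      · rintro ⟨h1, h3⟩
        exact ⟨⟨h1, fun h4 => Finset.disjoint_left.mp (hdI i hi) h3 h4⟩, h3⟩
    refine Finset.sum_nbij' (fun A => (A ∩ P a, A \ P a)) (fun X => X.1 ∪ X.2) ?_ ?_ ?_ ?_ ?_
    · intro A hA
      rw [mem_fam] at hA
      rw [Finset.mem_product, mem_cap, mem_fam]
      refine ⟨⟨Finset.inter_subset_right, hA.2 a (Finset.mem_insert_self _ _)⟩, ?_, ?_⟩
      · intro x hx
        simp only [Finset.mem_sdiff] at hx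
        have := hA.1 hx.1
        rw [Finset.biUnion_insert, Finset.mem_union] at this
        exact this.resolve_left hx.2
      · intro i hi
        simp only
        rw [hcomp1 A i hi]
        exact hA.2 i (Finset.mem_insert_of_mem hi)
    · rintro ⟨B, C⟩ hX
      rw [Finset.mem_product, mem_cap, mem_fam] at hX
      obtain ⟨⟨hB, hBc⟩, hC, hCc⟩ := hX
      simp only at hB hBc hC hCc
      rw [mem_fam]
      simp only
      constructor
      · rw [Finset.biUnion_insert]
        exact Finset.union_subset_union hB hC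
      · have hCa : C ∩ P a = ∅ := by
          rw [← Finset.disjoint_iff_inter_eq_empty]
          refine Finset.disjoint_left.mpr fun x hx hxa => ?_
          obtain ⟨i, hi, hxi⟩ := Finset.mem_biUnion.mp (hC hx)
          exact Finset.disjoint_left.mp (hdI i hi) hxi hxa
        intro i hi
        rcases Finset.mem_insert.mp hi with rfl | hi
        · rw [Finset.union_inter_distrib_right, hCa, Finset.union_empty,
            Finset.inter_eq_left.mpr hB]
          exact hBc
        · have hBi : B ∩ P i = ∅ := by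
            rw [← Finset.disjoint_iff_inter_eq_empty]
            exact Finset.disjoint_of_subset_left hB (hdI i hi).symm
          rw [Finset.union_inter_distrib_right, hBi, Finset.empty_union]
          exact hCc i hi
    · intro A _
      simp only
      rw [Finset.union_comm]
      exact Finset.sdiff_union_inter A (P a)
    · rintro ⟨B, C⟩ hX
      rw [Finset.mem_product, mem_cap, mem_fam] at hX
      obtain ⟨⟨hB, hBc⟩, hC, hCc⟩ := hX
      simp only at hB hBc hC hCc
      have hCa : ∀ x ∈ C, x ∉ P a := by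
        intro x hx hxa
        obtain ⟨i, hi, hxi⟩ := Finset.mem_biUnion.mp (hC hx)
        exact Finset.disjoint_left.mp (hdI i hi) hxi hxa
      simp only
      rw [Prod.mk.injEq]
      constructor
      · ext x
        simp only [Finset.mem_inter, Finset.mem_union]
        constructor
        · rintro ⟨h1 | h1, h2⟩
          · exact h1
          · exact absurd h2 (hCa x h1)
        · intro h
          exact ⟨Or.inl h, hB h⟩
      · ext x
        simp only [Finset.mem_sdiff, Finset.mem_union]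
        constructor
        · rintro ⟨h1 | h1, h2⟩
          · exact absurd (hB h1) h2
          · exact h1
        · intro h
          exact ⟨Or.inr h, hCa x h⟩
    · intro A _
      simp only
      rw [Finset.prod_insert ha]
      congr 1
      refine Finset.prod_congr rfl fun i hi => ?_
      rw [hcomp1 A i hi]

/-- a product over a set splits over the windows -/
theorem prod_fam {M : Type*} [CommMonoid M] (P : ℕ → Finset ℕ) (g : ℕ → M) (I : Finset ℕ)
    (hd : ∀ i ∈ I, ∀ j ∈ I, i ≠ j → Disjoint (P i) (P j)) {A : Finset ℕ}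
    (hA : A ⊆ I.biUnion P) : ∏ p ∈ A, g p = ∏ i ∈ I, ∏ p ∈ A ∩ P i, g p := by
  have h1 : A = I.biUnion fun i => A ∩ P i := by
    ext x
    simp only [Finset.mem_biUnion, Finset.mem_inter]
    constructor
    · intro hx
      obtain ⟨i, hi, hxi⟩ := Finset.mem_biUnion.mp (hA hx)
      exact ⟨i, hi, hx, hxi⟩
    · rintro ⟨i, _, hx, _⟩
      exact hx
  conv_lhs => rw [h1]
  refine Finset.prod_biUnion ?_
  intro i hi j hj hij
  exact Finset.disjoint_of_subset_left Finset.inter_subset_right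
    (Finset.disjoint_of_subset_right Finset.inter_subset_right (hd i hi j hj hij))

/-- elementary symmetric sums -/
def esy (P : Finset ℕ) (a : ℕ → ℝ) (j : ℕ) : ℝ := ∑ A ∈ P.powersetCard j, ∏ p ∈ A, a p

theorem esy_nonneg {P : Finset ℕ} {a : ℕ → ℝ} (ha : ∀ p, 0 ≤ a p) (j : ℕ) : 0 ≤ esy P a j :=
  Finset.sum_nonneg fun _ _ => Finset.prod_nonneg fun p _ => ha p

theorem esy_succ (P : Finset ℕ) (a : ℕ → ℝ) (j : ℕ) :
    ((j : ℝ) + 1) * esy P a (j + 1) =
      ∑ A ∈ P.powersetCard j, (∏ p ∈ A, a p) * (∑ p ∈ P, a p - ∑ p ∈ A, a p) := by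
  have h1 : ((j : ℝ) + 1) * esy P a (j + 1) =
      ∑ A ∈ P.powersetCard (j + 1), ∑ _p ∈ A, ∏ p ∈ A, a p := by
    unfold esy
    rw [Finset.mul_sum]
    refine Finset.sum_congr rfl fun A hA => ?_
    rw [Finset.sum_const, (Finset.mem_powersetCard.mp hA).2, nsmul_eq_mul]
    push_cast
    ring
  have h2 : ∑ A ∈ P.powersetCard j, (∏ p ∈ A, a p) * (∑ p ∈ P, a p - ∑ p ∈ A, a p) =
      ∑ A ∈ P.powersetCard j, ∑ p ∈ P \ A, (∏ p ∈ A, a p) * a p := by
    refine Finset.sum_congr rfl fun A hA => ?_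
    rw [← Finset.mul_sum]
    congr 1
    rw [← Finset.sum_sdiff (Finset.mem_powersetCard.mp hA).1]
    ring
  rw [h1, h2, Finset.sum_sigma', Finset.sum_sigma']
  refine Finset.sum_bij' (fun X _ => ⟨X.1.erase X.2, X.2⟩) (fun X _ => ⟨insert X.2 X.1, X.2⟩)
    ?_ ?_ ?_ ?_ ?_
  · rintro ⟨A, p⟩ hX
    rw [Finset.mem_sigma, Finset.mem_powersetCard] at hX
    obtain ⟨⟨hAP, hAc⟩, hp⟩ := hX
    simp only at hAP hAc hp
    rw [Finset.mem_sigma, Finset.mem_powersetCard]
    refine ⟨⟨(Finset.erase_subset _ _).trans hAP, ?_⟩, ?_⟩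
    · simp only
      rw [Finset.card_erase_of_mem hp, hAc]
      rfl
    · simp only
      rw [Finset.mem_sdiff]
      exact ⟨hAP hp, Finset.notMem_erase _ _⟩
  · rintro ⟨A, p⟩ hX
    rw [Finset.mem_sigma, Finset.mem_powersetCard, Finset.mem_sdiff] at hX
    obtain ⟨⟨hAP, hAc⟩, hp, hpA⟩ := hX
    simp only at hAP hAc hp hpA
    rw [Finset.mem_sigma, Finset.mem_powersetCard]
    refine ⟨⟨Finset.insert_subset hp hAP, ?_⟩, ?_⟩
    · simp only
      rw [Finset.card_insert_of_notMem hpA, hAc]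
    · exact Finset.mem_insert_self _ _
  · rintro ⟨A, p⟩ hX
    rw [Finset.mem_sigma] at hX
    simp only
    rw [Finset.insert_erase hX.2]
  · rintro ⟨A, p⟩ hX
    rw [Finset.mem_sigma, Finset.mem_sdiff] at hX
    simp only
    rw [Finset.erase_insert hX.2.2]
  · rintro ⟨A, p⟩ hX
    rw [Finset.mem_sigma] at hX
    simp only
    rw [mul_comm]
    exact (Finset.mul_prod_erase A a hX.2).symm

theorem esy_growth {P : Finset ℕ} {a : ℕ → ℝ} (ha : ∀ p, 0 ≤ a p) {μ θ : ℝ} {w : ℕ}
    (hμ : ∀ p ∈ P, a p ≤ μ) (hμ0 : 0 ≤ μ) (hθ0 : 0 ≤ θ)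
    (hθ : θ * w ≤ ∑ p ∈ P, a p - w * μ) {j : ℕ} (hj : j < w) :
    θ * esy P a j ≤ esy P a (j + 1) := by
  have h1 : θ * w * esy P a j ≤ ((j : ℝ) + 1) * esy P a (j + 1) := by
    rw [esy_succ]
    unfold esy
    rw [Finset.mul_sum]
    refine Finset.sum_le_sum fun A hA => ?_
    obtain ⟨hAP, hAc⟩ := Finset.mem_powersetCard.mp hA
    have h2 : ∑ p ∈ A, a p ≤ w * μ := by
      calc ∑ p ∈ A, a p ≤ ∑ _p ∈ A, μ := Finset.sum_le_sum fun p hp => hμ p (hAP hp)
        _ = j * μ := by rw [Finset.sum_const, hAc, nsmul_eq_mul]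
        _ ≤ w * μ := by
          have : (j : ℝ) ≤ w := by exact_mod_cast hj.le
          gcongr
    have h3 : 0 ≤ ∏ p ∈ A, a p := Finset.prod_nonneg fun p _ => ha p
    rw [mul_comm]
    refine mul_le_mul_of_nonneg_left ?_ h3
    linarith
  have h2 : ((j : ℝ) + 1) ≤ w := by exact_mod_cast hj
  have h3 : 0 < (j : ℝ) + 1 := by positivity
  have h4 := esy_nonneg (P := P) ha j
  have h5 : ((j : ℝ) + 1) * (θ * esy P a j) ≤ ((j : ℝ) + 1) * esy P a (j + 1) := by
    refine le_trans ?_ h1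
    calc ((j : ℝ) + 1) * (θ * esy P a j) ≤ w * (θ * esy P a j) := by gcongr
      _ = θ * w * esy P a j := by ring
  exact le_of_mul_le_mul_left h5 h3

theorem cap_sum (P : Finset ℕ) (w : ℕ) (F : Finset ℕ → ℝ) :
    ∑ A ∈ cap P w, F A = ∑ j ∈ Finset.range (w + 1), ∑ A ∈ P.powersetCard j, F A := by
  have h1 : cap P w = (Finset.range (w + 1)).biUnion fun j => P.powersetCard j := by
    ext A
    rw [mem_cap, Finset.mem_biUnion]
    constructor
    · intro h
      exact ⟨A.card, Finset.mem_range.mpr (Nat.lt_succ_of_le h.2),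
        Finset.mem_powersetCard.mpr ⟨h.1, rfl⟩⟩
    · rintro ⟨j, hj, h⟩
      rw [Finset.mem_powersetCard] at h
      rw [Finset.mem_range] at hj
      exact ⟨h.1, by omega⟩
  rw [h1, Finset.sum_biUnion]
  intro i _ j _ hij
  exact Finset.pairwise_disjoint_powersetCard P hij

/-- the mass of the window concentrates on the largest sets -/
theorem window_ratio {P : Finset ℕ} {a : ℕ → ℝ} (ha : ∀ p, 0 ≤ a p) {μ θ y : ℝ} {w k : ℕ}
    (hμ : ∀ p ∈ P, a p ≤ μ) (hμ0 : 0 ≤ μ) (hθ1 : 1 < θ)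
    (hθ : θ * w ≤ ∑ p ∈ P, a p - w * μ) (hk : 1 ≤ (θ - 1) * θ ^ k) (hkw : k ≤ w) (hy : 1 ≤ y) :
    y ^ (w - k) / 2 * ∑ A ∈ cap P w, ∏ p ∈ A, a p ≤
      ∑ A ∈ cap P w, (∏ p ∈ A, a p) * y ^ A.card := by
  have hθ0 : 0 < θ := by linarith
  have hg : ∀ j, j < w → θ * esy P a j ≤ esy P a (j + 1) := fun j hj =>
    esy_growth ha hμ hμ0 hθ0.le hθ hj
  have hnn := esy_nonneg (P := P) ha
  have h1 : ∀ j, j ≤ w → (θ - 1) * ∑ i ∈ Finset.range j, esy P a i ≤ esy P a j := by
    intro j
    induction j with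
    | zero => intro _; simpa using hnn 0
    | succ j ih =>
      intro hj
      rw [Finset.sum_range_succ, mul_add]
      have := ih (by omega)
      have := hg j (by omega)
      linarith
  have h2 : ∀ i, i ≤ w → θ ^ i * esy P a (w - i) ≤ esy P a w := by
    intro i
    induction i with
    | zero => intro _; simp
    | succ i ih =>
      intro hi
      have h3 := ih (by omega)
      have h4 := hg (w - (i + 1)) (by omega)
      rw [show w - (i + 1) + 1 = w - i by omega] at h4
      calc θ ^ (i + 1) * esy P a (w - (i + 1)) = θ ^ i * (θ * esy P a (w - (i + 1))) := by ring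
        _ ≤ θ ^ i * esy P a (w - i) := by gcongr
        _ ≤ _ := h3
  have h3 : ∑ i ∈ Finset.range (w - k), esy P a i ≤ esy P a w := by
    have h4 := h1 (w - k) (by omega)
    have h5 := h2 k hkw
    have h6 : 0 ≤ ∑ i ∈ Finset.range (w - k), esy P a i :=
      Finset.sum_nonneg fun i _ => hnn i
    calc ∑ i ∈ Finset.range (w - k), esy P a i
        ≤ ((θ - 1) * θ ^ k) * ∑ i ∈ Finset.range (w - k), esy P a i :=
          le_mul_of_one_le_left h6 hk
      _ = θ ^ k * ((θ - 1) * ∑ i ∈ Finset.range (w - k), esy P a i) := by ring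
      _ ≤ θ ^ k * esy P a (w - k) := by gcongr
      _ ≤ _ := h5
  have hsplit : ∀ f : ℕ → ℝ, ∑ j ∈ Finset.range (w + 1), f j =
      ∑ j ∈ Finset.range (w - k), f j + ∑ j ∈ Finset.Ico (w - k) (w + 1), f j := by
    intro f
    rw [Finset.sum_range_add_sum_Ico _ (by omega)]
  have h4 : ∑ A ∈ cap P w, ∏ p ∈ A, a p = ∑ j ∈ Finset.range (w + 1), esy P a j := by
    rw [cap_sum]
    rfl
  have h5 : ∑ A ∈ cap P w, (∏ p ∈ A, a p) * y ^ A.card =
      ∑ j ∈ Finset.range (w + 1), esy P a j * y ^ j := by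
    rw [cap_sum]
    refine Finset.sum_congr rfl fun j _ => ?_
    unfold esy
    rw [Finset.sum_mul]
    refine Finset.sum_congr rfl fun A hA => ?_
    rw [(Finset.mem_powersetCard.mp hA).2]
  rw [h4, h5, hsplit, hsplit]
  have h6 : esy P a w ≤ ∑ j ∈ Finset.Ico (w - k) (w + 1), esy P a j :=
    Finset.single_le_sum (fun j _ => hnn j) (Finset.mem_Ico.mpr ⟨by omega, by omega⟩)
  have h7 : y ^ (w - k) * ∑ j ∈ Finset.Ico (w - k) (w + 1), esy P a j ≤
      ∑ j ∈ Finset.Ico (w - k) (w + 1), esy P a j * y ^ j := by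
    rw [Finset.mul_sum]
    refine Finset.sum_le_sum fun j hj => ?_
    rw [mul_comm]
    have := (Finset.mem_Ico.mp hj).1
    exact mul_le_mul_of_nonneg_left (pow_le_pow_right₀ hy this) (hnn j)
  have h8 : 0 ≤ ∑ j ∈ Finset.range (w - k), esy P a j * y ^ j :=
    Finset.sum_nonneg fun j _ => mul_nonneg (hnn j) (by positivity)
  have h9 : 0 ≤ y ^ (w - k) := by positivity
  nlinarith [mul_le_mul_of_nonneg_left (h3.trans h6) h9]

/-- the number of small subsets -/
theorem card_cap_le {P : Finset ℕ} {w : ℕ} {Y : ℝ} (hw : 1 ≤ w) (hwY : (w : ℝ) ≤ Y)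
    (hPY : (P.card : ℝ) ≤ Y) :
    ((cap P w).card : ℝ) ≤ Real.exp (w * (1 + (Real.log Y - Real.log w))) := by
  have hw0 : (0 : ℝ) < w := by exact_mod_cast hw
  have hY0 : 0 < Y := hw0.trans_le hwY
  set z : ℝ := w / Y with hz
  have hz0 : 0 < z := div_pos hw0 hY0
  have hz1 : z ≤ 1 := (div_le_one hY0).mpr hwY
  have h1 : ((cap P w).card : ℝ) * z ^ w ≤ ∑ A ∈ P.powerset, z ^ A.card := by
    calc ((cap P w).card : ℝ) * z ^ w = ∑ _A ∈ cap P w, z ^ w := by
          rw [Finset.sum_const, nsmul_eq_mul]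
      _ ≤ ∑ A ∈ cap P w, z ^ A.card := by
          refine Finset.sum_le_sum fun A hA => ?_
          exact pow_le_pow_of_le_one hz0.le hz1 (mem_cap.mp hA).2
      _ ≤ _ := by
          refine Finset.sum_le_sum_of_subset_of_nonneg (Finset.filter_subset _ _) ?_
          intro A _ _
          positivity
  have h2 : ∑ A ∈ P.powerset, z ^ A.card = (z + 1) ^ P.card := by
    rw [← Finset.sum_pow_mul_eq_add_pow z 1 P]
    simp
  have h3 : (z + 1) ^ P.card ≤ Real.exp w := by
    calc (z + 1) ^ P.card ≤ (Real.exp z) ^ P.card := by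
          gcongr
          exact Real.add_one_le_exp z
      _ = Real.exp (P.card * z) := by rw [Real.exp_nat_mul]
      _ ≤ Real.exp (Y * z) := by
          gcongr
      _ = Real.exp w := by
          rw [hz, mul_div_cancel₀]
          exact hY0.ne'
  have h4 : z ^ w = Real.exp (w * (Real.log w - Real.log Y)) := by
    rw [Real.exp_nat_mul, ← Real.log_div hw0.ne' hY0.ne', Real.exp_log hz0]
  have h5 : ((cap P w).card : ℝ) * z ^ w ≤ Real.exp w := by
    rw [h2] at h1
    exact h1.trans h3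
  rw [h4] at h5
  have h6 : Real.exp (w * (1 + (Real.log Y - Real.log w))) =
      Real.exp w / Real.exp (w * (Real.log w - Real.log Y)) := by
    rw [← Real.exp_sub]
    congr 1
    ring
  rw [h6, le_div_iff₀ (Real.exp_pos _)]
  exact h5

end

end Pool.Agent.H.MP_3e6494_nt
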