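import Pool.Agent.H.MP_3e6494_nt.Fam
import Pool.Agent.H.MP_3e6494_nt.Det3

/-!
# The resonance inequality for product families
-/

set_option autoImplicit false

open Complex Set Filter Topology

namespace Pool.Agent.H.MP_3e6494_nt

noncomputable section

theorem Md_eq {P : Finset ℕ} {𝒜 : Finset (Finset ℕ)} {r : ℕ → ℝ} (h : Res P 𝒜 r) :
    Md 𝒜 r = ∑ A ∈ 𝒜, ∏ p ∈ A, (r p ^ 2 + r p * (√(p : ℝ))⁻¹) := by
  have h1 : ∑ A ∈ 𝒜, ∏ p ∈ A, (r p ^ 2 + r p * (√(p : ℝ))⁻¹) =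
      ∑ A ∈ 𝒜, ∑ B ∈ A.powerset, (∏ p ∈ B, r p ^ 2) * ∏ p ∈ A \ B, (r p * (√(p : ℝ))⁻¹) := by
    refine Finset.sum_congr rfl fun A _ => ?_
    rw [Finset.prod_add]
  rw [h1, Finset.sum_sigma']
  unfold Md
  refine Finset.sum_bij' (fun X _ => (⟨X.1, X.2⟩ : (_ : Finset ℕ) × Finset ℕ))
    (fun X _ => (X.1, X.2)) ?_ ?_ ?_ ?_ ?_
  · rintro ⟨A, B⟩ hX
    unfold dset at hX
    rw [Finset.mem_filter, Finset.mem_product] at hX
    rw [Finset.mem_sigma, Finset.mem_powerset]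
    exact ⟨hX.1.1, hX.2⟩
  · rintro ⟨A, B⟩ hX
    rw [Finset.mem_sigma, Finset.mem_powerset] at hX
    unfold dset
    rw [Finset.mem_filter, Finset.mem_product]
    exact ⟨⟨hX.1, h.down A hX.1 B hX.2⟩, hX.2⟩
  · intro X _
    rfl
  · intro X _
    rfl
  · rintro ⟨A, B⟩ hX
    unfold dset at hX
    rw [Finset.mem_filter, Finset.mem_product] at hX
    obtain ⟨⟨hA, hB⟩, hBA⟩ := hX
    simp only at hA hB hBA
    simp only
    have h2 : rp r A = rp r B * rp r (A \ B) := by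
      rw [rp_split r A B, Finset.inter_eq_right.mpr hBA]
    have h3 : bp A = bp B * bp (A \ B) := by
      rw [bp_split A B, Finset.inter_eq_right.mpr hBA]
    have hA' : ∀ p ∈ A \ B, p.Prime := fun p hp => h.primeA hA p (Finset.mem_sdiff.mp hp).1
    have hB0 : (0 : ℝ) < bp B := by exact_mod_cast bp_pos (h.primeA hB)
    have hAB0 : (0 : ℝ) < bp (A \ B) := by exact_mod_cast bp_pos hA'
    have h4 : √((bp B : ℝ) / bp A) = ∏ p ∈ A \ B, (√(p : ℝ))⁻¹ := by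
      rw [Finset.prod_inv_distrib, sqrt_bp, ← Real.sqrt_inv, h3]
      congr 1
      push_cast
      field_simp
    rw [h4, h2, Finset.prod_pow, Finset.prod_mul_distrib]
    unfold rp
    ring

/-- the hypotheses on a system of windows -/
structure Sys (E I : Finset ℕ) (P : ℕ → Finset ℕ) (w Y : ℕ → ℕ) (r x μ : ℕ → ℝ) (θ : ℝ)
    (k : ℕ) : Prop where
  disj : ∀ i ∈ I, ∀ j ∈ I, i ≠ j → Disjoint (P i) (P j)
  prime : ∀ i ∈ I, ∀ p ∈ P i, p.Prime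
  notE : ∀ i ∈ I, ∀ p ∈ P i, p ∉ E
  le : ∀ i ∈ I, ∀ p ∈ P i, p ≤ Y i
  Ypos : ∀ i ∈ I, 1 ≤ Y i
  rnn : ∀ p, 0 ≤ r p
  rbig : ∀ i ∈ I, ∀ p ∈ P i, 1 ≤ r p * √(p : ℝ)
  xnn : ∀ i ∈ I, 0 ≤ x i
  rx : ∀ i ∈ I, ∀ p ∈ P i, x i * (r p * √(p : ℝ)) ≤ 1
  μnn : ∀ i ∈ I, 0 ≤ μ i
  rμ : ∀ i ∈ I, ∀ p ∈ P i, r p ^ 2 ≤ μ i
  θ1 : 1 < θ
  grow : ∀ i ∈ I, θ * w i ≤ ∑ p ∈ P i, r p ^ 2 - w i * μ i
  hk : 1 ≤ (θ - 1) * θ ^ k
  kw : ∀ i ∈ I, k ≤ w i

variable {E I : Finset ℕ} {P : ℕ → Finset ℕ} {w Y : ℕ → ℕ} {r x μ : ℕ → ℝ} {θ : ℝ} {k : ℕ}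

theorem Sys.res (h : Sys E I P w Y r x μ θ k) : Res (I.biUnion P) (fam I P w) r where
  prime := by
    intro p hp
    obtain ⟨i, hi, hpi⟩ := Finset.mem_biUnion.mp hp
    exact h.prime i hi p hpi
  sub := fun A hA => (mem_fam.mp hA).1
  down := fun A hA B hBA => fam_down hA hBA
  rnn := h.rnn
  rbig := by
    intro p hp
    obtain ⟨i, hi, hpi⟩ := Finset.mem_biUnion.mp hp
    exact h.rbig i hi p hpi

theorem Sys.Md_ge (h : Sys E I P w Y r x μ θ k) :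
    (∏ i ∈ I, ((1 + x i) ^ (w i - k) / 2)) * D1 (fam I P w) r ≤ Md (fam I P w) r := by
  have h1 : D1 (fam I P w) r = ∏ i ∈ I, ∑ A ∈ cap (P i) (w i), ∏ p ∈ A, r p ^ 2 := by
    rw [← fam_sum P w (fun _ A => ∏ p ∈ A, r p ^ 2) I h.disj]
    unfold D1 rp
    refine Finset.sum_congr rfl fun A hA => ?_
    rw [← Finset.prod_pow, prod_fam P (fun p => r p ^ 2) I h.disj (mem_fam.mp hA).1]
  have h2 : ∏ i ∈ I, ∑ A ∈ cap (P i) (w i), (∏ p ∈ A, r p ^ 2) * (1 + x i) ^ A.card ≤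
      Md (fam I P w) r := by
    rw [← fam_sum P w (fun i A => (∏ p ∈ A, r p ^ 2) * (1 + x i) ^ A.card) I h.disj,
      Md_eq h.res]
    refine Finset.sum_le_sum fun A hA => ?_
    rw [prod_fam P _ I h.disj (mem_fam.mp hA).1]
    refine Finset.prod_le_prod ?_ ?_
    · intro i hi
      have := h.xnn i hi
      refine mul_nonneg (Finset.prod_nonneg fun p _ => sq_nonneg _) (by positivity)
    · intro i hi
      rw [← Finset.prod_const, ← Finset.prod_mul_distrib]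
      have hx := h.xnn i hi
      refine Finset.prod_le_prod (fun p _ => by positivity) ?_
      intro p hp
      have hpi := (Finset.mem_inter.mp hp).2
      have h3 := h.rx i hi p hpi
      have h4 := h.rnn p
      have h5 : 0 < √(p : ℝ) := Real.sqrt_pos.mpr (by exact_mod_cast (h.prime i hi p hpi).pos)
      have h6 : r p * x i ≤ (√(p : ℝ))⁻¹ := by
        rw [← one_div, le_div_iff₀ h5]
        linarith
      nlinarith [mul_le_mul_of_nonneg_left h6 h4]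
  refine le_trans ?_ h2
  rw [h1, ← Finset.prod_mul_distrib]
  refine Finset.prod_le_prod ?_ ?_
  · intro i hi
    have := h.xnn i hi
    refine mul_nonneg (by positivity) (Finset.sum_nonneg fun A _ =>
      Finset.prod_nonneg fun p _ => sq_nonneg _)
  · intro i hi
    exact window_ratio (fun p => sq_nonneg _) (h.rμ i hi) (h.μnn i hi) h.θ1 (h.grow i hi) h.hk
      (h.kw i hi) (by have := h.xnn i hi; linarith)

theorem Sys.bp_le (h : Sys E I P w Y r x μ θ k) {A : Finset ℕ} (hA : A ∈ fam I P w) :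
    bp A ≤ ∏ i ∈ I, Y i ^ w i := by
  have h1 : bp A = ∏ i ∈ I, bp (A ∩ P i) := by
    exact prod_fam P (fun p => p) I h.disj (mem_fam.mp hA).1
  rw [h1]
  refine Finset.prod_le_prod' fun i hi => ?_
  unfold bp
  calc ∏ p ∈ A ∩ P i, p ≤ ∏ _p ∈ A ∩ P i, Y i :=
        Finset.prod_le_prod' fun p hp => h.le i hi p (Finset.mem_inter.mp hp).2
    _ = Y i ^ (A ∩ P i).card := by rw [Finset.prod_const]
    _ ≤ Y i ^ w i := Nat.pow_le_pow_right (h.Ypos i hi) ((mem_fam.mp hA).2 i hi)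

theorem Sys.core {q : ℕ} [hq : Fact q.Prime] (h : Sys E I P w Y r x μ θ k)
    (H : Subgroup (DirichletCharacter ℂ q)) (χ₀ : DirichletCharacter ℂ q)
    (hE : ∀ p ∈ E, p.Prime ∧ p < q) {N C0 : ℕ} (hN : N = ∏ i ∈ I, Y i ^ w i)
    (hC0 : C0 = (40 * 2 ^ E.card * H.index * (fam I P w).card) ^ 2) (hNq : C0 * N * N < q)
    (hκ : ∑ X ∈ RR (KK H) (I.biUnion P) E N C0, WW (I.biUnion P) r X.1 X.2 ≤ 1 / 8)
    {Λ : ℝ} (hΛ0 : 0 ≤ Λ) (hΛ : ∀ ψ ∈ H, ‖(χ₀ * ψ).LFunction (1 / 2)‖ ≤ Λ) :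
    ∏ i ∈ I, ((1 + x i) ^ (w i - k) / 2) ≤ 2 * (Λ * ∏ p ∈ E, (1 + (√(p : ℝ))⁻¹)) := by
  classical
  set 𝒜 := fam I P w with h𝒜
  have hne : ∅ ∈ 𝒜 := by
    rw [h𝒜, mem_fam]
    simp
  have hcard : 1 ≤ 𝒜.card := Finset.card_pos.mpr ⟨∅, hne⟩
  have hidx : 1 ≤ H.index := by
    exact Nat.one_le_iff_ne_zero.mpr Subgroup.index_ne_zero_of_finite
  have hC0' : 1 ≤ C0 := by
    rw [hC0]
    exact Nat.one_le_pow _ _ (by positivity)
  have hN1 : 1 ≤ N := by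
    rw [hN]
    exact Finset.prod_pos fun i hi => Nat.pow_pos (h.Ypos i hi)
  have hNq' : N < q := by
    refine lt_of_le_of_lt ?_ hNq
    calc N = 1 * 1 * N := by ring
      _ ≤ C0 * N * N := by gcongr
  have hC0q : C0 < q := by
    refine lt_of_le_of_lt ?_ hNq
    calc C0 = C0 * 1 * 1 := by ring
      _ ≤ C0 * N * N := by gcongr
  have hPE : ∀ p ∈ I.biUnion P, p ∉ E := by
    intro p hp
    obtain ⟨i, hi, hpi⟩ := Finset.mem_biUnion.mp hp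
    exact h.notE i hi p hpi
  have hbpN : ∀ A ∈ 𝒜, bp A ≤ N := fun A hA => hN ▸ h.bp_le hA
  have hmain := det_main H χ₀ h.res hE hPE hbpN hNq' hC0' hκ hΛ
  -- bounds
  set Q : ℝ := ∏ p ∈ E, (1 + (√(p : ℝ))⁻¹) with hQ
  have hQ0 : 0 ≤ Q := Finset.prod_nonneg fun p _ => by positivity
  have hD0 : 0 < D1 𝒜 r := by
    unfold D1
    refine Finset.sum_pos' (fun A _ => sq_nonneg _) ⟨∅, hne, ?_⟩
    simp [rp]
  have hMd := D1_le_Md h.res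
  have hCS : (∑ A ∈ 𝒜, rp r A) ^ 2 ≤ 𝒜.card * D1 𝒜 r := sq_sum_le_card_mul_sum_sq
  have hsC : √(C0 : ℝ) = 40 * 2 ^ E.card * H.index * 𝒜.card := by
    rw [hC0]
    push_cast
    exact Real.sqrt_sq (by positivity)
  have hidx' : (1 : ℝ) ≤ H.index := by exact_mod_cast hidx
  have hcard' : (1 : ℝ) ≤ 𝒜.card := by exact_mod_cast hcard
  have h2E : (1 : ℝ) ≤ 2 ^ E.card := one_le_pow₀ (by norm_num)
  have hsC0 : 0 < √(C0 : ℝ) := by rw [hsC]; positivity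
  have hsq : √(C0 : ℝ) ≤ √(q : ℝ) := Real.sqrt_le_sqrt (by exact_mod_cast hC0q.le)
  have hinv : (√(q : ℝ))⁻¹ ≤ (√(C0 : ℝ))⁻¹ := inv_anti₀ hsC0 hsq
  have hX : (√(C0 : ℝ))⁻¹ + 5 * 2 ^ E.card * (√(q : ℝ))⁻¹ ≤ 6 * 2 ^ E.card * (√(C0 : ℝ))⁻¹ := by
    have h0 : 0 < (√(C0 : ℝ))⁻¹ := inv_pos.mpr hsC0
    nlinarith [mul_le_mul_of_nonneg_left hinv (by positivity : (0 : ℝ) ≤ 5 * 2 ^ E.card)]
  have herr : ((√(C0 : ℝ))⁻¹ + 5 * 2 ^ E.card * (√(q : ℝ))⁻¹) *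
      (H.index * (∑ A ∈ 𝒜, rp r A) ^ 2) ≤ D1 𝒜 r / 4 := by
    calc _ ≤ (6 * 2 ^ E.card * (√(C0 : ℝ))⁻¹) * (H.index * (𝒜.card * D1 𝒜 r)) := by
          gcongr
      _ = 6 / 40 * D1 𝒜 r := by
          rw [hsC]
          field_simp
      _ ≤ _ := by linarith
  have h5 : Md 𝒜 r * (5 / 8) ≤ Λ * Q * (D1 𝒜 r * (9 / 8)) := by
    have : (1 : ℝ) - 1 / 8 = 7 / 8 := by norm_num
    rw [this] at hmain
    have h6 : (1 : ℝ) + 1 / 8 = 9 / 8 := by norm_num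
    rw [h6] at hmain
    linarith
  have h6 : Md 𝒜 r ≤ 2 * (Λ * Q) * D1 𝒜 r := by
    have : 0 ≤ Λ * Q * D1 𝒜 r := by positivity
    linarith
  have h7 := h.Md_ge
  exact le_of_mul_le_mul_right (h7.trans h6) hD0

end

end Pool.Agent.H.MP_3e6494_nt
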