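import Mathlib

/-!
# Mertens' first theorem with explicit constants
-/

set_option autoImplicit false

open Set Filter Topology

namespace Pool.Agent.H.MP_3e6494_nt

noncomputable section

/-- primes up to `N` -/
def prm (N : ℕ) : Finset ℕ := (Finset.Icc 1 N).filter Nat.Prime

theorem mem_prm {N p : ℕ} : p ∈ prm N ↔ p.Prime ∧ p ≤ N := by
  unfold prm
  rw [Finset.mem_filter, Finset.mem_Icc]
  exact ⟨fun h => ⟨h.2, h.1.2⟩, fun h => ⟨⟨h.1.one_lt.le, h.2⟩, h.1⟩⟩

theorem log_factorial_eq (N : ℕ) :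
    Real.log (N.factorial : ℝ) = ∑ p ∈ prm N, (N.factorial.factorization p : ℝ) * Real.log p := by
  rw [Real.log_nat_eq_sum_factorization, Finsupp.sum]
  refine Finset.sum_subset ?_ ?_
  · intro p hp
    rw [Nat.support_factorization, Nat.mem_primeFactors] at hp
    exact mem_prm.mpr ⟨hp.1, (hp.1.dvd_factorial).mp hp.2.1⟩
  · intro p _ hp
    rw [Finsupp.notMem_support_iff] at hp
    rw [hp]
    simp

/-- partial sums of `n^{-3/2}` -/
theorem sum_three_half (N : ℕ) :
    ∑ n ∈ Finset.Icc 2 (N + 1), (1 : ℝ) / (n * √n) ≤ 2 - 2 / √((N : ℝ) + 1) := by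
  induction N with
  | zero => simp
  | succ N ih =>
    rw [Finset.sum_Icc_succ_top (by omega)]
    have h1 : (1 : ℝ) / (((N + 1 + 1 : ℕ) : ℝ) * √((N + 1 + 1 : ℕ) : ℝ)) ≤
        2 / √((N : ℝ) + 1) - 2 / √(((N + 1 : ℕ) : ℝ) + 1) := by
      push_cast
      set a := √((N : ℝ) + 1) with ha
      set b := √((N : ℝ) + 1 + 1) with hb
      have ha0 : 0 < a := Real.sqrt_pos.mpr (by positivity)
      have hb0 : 0 < b := Real.sqrt_pos.mpr (by positivity)
      have ha2 : a ^ 2 = (N : ℝ) + 1 := Real.sq_sqrt (by positivity)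
      have hb2 : b ^ 2 = (N : ℝ) + 1 + 1 := Real.sq_sqrt (by positivity)
      have hab : a ≤ b := Real.sqrt_le_sqrt (by linarith)
      rw [← hb2, div_sub_div _ _ ha0.ne' hb0.ne', div_le_div_iff₀ (by positivity) (by positivity)]
      have h2 : (b - a) * (b + a) = 1 := by nlinarith
      have h3 : 0 < b - a := by
        by_contra h
        push Not at h
        nlinarith
      have h4 : 1 ≤ (b - a) * (2 * b) := by nlinarith
      nlinarith [mul_le_mul_of_nonneg_right h4 (by positivity : 0 ≤ b * b), mul_pos ha0 hb0]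
    linarith

theorem sum_log_aux (N : ℕ) :
    ∑ p ∈ prm N, Real.log p / (p * ((p : ℝ) - 1)) ≤ 8 := by
  have h1 : ∑ p ∈ prm N, Real.log p / (p * ((p : ℝ) - 1)) ≤
      ∑ n ∈ Finset.Icc 2 (N + 1), (4 : ℝ) * (1 / (n * √n)) := by
    refine le_trans (Finset.sum_le_sum (g := fun p : ℕ => (4 : ℝ) * (1 / (p * √p))) ?_)
      (Finset.sum_le_sum_of_subset_of_nonneg ?_ ?_)
    · intro p hp
      have hp2 : (2 : ℝ) ≤ p := by exact_mod_cast (mem_prm.mp hp).1.two_le
      have hlog : Real.log p ≤ 2 * √p := by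
        have := Real.log_le_rpow_div (x := p) (ε := 1 / 2) (by positivity) (by norm_num)
        rw [← Real.sqrt_eq_rpow] at this
        linarith
      have hs0 : 0 < √(p : ℝ) := Real.sqrt_pos.mpr (by linarith)
      have hs2 : √(p : ℝ) ^ 2 = p := Real.sq_sqrt (by linarith)
      rw [mul_one_div, div_le_div_iff₀ (by nlinarith) (by positivity)]
      calc Real.log p * (p * √p) ≤ (2 * √p) * (p * √p) := by gcongr
        _ = 2 * (p * p) := by
            calc (2 * √p) * (p * √p) = 2 * (p * √(p : ℝ) ^ 2) := by ring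
              _ = _ := by rw [hs2]
        _ ≤ 4 * (p * ((p : ℝ) - 1)) := by nlinarith
    · intro p hp
      rw [Finset.mem_Icc]
      have := mem_prm.mp hp
      exact ⟨this.1.two_le, by omega⟩
    · intro n _ _
      positivity
  rw [← Finset.mul_sum] at h1
  have h2 := sum_three_half N
  have h3 : 0 ≤ 2 / √((N : ℝ) + 1) := by positivity
  linarith

/-- Mertens' sum -/
def mert (N : ℕ) : ℝ := ∑ p ∈ prm N, Real.log p / p

theorem mert_lower {N : ℕ} (hN : 1 ≤ N) : Real.log N - 9 ≤ mert N := by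
  have hN0 : (0 : ℝ) < N := by exact_mod_cast hN
  have h1 := Stirling.le_log_factorial_stirling (n := N) (by omega)
  have h2 : 0 ≤ Real.log (N : ℝ) := Real.log_nonneg (by exact_mod_cast hN)
  have h3 : 0 ≤ Real.log (2 * Real.pi) := Real.log_nonneg (by nlinarith [Real.pi_gt_three])
  have h4 : Real.log (N.factorial : ℝ) ≤ N * (mert N + 8) := by
    rw [log_factorial_eq]
    unfold mert
    have h5 : ∑ p ∈ prm N, (N.factorial.factorization p : ℝ) * Real.log p ≤
        ∑ p ∈ prm N, (N * (Real.log p / p) + N * (Real.log p / (p * ((p : ℝ) - 1)))) := by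
      refine Finset.sum_le_sum fun p hp => ?_
      have hpp := (mem_prm.mp hp).1
      have hp2 : (2 : ℝ) ≤ p := by exact_mod_cast hpp.two_le
      have h6 := Nat.sub_one_mul_factorization_factorial (n := N) hpp
      have h7 : (p - 1) * N.factorial.factorization p ≤ N := by omega
      have h8 : ((p : ℝ) - 1) * (N.factorial.factorization p : ℝ) ≤ N := by
        have : (((p - 1) * N.factorial.factorization p : ℕ) : ℝ) ≤ N := by exact_mod_cast h7
        rwa [Nat.cast_mul, Nat.cast_sub hpp.one_lt.le, Nat.cast_one] at this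
      have h9 : (N.factorial.factorization p : ℝ) ≤ N / ((p : ℝ) - 1) := by
        rw [le_div_iff₀ (by linarith)]
        linarith
      have hl : 0 ≤ Real.log (p : ℝ) := Real.log_nonneg (by linarith)
      calc (N.factorial.factorization p : ℝ) * Real.log p ≤ N / ((p : ℝ) - 1) * Real.log p := by
            gcongr
        _ = _ := by
            have : (p : ℝ) - 1 ≠ 0 := by linarith
            field_simp
            ring
    refine h5.trans ?_
    rw [Finset.sum_add_distrib, ← Finset.mul_sum, ← Finset.mul_sum, mul_add]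
    have := sum_log_aux N
    gcongr
  have h5 : (N : ℝ) * (Real.log N - 9) ≤ N * mert N := by nlinarith
  exact le_of_mul_le_mul_left h5 hN0

theorem mert_upper {N : ℕ} (hN : 1 ≤ N) : mert N ≤ Real.log N + Real.log 4 := by
  have hN0 : (0 : ℝ) < N := by exact_mod_cast hN
  have h1 : Real.log (N.factorial : ℝ) ≤ N * Real.log N := by
    rw [← Real.log_pow]
    refine Real.log_le_log (by exact_mod_cast N.factorial_pos) ?_
    exact_mod_cast Nat.factorial_le_pow N
  have h2 : N * mert N - Real.log 4 * N ≤ Real.log (N.factorial : ℝ) := by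
    have hθ := Chebyshev.theta_le_log4_mul_x (x := (N : ℝ)) (by positivity)
    have hθ' : Chebyshev.theta (N : ℝ) = ∑ p ∈ prm N, Real.log p := by
      unfold Chebyshev.theta prm
      rw [Nat.floor_natCast]
      rfl
    rw [hθ'] at hθ
    have h3 : ∑ p ∈ prm N, (N * (Real.log p / p) - Real.log p) ≤ Real.log (N.factorial : ℝ) := by
      rw [log_factorial_eq]
      refine Finset.sum_le_sum fun p hp => ?_
      obtain ⟨hpp, hpN⟩ := mem_prm.mp hp
      have hp2 : (2 : ℝ) ≤ p := by exact_mod_cast hpp.two_le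
      have hl : 0 ≤ Real.log (p : ℝ) := Real.log_nonneg (by linarith)
      have h4 : N / p ≤ N.factorial.factorization p := by
        rw [Nat.factorization_factorial hpp (Nat.lt_succ_self (Nat.log p N))]
        have h5 : 1 ∈ Finset.Ico 1 (Nat.log p N + 1) := by
          rw [Finset.mem_Ico]
          have := Nat.log_pos hpp.one_lt hpN
          omega
        have h6 := Finset.single_le_sum (f := fun i => N / p ^ i) (fun i _ => Nat.zero_le _) h5
        simpa using h6
      have h5 : (N : ℝ) / p - 1 ≤ (N.factorial.factorization p : ℝ) := by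
        have h6 : ((N / p : ℕ) : ℝ) ≤ (N.factorial.factorization p : ℝ) := by exact_mod_cast h4
        have h7 : (N : ℝ) / p < ((N / p : ℕ) : ℝ) + 1 := by
          rw [div_lt_iff₀ (by linarith)]
          have := Nat.lt_div_mul_add (a := N) hpp.pos
          have h8 : N < (N / p) * p + p := this
          have h9 : ((N : ℕ) : ℝ) < ((N / p : ℕ) : ℝ) * p + p := by exact_mod_cast h8
          linarith
        linarith
      calc (N : ℝ) * (Real.log p / p) - Real.log p = ((N : ℝ) / p - 1) * Real.log p := by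
            field_simp
        _ ≤ _ := by gcongr
    rw [Finset.sum_sub_distrib, ← Finset.mul_sum] at h3
    unfold mert
    linarith
  have h5 : (N : ℝ) * mert N ≤ N * (Real.log N + Real.log 4) := by nlinarith
  exact le_of_mul_le_mul_left h5 hN0

/-- the primes in a window, outside `E` -/
def win (E : Finset ℕ) (x y : ℝ) : Finset ℕ := (prm ⌊y⌋₊).filter fun p => x < p ∧ p ∉ E

theorem mem_win {E : Finset ℕ} {x y : ℝ} {p : ℕ} (hy : 0 ≤ y) :
    p ∈ win E x y ↔ p.Prime ∧ x < p ∧ (p : ℝ) ≤ y ∧ p ∉ E := by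
  unfold win
  rw [Finset.mem_filter, mem_prm, Nat.le_floor_iff hy]
  tauto

theorem card_win_le {E : Finset ℕ} {x y : ℝ} (hy : 0 ≤ y) : ((win E x y).card : ℝ) ≤ y := by
  have h1 : (win E x y).card ≤ ⌊y⌋₊ := by
    unfold win prm
    refine (Finset.card_filter_le _ _).trans ((Finset.card_filter_le _ _).trans ?_)
    simp
  calc ((win E x y).card : ℝ) ≤ (⌊y⌋₊ : ℝ) := by exact_mod_cast h1
    _ ≤ y := Nat.floor_le hy

theorem log_floor {y : ℝ} (hy : 1 ≤ y) : Real.log y - Real.log 2 ≤ Real.log (⌊y⌋₊ : ℝ) := by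
  have h1 : (1 : ℝ) ≤ (⌊y⌋₊ : ℝ) := by
    exact_mod_cast Nat.le_floor (by simpa using hy)
  have h2 : y ≤ 2 * (⌊y⌋₊ : ℝ) := by
    have := Nat.lt_floor_add_one y
    linarith
  have h3 := Real.log_le_log (by linarith) h2
  rw [Real.log_mul (by norm_num) (by linarith)] at h3
  linarith

theorem log_four_lt : Real.log 4 < 3 / 2 := by
  have h2 : Real.log 4 = 2 * Real.log 2 := by
    rw [show (4 : ℝ) = 2 ^ 2 by norm_num, Real.log_pow]
    norm_num
  have := Real.log_two_lt_d9
  rw [h2]
  linarith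

/-- the window sum, lower bound -/
theorem win_lower {E : Finset ℕ} {x y : ℝ} (hx : 1 ≤ x) (hxy : x ≤ y) (hx3 : Real.exp 1 ≤ x) :
    Real.log y - Real.log x - 12 - E.card * (Real.log x / x) ≤
      ∑ p ∈ win E x y, Real.log p / p := by
  have hy : 1 ≤ y := hx.trans hxy
  have h1 : mert ⌊y⌋₊ - mert ⌊x⌋₊ ≤ ∑ p ∈ (prm ⌊y⌋₊).filter (fun p : ℕ => x < p), Real.log p / p := by
    unfold mert
    rw [← Finset.sum_filter_add_sum_filter_not (prm ⌊y⌋₊) (fun p : ℕ => x < p)]
    have h2 : ∑ p ∈ (prm ⌊y⌋₊).filter (fun p : ℕ => ¬ x < p), Real.log p / p ≤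
        ∑ p ∈ prm ⌊x⌋₊, Real.log p / p := by
      refine Finset.sum_le_sum_of_subset_of_nonneg ?_ ?_
      · intro p hp
        rw [Finset.mem_filter, mem_prm] at hp
        rw [mem_prm, Nat.le_floor_iff (by linarith)]
        exact ⟨hp.1.1, not_lt.mp hp.2⟩
      · intro p hp _
        have := (mem_prm.mp hp).1.one_lt
        exact div_nonneg (Real.log_nonneg (by exact_mod_cast this.le)) (by positivity)
    linarith
  have hfy : 1 ≤ ⌊y⌋₊ := Nat.le_floor (by simpa using hy)
  have hfx : 1 ≤ ⌊x⌋₊ := Nat.le_floor (by simpa using hx)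
  have h2 := mert_lower hfy
  have h3 := mert_upper hfx
  have h4 := log_floor hy
  have h5 : Real.log (⌊x⌋₊ : ℝ) ≤ Real.log x :=
    Real.log_le_log (by exact_mod_cast hfx) (Nat.floor_le (by linarith))
  have h6 := log_four_lt
  have h7 := Real.log_two_lt_d9
  have h8 : ∑ p ∈ (prm ⌊y⌋₊).filter (fun p : ℕ => x < p), Real.log p / p ≤
      ∑ p ∈ win E x y, Real.log p / p + E.card * (Real.log x / x) := by
    have h9 : win E x y = ((prm ⌊y⌋₊).filter (fun p : ℕ => x < p)).filter (fun p => p ∉ E) := by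
      unfold win
      rw [Finset.filter_filter]
    rw [h9, ← Finset.sum_filter_add_sum_filter_not ((prm ⌊y⌋₊).filter (fun p : ℕ => x < p))
      (fun p : ℕ => p ∉ E)]
    have h10 : ∑ p ∈ ((prm ⌊y⌋₊).filter (fun p : ℕ => x < p)).filter (fun p : ℕ => ¬ p ∉ E),
        Real.log p / p ≤ E.card * (Real.log x / x) := by
      have hcard : (((prm ⌊y⌋₊).filter (fun p : ℕ => x < p)).filter
          (fun p : ℕ => ¬ p ∉ E)).card ≤ E.card := by
        refine Finset.card_le_card fun p hp => ?_
        rw [Finset.mem_filter] at hp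
        exact not_not.mp hp.2
      calc _ ≤ ∑ p ∈ ((prm ⌊y⌋₊).filter (fun p : ℕ => x < p)).filter (fun p : ℕ => ¬ p ∉ E),
            Real.log x / x := by
              refine Finset.sum_le_sum fun p hp => ?_
              rw [Finset.mem_filter, Finset.mem_filter] at hp
              exact Real.log_div_self_antitoneOn hx3 (hx3.trans hp.1.2.le) hp.1.2.le
        _ = (((prm ⌊y⌋₊).filter (fun p : ℕ => x < p)).filter
          (fun p : ℕ => ¬ p ∉ E)).card * (Real.log x / x) := by
              rw [Finset.sum_const, nsmul_eq_mul]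
        _ ≤ _ := by
              have : 0 ≤ Real.log x / x := div_nonneg (Real.log_nonneg hx) (by linarith)
              gcongr
    linarith
  linarith

/-- a finite product over `E` -/
theorem prod_E_le (E : Finset ℕ) (hE : ∀ p ∈ E, 0 < p) :
    ∏ p ∈ E, (1 + (√(p : ℝ))⁻¹) ≤ Real.exp (3 * √(E.card : ℝ)) := by
  have h1 : ∏ p ∈ E, (1 + (√(p : ℝ))⁻¹) ≤ Real.exp (∑ p ∈ E, (√(p : ℝ))⁻¹) := by
    rw [Real.exp_sum]
    refine Finset.prod_le_prod (fun p _ => by positivity) fun p _ => ?_
    have := Real.add_one_le_exp ((√(p : ℝ))⁻¹)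
    linarith
  refine h1.trans (Real.exp_le_exp.mpr ?_)
  rcases Nat.eq_zero_or_pos E.card with h0 | h0
  · rw [Finset.card_eq_zero] at h0
    subst h0
    simp
  have hs : 0 < √(E.card : ℝ) := Real.sqrt_pos.mpr (by exact_mod_cast h0)
  have hss : √(E.card : ℝ) * √(E.card : ℝ) = E.card := Real.mul_self_sqrt (by positivity)
  rw [← Finset.sum_filter_add_sum_filter_not E (fun p => p ≤ E.card)]
  have h2 : ∑ p ∈ E.filter (fun p => p ≤ E.card), (√(p : ℝ))⁻¹ ≤ 2 * √(E.card : ℝ) := by
    have h3 : ∀ M : ℕ, ∑ k ∈ Finset.Icc 1 M, (√(k : ℝ))⁻¹ ≤ 2 * √(M : ℝ) := by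
      intro M
      induction M with
      | zero => simp
      | succ M ih =>
        rw [Finset.sum_Icc_succ_top (by omega)]
        have h4 : (√((M + 1 : ℕ) : ℝ))⁻¹ ≤ 2 * √((M + 1 : ℕ) : ℝ) - 2 * √(M : ℝ) := by
          push_cast
          set a := √(M : ℝ) with ha
          set b := √((M : ℝ) + 1) with hb
          have ha0 : 0 ≤ a := Real.sqrt_nonneg _
          have hb0 : 0 < b := Real.sqrt_pos.mpr (by positivity)
          have ha2 : a ^ 2 = (M : ℝ) := Real.sq_sqrt (by positivity)
          have hb2 : b ^ 2 = (M : ℝ) + 1 := Real.sq_sqrt (by positivity)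
          rw [inv_le_iff_one_le_mul₀ hb0]
          nlinarith [sq_nonneg (b - a)]
        linarith
    refine le_trans (Finset.sum_le_sum_of_subset_of_nonneg ?_ ?_) (h3 E.card)
    · intro p hp
      rw [Finset.mem_filter] at hp
      rw [Finset.mem_Icc]
      exact ⟨hE p hp.1, hp.2⟩
    · intro i _ _
      positivity
  have h5 : ∑ p ∈ E.filter (fun p => ¬ p ≤ E.card), (√(p : ℝ))⁻¹ ≤ √(E.card : ℝ) := by
    calc _ ≤ ∑ p ∈ E.filter (fun p => ¬ p ≤ E.card), (√(E.card : ℝ))⁻¹ := by
          refine Finset.sum_le_sum fun p hp => ?_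
          rw [Finset.mem_filter] at hp
          refine inv_anti₀ hs (Real.sqrt_le_sqrt ?_)
          exact_mod_cast (not_le.mp hp.2).le
      _ = (E.filter (fun p => ¬ p ≤ E.card)).card * (√(E.card : ℝ))⁻¹ := by
          rw [Finset.sum_const, nsmul_eq_mul]
      _ ≤ E.card * (√(E.card : ℝ))⁻¹ := by
          gcongr
          exact Finset.filter_subset _ _
      _ = √(E.card : ℝ) := by
          rw [mul_inv_eq_iff_eq_mul₀ hs.ne']
          exact hss.symm
  linarith

end

end Pool.Agent.H.MP_3e6494_nt
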