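import Pool.Agent.H.MP_3e6494_nt.Gen1
import Pool.Agent.H.MP_3e6494_nt.PrimeSum

/-!
# The choice of the parameters
-/

set_option autoImplicit false

open Set Filter Topology

namespace Pool.Agent.H.MP_3e6494_nt

noncomputable section

def cc (n i : ℕ) : ℝ := 4 * n / i - 2

def ZZ (n m : ℕ) : ℝ := ∑ i ∈ Finset.Icc 1 m, 1 / (((i : ℝ) + 1) * cc n i)

def nu (n m : ℕ) (ε : ℝ) (i : ℕ) : ℝ := (1 - ε) / (((i : ℝ) + 1) * cc n i ^ 2 * ZZ n m)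

def wi (n m : ℕ) (ε ℓ : ℝ) (i : ℕ) : ℕ := ⌊nu n m ε i * ℓ / Real.log ℓ⌋₊

def Xi (n : ℕ) (ℓ : ℝ) (i : ℕ) : ℝ := ℓ ^ ((n : ℝ) / (i + 1))

def Yi (n : ℕ) (ℓ : ℝ) (i : ℕ) : ℝ := ℓ ^ ((n : ℝ) / i)

def Wi (E : Finset ℕ) (n : ℕ) (ℓ : ℝ) (i : ℕ) : Finset ℕ := win E (Xi n ℓ i) (Yi n ℓ i)

def Si (E : Finset ℕ) (n : ℕ) (ℓ : ℝ) (i : ℕ) : ℝ := ∑ p ∈ Wi E n ℓ i, Real.log p / p

def rho (E : Finset ℕ) (n m : ℕ) (ε ℓ : ℝ) (i : ℕ) : ℝ :=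
  (1 + ε) * wi n m ε ℓ i / Si E n ℓ i

open Classical in
def rr (E : Finset ℕ) (n m : ℕ) (ε ℓ : ℝ) (p : ℕ) : ℝ :=
  ∑ i ∈ Finset.Icc 1 m, if p ∈ Wi E n ℓ i then √(rho E n m ε ℓ i * (Real.log p / p)) else 0

def xx (n m : ℕ) (ε ℓ : ℝ) (i : ℕ) : ℝ :=
  √((1 - ε) / ((1 + ε) * ((i : ℝ) + 1) * wi n m ε ℓ i))

def mu (E : Finset ℕ) (n m : ℕ) (ε ℓ : ℝ) (i : ℕ) : ℝ :=
  rho E n m ε ℓ i * (Real.log (Xi n ℓ i) / Xi n ℓ i)

theorem cc_ge {n i : ℕ} (hi : 1 ≤ i) (hin : i ≤ n) : 2 ≤ cc n i := by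
  unfold cc
  have h1 : (0 : ℝ) < i := by exact_mod_cast hi
  have h2 : (i : ℝ) ≤ n := by exact_mod_cast hin
  have h3 : (4 : ℝ) ≤ 4 * n / i := by
    rw [le_div_iff₀ h1]
    linarith
  linarith

theorem ZZ_pos {n m : ℕ} (hm : 1 ≤ m) (hmn : m + 2 ≤ n) : 0 < ZZ n m := by
  unfold ZZ
  refine Finset.sum_pos (fun i hi => ?_) ⟨1, Finset.mem_Icc.mpr ⟨le_rfl, hm⟩⟩
  have h1 := Finset.mem_Icc.mp hi
  have := cc_ge (n := n) h1.1 (by omega)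
  positivity

theorem nu_pos {n m : ℕ} (hm : 1 ≤ m) (hmn : m + 2 ≤ n) {ε : ℝ} (hε1 : ε < 1) {i : ℕ}
    (hi : i ∈ Finset.Icc 1 m) : 0 < nu n m ε i := by
  unfold nu
  have h1 := Finset.mem_Icc.mp hi
  have := cc_ge (n := n) h1.1 (by omega)
  have h2 := ZZ_pos hm hmn
  have h3 : 0 < 1 - ε := by linarith
  positivity

theorem nu_sum {n m : ℕ} (hm : 1 ≤ m) (hmn : m + 2 ≤ n) (ε : ℝ) :
    ∑ i ∈ Finset.Icc 1 m, nu n m ε i * cc n i = 1 - ε := by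
  have h2 := ZZ_pos hm hmn
  have h3 : ∀ i ∈ Finset.Icc 1 m, nu n m ε i * cc n i =
      (1 - ε) / ZZ n m * (1 / (((i : ℝ) + 1) * cc n i)) := by
    intro i hi
    have h1 := Finset.mem_Icc.mp hi
    have := cc_ge (n := n) h1.1 (by omega)
    unfold nu
    have h4 : cc n i ≠ 0 := by linarith
    have h5 : (i : ℝ) + 1 ≠ 0 := by positivity
    field_simp
  rw [Finset.sum_congr rfl h3, ← Finset.mul_sum]
  change (1 - ε) / ZZ n m * ZZ n m = 1 - ε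
  field_simp

theorem nu_le {n m : ℕ} (hm : 1 ≤ m) (hmn : m + 2 ≤ n) {ε : ℝ} (hε0 : 0 ≤ ε) (hε1 : ε < 1) {i : ℕ}
    (hi : i ∈ Finset.Icc 1 m) : nu n m ε i ≤ 1 / 2 := by
  have h1 := nu_sum hm hmn ε
  have h2 : nu n m ε i * cc n i ≤ 1 - ε := by
    rw [← h1]
    refine Finset.single_le_sum (f := fun i => nu n m ε i * cc n i) (fun j hj => ?_) hi
    have h3 := Finset.mem_Icc.mp hj
    have := cc_ge (n := n) h3.1 (by omega)
    have := nu_pos hm hmn hε1 hj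
    positivity
  have h3 := Finset.mem_Icc.mp hi
  have h4 := cc_ge (n := n) h3.1 (by omega)
  have h5 := nu_pos hm hmn hε1 hi
  nlinarith

theorem nu_sqrt_sum {n m : ℕ} (hm : 1 ≤ m) (hmn : m + 2 ≤ n) {ε : ℝ} (hε1 : ε < 1) :
    ∑ i ∈ Finset.Icc 1 m, √(nu n m ε i / ((i : ℝ) + 1)) = √(1 - ε) * √(ZZ n m) := by
  have h2 := ZZ_pos hm hmn
  have h3 : ∀ i ∈ Finset.Icc 1 m, √(nu n m ε i / ((i : ℝ) + 1)) =
      (√(1 - ε) / √(ZZ n m)) * (1 / (((i : ℝ) + 1) * cc n i)) := by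
    intro i hi
    have h1 := Finset.mem_Icc.mp hi
    have := cc_ge (n := n) h1.1 (by omega)
    have h4 : 0 < cc n i := by linarith
    have h5 : (0 : ℝ) < (i : ℝ) + 1 := by positivity
    have h6 : nu n m ε i / ((i : ℝ) + 1) =
        ((1 - ε) / ZZ n m) * (1 / (((i : ℝ) + 1) * cc n i)) ^ 2 := by
      unfold nu
      field_simp
    rw [h6, Real.sqrt_mul (div_nonneg (by linarith) h2.le), Real.sqrt_div (by linarith),
      Real.sqrt_sq (by positivity)]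
  rw [Finset.sum_congr rfl h3, ← Finset.mul_sum]
  change √(1 - ε) / √(ZZ n m) * ZZ n m = √(1 - ε) * √(ZZ n m)
  have h7 : √(ZZ n m) * √(ZZ n m) = ZZ n m := Real.mul_self_sqrt h2.le
  have h8 : 0 < √(ZZ n m) := Real.sqrt_pos.mpr h2
  rw [div_mul_eq_mul_div, div_eq_iff h8.ne', mul_assoc, h7]

/-- the conditions on `ℓ` -/
structure Good (n m k : ℕ) (ε ℓ : ℝ) : Prop where
  e1 : 16 ≤ ℓ
  e2 : 1 ≤ Real.log ℓ
  c1 : ∀ i ∈ Finset.Icc 1 m, Real.log ℓ ≤ nu n m ε i / 2 * ℓ ^ (ε / 8)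
  c2 : (k : ℝ) + 1 ≤ ℓ ^ (1 - ε / 8)
  c3 : Real.log ℓ ≤ 1 / (2 * n) * ℓ ^ (1 - ε / 8)
  c3' : 4 ≤ ℓ ^ (1 - ε / 8)
  c5 : ∀ i ∈ Finset.Icc 1 m, 26 / (ε * (n / (i * ((i : ℝ) + 1)))) ≤ Real.log ℓ
  c6 : ∀ i ∈ Finset.Icc 1 m, Real.log ℓ ≤ ε / (4 * n) * ℓ ^ ((n : ℝ) / (i + 1) - 1)
  c7 : 16 / ε ≤ ℓ ^ ε
  c7' : 40 / ε ≤ ℓ
  c8 : 8 / ε ≤ Real.log ℓ
  c10 : Real.log ℓ ≤ ε ^ 2 / 36 * ℓ ^ ε
  c10' : Real.log ℓ ≤ (ε / (2 * (m * (k + 3) + m + 1))) ^ 2 * ℓ ^ (1 : ℝ)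
  c12 : ∀ i ∈ Finset.Icc 1 m, (1 + ε) / (1 - ε) * (((i : ℝ) + 1) * nu n m ε i) ≤ Real.log ℓ

theorem ev_log {c a : ℝ} (hc : 0 < c) (ha : 0 < a) :
    ∀ᶠ ℓ : ℝ in atTop, Real.log ℓ ≤ c * ℓ ^ a := by
  have h1 := (isLittleO_log_rpow_atTop ha).bound hc
  filter_upwards [h1, eventually_ge_atTop 1] with ℓ h2 h3
  rw [Real.norm_eq_abs, Real.norm_eq_abs, abs_of_nonneg (Real.log_nonneg h3),
    abs_of_nonneg (by positivity)] at h2
  exact h2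

theorem ev_pow (C : ℝ) {a : ℝ} (ha : 0 < a) : ∀ᶠ ℓ : ℝ in atTop, C ≤ ℓ ^ a :=
  (tendsto_rpow_atTop ha).eventually_ge_atTop C

theorem ev_logc (C : ℝ) : ∀ᶠ ℓ : ℝ in atTop, C ≤ Real.log ℓ :=
  Real.tendsto_log_atTop.eventually_ge_atTop C

theorem eventually_good {n m : ℕ} (k : ℕ) (hm : 1 ≤ m) (hmn : m + 2 ≤ n) {ε : ℝ} (hε0 : 0 < ε)
    (hε1 : ε < 1) : ∀ᶠ ℓ : ℝ in atTop, Good n m k ε ℓ := by
  have hn0 : (0 : ℝ) < n := by
    have : 0 < n := by omega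
    exact_mod_cast this
  have hm0 : (0 : ℝ) < m := by exact_mod_cast hm
  have a1 : ∀ᶠ ℓ : ℝ in atTop, ∀ i ∈ Finset.Icc 1 m,
      Real.log ℓ ≤ nu n m ε i / 2 * ℓ ^ (ε / 8) := by
    rw [Filter.eventually_all_finset]
    intro i hi
    exact ev_log (by have := nu_pos hm hmn hε1 hi; positivity) (by positivity)
  have a5 : ∀ᶠ ℓ : ℝ in atTop, ∀ i ∈ Finset.Icc 1 m,
      26 / (ε * (n / (i * ((i : ℝ) + 1)))) ≤ Real.log ℓ := by
    rw [Filter.eventually_all_finset]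
    intro i hi
    exact ev_logc _
  have a6 : ∀ᶠ ℓ : ℝ in atTop, ∀ i ∈ Finset.Icc 1 m,
      Real.log ℓ ≤ ε / (4 * n) * ℓ ^ ((n : ℝ) / (i + 1) - 1) := by
    rw [Filter.eventually_all_finset]
    intro i hi
    have h1 := Finset.mem_Icc.mp hi
    have h2 : (i : ℝ) + 1 < n := by
      have : i + 1 < n := by omega
      exact_mod_cast this
    refine ev_log (by positivity) ?_
    have : 1 < (n : ℝ) / (i + 1) := by
      rw [lt_div_iff₀ (by positivity)]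
      linarith
    linarith
  have a12 : ∀ᶠ ℓ : ℝ in atTop, ∀ i ∈ Finset.Icc 1 m,
      (1 + ε) / (1 - ε) * (((i : ℝ) + 1) * nu n m ε i) ≤ Real.log ℓ := by
    rw [Filter.eventually_all_finset]
    intro i hi
    exact ev_logc _
  have hc3 : (0 : ℝ) < 1 / (2 * n) := by positivity
  have hc10' : (0 : ℝ) < (ε / (2 * (m * (k + 3) + m + 1))) ^ 2 := by positivity
  have he8 : 0 < 1 - ε / 8 := by linarith
  filter_upwards [eventually_ge_atTop 16, ev_logc 1, a1, ev_pow ((k : ℝ) + 1) he8, ev_log hc3 he8,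
    ev_pow 4 he8, a5, a6, ev_pow (16 / ε) hε0, eventually_ge_atTop (40 / ε), ev_logc (8 / ε),
    ev_log (c := ε ^ 2 / 36) (by positivity) hε0, ev_log hc10' one_pos, a12]
    with ℓ b1 b2 b3 b4 b5 b6 b7 b8 b9 b10 b11 b12 b13 b14
  exact ⟨b1, b2, b3, b4, b5, b6, b7, b8, b9, b10, b11, b12, b13, b14⟩

variable {n m k : ℕ} {ε ℓ : ℝ} {E : Finset ℕ}

theorem Good.Yi_one (g : Good n m k ε ℓ) (i : ℕ) : 1 ≤ Yi n ℓ i := by
  unfold Yi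
  refine Real.one_le_rpow (by linarith [g.e1]) (by positivity)

theorem Good.Xi_ge (g : Good n m k ε ℓ) (hmn : m + 2 ≤ n) {i : ℕ} (hi : i ∈ Finset.Icc 1 m) :
    ℓ ≤ Xi n ℓ i := by
  unfold Xi
  have h1 := Finset.mem_Icc.mp hi
  have h2 : (i : ℝ) + 1 ≤ n := by
    have : i + 1 ≤ n := by omega
    exact_mod_cast this
  calc ℓ = ℓ ^ (1 : ℝ) := (Real.rpow_one ℓ).symm
    _ ≤ _ := by
      refine Real.rpow_le_rpow_of_exponent_le (by linarith [g.e1]) ?_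
      rw [le_div_iff₀ (by positivity)]
      linarith

theorem Good.Xi_le_Yi (g : Good n m k ε ℓ) {i : ℕ} (hi : 1 ≤ i) : Xi n ℓ i ≤ Yi n ℓ i := by
  unfold Xi Yi
  have h1 : (0 : ℝ) < i := by exact_mod_cast hi
  refine Real.rpow_le_rpow_of_exponent_le (by linarith [g.e1]) ?_
  gcongr
  linarith

theorem Good.log_Xi (g : Good n m k ε ℓ) (i : ℕ) :
    Real.log (Xi n ℓ i) = n / (i + 1) * Real.log ℓ :=
  Real.log_rpow (by linarith [g.e1]) _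

theorem Good.log_Yi (g : Good n m k ε ℓ) (i : ℕ) :
    Real.log (Yi n ℓ i) = n / i * Real.log ℓ :=
  Real.log_rpow (by linarith [g.e1]) _

theorem Good.small (g : Good n m k ε ℓ) (hε0 : 0 < ε) (hmn : m + 2 ≤ n) {i : ℕ} (hi : i ∈ Finset.Icc 1 m) :
    ℓ * (Real.log (Xi n ℓ i) / Xi n ℓ i) ≤ ε / 4 := by
  have h1 := g.c6 i hi
  have hn0 : (0 : ℝ) < n := by
    have : 0 < n := by omega
    exact_mod_cast this
  have hl0 : 0 < ℓ := by linarith [g.e1]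
  have hX0 : 0 < Xi n ℓ i := by linarith [g.Xi_ge hmn hi, g.e1]
  rw [g.log_Xi]
  have h2 : ℓ * ℓ ^ ((n : ℝ) / (i + 1) - 1) = Xi n ℓ i := by
    unfold Xi
    rw [Real.rpow_sub_one hl0.ne']
    field_simp
  rw [← mul_div_assoc, div_le_iff₀ hX0, ← h2]
  have h3 : (n : ℝ) / (i + 1) ≤ n := by
    refine div_le_self hn0.le ?_
    have : (0 : ℝ) ≤ i := by positivity
    linarith
  have h4 : 0 ≤ Real.log ℓ := by linarith [g.e2]
  calc ℓ * (n / (i + 1) * Real.log ℓ) ≤ ℓ * (n * (ε / (4 * n) * ℓ ^ ((n : ℝ) / (i + 1) - 1))) := by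
        gcongr
    _ = _ := by
        field_simp

theorem Good.wi_le (g : Good n m k ε ℓ) (hm : 1 ≤ m) (hmn : m + 2 ≤ n) (hε0 : 0 < ε) (hε1 : ε < 1)
    {i : ℕ} (hi : i ∈ Finset.Icc 1 m) : (wi n m ε ℓ i : ℝ) ≤ nu n m ε i * ℓ / Real.log ℓ := by
  unfold wi
  refine Nat.floor_le ?_
  have h1 := nu_pos hm hmn hε1 hi
  have := g.e1
  have := g.e2
  positivity

theorem Good.wi_gt (n m : ℕ) (ε ℓ : ℝ) (i : ℕ) :
    nu n m ε i * ℓ / Real.log ℓ < wi n m ε ℓ i + 1 := by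
  unfold wi
  exact Nat.lt_floor_add_one _

theorem Good.wi_ge (g : Good n m k ε ℓ) (hm : 1 ≤ m) (hmn : m + 2 ≤ n) (hε0 : 0 < ε) (hε1 : ε < 1)
    {i : ℕ} (hi : i ∈ Finset.Icc 1 m) : ℓ ^ (1 - ε / 8) ≤ wi n m ε ℓ i := by
  have h1 := Good.wi_gt n m ε ℓ i
  have h2 := g.c1 i hi
  have hl0 : 0 < ℓ := by linarith [g.e1]
  have hL : 0 < Real.log ℓ := by linarith [g.e2]
  have h3 : 2 * ℓ ^ (1 - ε / 8) ≤ nu n m ε i * ℓ / Real.log ℓ := by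
    rw [le_div_iff₀ hL]
    calc 2 * ℓ ^ (1 - ε / 8) * Real.log ℓ
        ≤ 2 * ℓ ^ (1 - ε / 8) * (nu n m ε i / 2 * ℓ ^ (ε / 8)) := by gcongr
      _ = nu n m ε i * (ℓ ^ (1 - ε / 8) * ℓ ^ (ε / 8)) := by ring
      _ = nu n m ε i * ℓ := by
        rw [← Real.rpow_add hl0]
        norm_num
  have h4 := g.c3'
  linarith

theorem Good.wi_le_l (g : Good n m k ε ℓ) (hm : 1 ≤ m) (hmn : m + 2 ≤ n) (hε0 : 0 < ε) (hε1 : ε < 1)
    {i : ℕ} (hi : i ∈ Finset.Icc 1 m) : (wi n m ε ℓ i : ℝ) ≤ ℓ := by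
  refine (g.wi_le hm hmn hε0 hε1 hi).trans ?_
  have h1 := nu_le hm hmn hε0.le hε1 hi
  have h2 := nu_pos hm hmn hε1 hi
  have hl0 : 0 < ℓ := by linarith [g.e1]
  have hL := g.e2
  rw [div_le_iff₀ (by linarith)]
  nlinarith

theorem Good.Si_ge (g : Good n m k ε ℓ) (hmn : m + 2 ≤ n) (hε0 : 0 < ε) (hε1 : ε < 1)
    (hE : (E.card : ℝ) ≤ ℓ ^ (1 - ε)) {i : ℕ} (hi : i ∈ Finset.Icc 1 m) :
    (1 - ε) * (n / (i * ((i : ℝ) + 1))) * Real.log ℓ ≤ Si E n ℓ i := by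
  have hi1 := (Finset.mem_Icc.mp hi).1
  have hi0 : (0 : ℝ) < i := by exact_mod_cast hi1
  have hn0 : (0 : ℝ) < n := by
    have : 0 < n := by omega
    exact_mod_cast this
  have hX := g.Xi_ge hmn hi
  have h16 := g.e1
  have h1 := win_lower (E := E) (x := Xi n ℓ i) (y := Yi n ℓ i) (by linarith)
    (g.Xi_le_Yi hi1) (by have := Real.exp_one_lt_d9; linarith)
  have h2 : (E.card : ℝ) * (Real.log (Xi n ℓ i) / Xi n ℓ i) ≤ 1 := by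
    have h3 := g.small hε0 hmn hi
    have h4 : 0 ≤ Real.log (Xi n ℓ i) / Xi n ℓ i :=
      div_nonneg (Real.log_nonneg (by linarith)) (by linarith)
    have h5 : (E.card : ℝ) ≤ ℓ := by
      refine hE.trans ?_
      calc ℓ ^ (1 - ε) ≤ ℓ ^ (1 : ℝ) :=
            Real.rpow_le_rpow_of_exponent_le (by linarith) (by linarith)
        _ = ℓ := Real.rpow_one ℓ
    calc _ ≤ ℓ * (Real.log (Xi n ℓ i) / Xi n ℓ i) := by gcongr
      _ ≤ ε / 4 := h3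
      _ ≤ 1 := by linarith
  rw [g.log_Xi, g.log_Yi] at h1
  rw [g.log_Xi] at h2
  have h3 := g.c5 i hi
  rw [div_le_iff₀ (by positivity)] at h3
  have h4 : (n : ℝ) / i * Real.log ℓ - n / (i + 1) * Real.log ℓ =
      (n / (i * ((i : ℝ) + 1))) * Real.log ℓ := by
    field_simp
    ring
  unfold Si Wi
  linarith

theorem Good.Si_le (g : Good n m k ε ℓ) {i : ℕ} (hi : i ∈ Finset.Icc 1 m) :
    Si E n ℓ i ≤ n * Real.log ℓ + 2 := by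
  have hi1 := (Finset.mem_Icc.mp hi).1
  have hi0 : (1 : ℝ) ≤ i := by exact_mod_cast hi1
  have h1 : Si E n ℓ i ≤ mert ⌊Yi n ℓ i⌋₊ := by
    unfold Si Wi win mert
    refine Finset.sum_le_sum_of_subset_of_nonneg (Finset.filter_subset _ _) ?_
    intro p hp _
    have := (mem_prm.mp hp).1.one_lt
    exact div_nonneg (Real.log_nonneg (by exact_mod_cast this.le)) (by positivity)
  have hY := g.Yi_one i
  have hf : 1 ≤ ⌊Yi n ℓ i⌋₊ := Nat.le_floor (by simpa using hY)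
  have h2 := mert_upper hf
  have h3 : Real.log (⌊Yi n ℓ i⌋₊ : ℝ) ≤ Real.log (Yi n ℓ i) :=
    Real.log_le_log (by exact_mod_cast hf) (Nat.floor_le (by linarith))
  rw [g.log_Yi] at h3
  have h4 := log_four_lt
  have h5 : (n : ℝ) / i ≤ n := div_le_self (by positivity) hi0
  have h6 : (n : ℝ) / i * Real.log ℓ ≤ n * Real.log ℓ :=
    mul_le_mul_of_nonneg_right h5 (by linarith [g.e2])
  linarith

theorem Good.Si_pos (g : Good n m k ε ℓ) (hmn : m + 2 ≤ n) (hε0 : 0 < ε) (hε1 : ε < 1)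
    (hE : (E.card : ℝ) ≤ ℓ ^ (1 - ε)) {i : ℕ} (hi : i ∈ Finset.Icc 1 m) : 1 ≤ Si E n ℓ i := by
  have hi1 := (Finset.mem_Icc.mp hi).1
  have hi0 : (0 : ℝ) < i := by exact_mod_cast hi1
  have hn0 : (0 : ℝ) < n := by
    have : 0 < n := by omega
    exact_mod_cast this
  have h3 := g.c5 i hi
  rw [div_le_iff₀ (by positivity)] at h3
  have h16 := g.e1
  have hX := g.Xi_ge hmn hi
  have h1 := win_lower (E := E) (x := Xi n ℓ i) (y := Yi n ℓ i) (by linarith)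
    (g.Xi_le_Yi hi1) (by have := Real.exp_one_lt_d9; linarith)
  have h2 : (E.card : ℝ) * (Real.log (Xi n ℓ i) / Xi n ℓ i) ≤ ε / 4 := by
    have h3 := g.small hε0 hmn hi
    have h4 : 0 ≤ Real.log (Xi n ℓ i) / Xi n ℓ i :=
      div_nonneg (Real.log_nonneg (by linarith)) (by linarith)
    have h5 : (E.card : ℝ) ≤ ℓ := by
      refine hE.trans ?_
      calc ℓ ^ (1 - ε) ≤ ℓ ^ (1 : ℝ) :=
            Real.rpow_le_rpow_of_exponent_le (by linarith) (by linarith)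
        _ = ℓ := Real.rpow_one ℓ
    calc _ ≤ ℓ * (Real.log (Xi n ℓ i) / Xi n ℓ i) := by gcongr
      _ ≤ ε / 4 := h3
  rw [g.log_Xi, g.log_Yi] at h1
  rw [g.log_Xi] at h2
  have h4 : (n : ℝ) / i * Real.log ℓ - n / (i + 1) * Real.log ℓ =
      (n / (i * ((i : ℝ) + 1))) * Real.log ℓ := by
    field_simp
    ring
  have h5 : 0 < (n / (i * ((i : ℝ) + 1))) * Real.log ℓ := by
    have := g.e2
    positivity
  have h6 : 26 ≤ (n / (i * ((i : ℝ) + 1))) * Real.log ℓ := by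
    nlinarith
  unfold Si Wi
  linarith

end

end Pool.Agent.H.MP_3e6494_nt
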