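import Pool.Agent.H.MP_3e6494_nt.Gen3

/-!
# The general theorem, conditional on a bound for the relations (end)
-/

set_option autoImplicit false

open Complex Set Filter Topology

namespace Pool.Agent.H.MP_3e6494_nt

noncomputable section

variable {n m k : ℕ} {ε ℓ : ℝ} {E : Finset ℕ}

theorem sqrt_add_one_ge {a b : ℝ} (hab : a ≤ b + 1) (hb : 0 ≤ b) : √a - 1 ≤ √b := by
  have h1 : √a ≤ √b + 1 := by
    rw [Real.sqrt_le_left (by positivity)]
    nlinarith [Real.sqrt_nonneg b, Real.sq_sqrt hb]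
  linarith

theorem Good.term (g : Good n m k ε ℓ) (hm : 1 ≤ m) (hmn : m + 2 ≤ n) (hε0 : 0 < ε)
    (hε1 : ε < 1) {i : ℕ} (hi : i ∈ Finset.Icc 1 m) :
    Real.exp ((1 - ε) * √(nu n m ε i / ((i : ℝ) + 1)) * √(ℓ / Real.log ℓ) - (k + 3)) ≤
      (1 + xx n m ε ℓ i) ^ (wi n m ε ℓ i - k) / 2 := by
  set w : ℝ := ((wi n m ε ℓ i : ℕ) : ℝ) with hw
  set x := xx n m ε ℓ i with hx
  have hl : 0 < ℓ := by linarith [g.e1]
  have hL : 0 < Real.log ℓ := by linarith [g.e2]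
  have hge := g.wi_ge hm hmn hε0 hε1 hi
  have hkw : k + 1 ≤ wi n m ε ℓ i := by
    have h2 := g.c2
    have h3 : ((k + 1 : ℕ) : ℝ) ≤ wi n m ε ℓ i := by push_cast; linarith
    exact_mod_cast h3
  have hw1 : 1 ≤ w := by linarith [g.c3']
  have hi0 : (0 : ℝ) < (i : ℝ) + 1 := by positivity
  have hnu := nu_pos hm hmn hε1 hi
  have hx0 : 0 ≤ x := Real.sqrt_nonneg _
  have hx2 : x ^ 2 = (1 - ε) / ((1 + ε) * ((i : ℝ) + 1) * w) := by
    rw [hx]
    unfold xx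
    rw [Real.sq_sqrt]
    exact div_nonneg (by linarith) (by positivity)
  have hwx2 : w * x ^ 2 ≤ 1 := by
    rw [hx2, mul_div_assoc', div_le_one (by positivity)]
    have h1 : (1 : ℝ) ≤ (i : ℝ) + 1 := by
      have : (0 : ℝ) ≤ i := by positivity
      linarith
    calc w * (1 - ε) ≤ w * ((1 + ε) * 1) := by
          gcongr
          linarith
      _ ≤ w * ((1 + ε) * ((i : ℝ) + 1)) := by gcongr
      _ = _ := by ring
  have hx1 : x ≤ 1 := by
    have : x ^ 2 ≤ 1 := by nlinarith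
    nlinarith
  -- lower bound for `w x`
  have hwx : (1 - ε) * √(nu n m ε i / ((i : ℝ) + 1)) * √(ℓ / Real.log ℓ) - 1 ≤ w * x := by
    have h1 : w * x = √((1 - ε) / (1 + ε)) * √(w / ((i : ℝ) + 1)) := by
      rw [← Real.sqrt_mul (div_nonneg (by linarith) (by linarith)), hx]
      unfold xx
      rw [← hw]
      have h2 : w * √((1 - ε) / ((1 + ε) * ((i : ℝ) + 1) * w)) =
          √(w ^ 2 * ((1 - ε) / ((1 + ε) * ((i : ℝ) + 1) * w))) := by
        rw [Real.sqrt_mul (sq_nonneg w), Real.sqrt_sq (by linarith)]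
      rw [h2]
      congr 1
      have h3 : (1 + ε) ≠ 0 := by linarith
      have hw0 : w ≠ 0 := by linarith
      field_simp
    have h2 : 1 - ε ≤ √((1 - ε) / (1 + ε)) := by
      refine Real.le_sqrt_of_sq_le ?_
      rw [le_div_iff₀ (by linarith)]
      nlinarith [sq_nonneg ε, mul_pos hε0 hε0, mul_nonneg (mul_pos hε0 hε0).le
        (by linarith : 0 ≤ 1 - ε)]
    have h3 : √(nu n m ε i / ((i : ℝ) + 1)) * √(ℓ / Real.log ℓ) - 1 ≤ √(w / ((i : ℝ) + 1)) := by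
      rw [← Real.sqrt_mul (by positivity)]
      refine sqrt_add_one_ge ?_ (by positivity)
      have h4 := Good.wi_gt n m ε ℓ i
      rw [← hw] at h4
      have h5 : nu n m ε i / ((i : ℝ) + 1) * (ℓ / Real.log ℓ) =
          (nu n m ε i * ℓ / Real.log ℓ) / ((i : ℝ) + 1) := by
        field_simp
      rw [h5, div_add' _ _ _ hi0.ne']
      refine div_le_div_of_nonneg_right ?_ hi0.le
      have : (0 : ℝ) ≤ i := by positivity
      linarith
    rw [h1]
    have h4 := Real.sqrt_nonneg (w / ((i : ℝ) + 1))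
    calc (1 - ε) * √(nu n m ε i / ((i : ℝ) + 1)) * √(ℓ / Real.log ℓ) - 1
        ≤ (1 - ε) * (√(nu n m ε i / ((i : ℝ) + 1)) * √(ℓ / Real.log ℓ) - 1) := by
          nlinarith
      _ ≤ (1 - ε) * √(w / ((i : ℝ) + 1)) := by
          have : 0 ≤ 1 - ε := by linarith
          gcongr
      _ ≤ _ := by gcongr
  -- exponential lower bound
  have hlog : x - x ^ 2 ≤ Real.log (1 + x) := by
    have h1 := Real.one_sub_inv_le_log_of_pos (x := 1 + x) (by linarith)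
    have h2 : x - x ^ 2 ≤ 1 - (1 + x)⁻¹ := by
      have h3 : (1 + x)⁻¹ ≤ 1 - x + x ^ 2 := by
        rw [inv_le_iff_one_le_mul₀ (by linarith)]
        nlinarith [pow_nonneg hx0 3]
      linarith
    linarith
  have hcast : ((wi n m ε ℓ i - k : ℕ) : ℝ) = w - k := by
    rw [Nat.cast_sub (by omega)]
  have hpow : (1 + x) ^ (wi n m ε ℓ i - k) = Real.exp ((w - k) * Real.log (1 + x)) := by
    rw [← hcast, Real.exp_nat_mul, Real.exp_log (by linarith)]
  have hhalf : Real.exp (-1) ≤ 1 / 2 := by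
    rw [Real.exp_neg, ← one_div]
    have := Real.exp_one_gt_d9
    exact one_div_le_one_div_of_le (by norm_num) (by linarith)
  rw [hpow]
  refine le_trans ?_ (le_of_eq (div_eq_mul_one_div _ _).symm)
  refine le_trans ?_ (mul_le_mul_of_nonneg_left hhalf (Real.exp_pos _).le)
  rw [← Real.exp_add, Real.exp_le_exp]
  have hwk : 0 ≤ w - k := by
    have : ((k : ℕ) : ℝ) ≤ w := by
      rw [hw]
      exact_mod_cast (by omega : k ≤ wi n m ε ℓ i)
    linarith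
  have h5 : (w - k) * (x - x ^ 2) ≤ (w - k) * Real.log (1 + x) :=
    mul_le_mul_of_nonneg_left hlog hwk
  have hk0 : (0 : ℝ) ≤ k := by positivity
  nlinarith [mul_nonneg hk0 (sq_nonneg x), mul_le_mul_of_nonneg_left hx1 hk0]

theorem Good.final (g : Good n m k ε ℓ) (hm : 1 ≤ m) (hmn : m + 2 ≤ n) (hε0 : 0 < ε)
    (hε1 : ε < 1) (hE : (E.card : ℝ) ≤ ℓ ^ (1 - ε)) (hEp : ∀ p ∈ E, p.Prime) {Λ : ℝ}
    (hΛ0 : 0 ≤ Λ)
    (h : ∏ i ∈ Finset.Icc 1 m, ((1 + xx n m ε ℓ i) ^ (wi n m ε ℓ i - k) / 2) ≤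
      2 * (Λ * ∏ p ∈ E, (1 + (√(p : ℝ))⁻¹))) :
    Real.exp (((1 - ε) ^ 2 * √(ZZ n m) - ε) * √(ℓ / Real.log ℓ)) ≤ Λ := by
  have hl : 0 < ℓ := by linarith [g.e1]
  have hL : 0 < Real.log ℓ := by linarith [g.e2]
  set V := √(ℓ / Real.log ℓ) with hV
  have hV0 : 0 ≤ V := Real.sqrt_nonneg _
  have h1 : Real.exp ((1 - ε) * (√(1 - ε) * √(ZZ n m)) * V - m * (k + 3)) ≤
      ∏ i ∈ Finset.Icc 1 m, ((1 + xx n m ε ℓ i) ^ (wi n m ε ℓ i - k) / 2) := by
    have h2 : (1 - ε) * (√(1 - ε) * √(ZZ n m)) * V - m * (k + 3) =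
        ∑ i ∈ Finset.Icc 1 m,
          ((1 - ε) * √(nu n m ε i / ((i : ℝ) + 1)) * V - (k + 3)) := by
      rw [Finset.sum_sub_distrib, ← Finset.sum_mul, ← Finset.mul_sum, nu_sqrt_sum hm hmn hε1,
        Finset.sum_const, nsmul_eq_mul]
      simp
    rw [h2, Real.exp_sum]
    exact Finset.prod_le_prod (fun i _ => (Real.exp_pos _).le)
      fun i hi => g.term hm hmn hε0 hε1 hi
  have h2 := prod_E_le E fun p hp => (hEp p hp).pos
  have h3 : Real.exp ((1 - ε) * (√(1 - ε) * √(ZZ n m)) * V - m * (k + 3)) ≤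
      Real.exp 1 * (Λ * Real.exp (3 * √(E.card : ℝ))) := by
    refine h1.trans (h.trans ?_)
    have he := Real.exp_one_gt_d9
    gcongr
    linarith
  have h4 : Real.exp ((1 - ε) * (√(1 - ε) * √(ZZ n m)) * V - m * (k + 3) - 1 -
      3 * √(E.card : ℝ)) ≤ Λ := by
    rw [Real.exp_sub _ (3 * √(E.card : ℝ)), Real.exp_sub _ 1, div_div, div_le_iff₀ (by positivity)]
    linarith
  refine le_trans (Real.exp_le_exp.mpr ?_) h4
  -- compare the exponents
  have hsq : (1 - ε) ≤ √(1 - ε) := by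
    refine Real.le_sqrt_of_sq_le ?_
    nlinarith
  have hZ := Real.sqrt_nonneg (ZZ n m)
  have h5 : (1 - ε) ^ 2 * √(ZZ n m) * V ≤ (1 - ε) * (√(1 - ε) * √(ZZ n m)) * V := by
    have h6 : 0 ≤ √(ZZ n m) * V := by positivity
    have h7 : (1 - ε) ^ 2 ≤ (1 - ε) * √(1 - ε) := by
      rw [sq]
      exact mul_le_mul_of_nonneg_left hsq (by linarith)
    nlinarith [mul_le_mul_of_nonneg_right h7 h6]
  -- the error terms
  have h8 : 3 * √(E.card : ℝ) ≤ ε / 2 * V := by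
    have h9 : √(E.card : ℝ) ≤ ε / 6 * V := by
      rw [Real.sqrt_le_left (by positivity), mul_pow, hV, Real.sq_sqrt (by positivity)]
      refine hE.trans ?_
      rw [← mul_div_assoc, le_div_iff₀ hL]
      calc ℓ ^ (1 - ε) * Real.log ℓ ≤ ℓ ^ (1 - ε) * (ε ^ 2 / 36 * ℓ ^ ε) := by
            gcongr
            exact g.c10
        _ = (ε / 6) ^ 2 * (ℓ ^ (1 - ε) * ℓ ^ ε) := by ring
        _ = (ε / 6) ^ 2 * ℓ := by
            rw [← Real.rpow_add hl]
            norm_num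
    linarith
  have h10 : (m : ℝ) * (k + 3) + 1 ≤ ε / 2 * V := by
    have hm0 : (0 : ℝ) ≤ m := by positivity
    have hk0 : (0 : ℝ) ≤ k := by positivity
    set M : ℝ := m * (k + 3) + m + 1 with hM
    have hM0 : 0 < M := by positivity
    have h11 : 2 * M / ε ≤ V := by
      rw [hV]
      refine Real.le_sqrt_of_sq_le ?_
      rw [le_div_iff₀ hL]
      have h12 := g.c10'
      rw [Real.rpow_one] at h12
      calc (2 * M / ε) ^ 2 * Real.log ℓ ≤ (2 * M / ε) ^ 2 * ((ε / (2 * M)) ^ 2 * ℓ) := by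
            gcongr
        _ = ℓ := by
            field_simp
    have h13 : M ≤ ε / 2 * V := by
      rw [div_le_iff₀ hε0] at h11
      linarith
    linarith
  nlinarith

/-- the admissible bound for the relations -/
def RelBound (q : ℕ) [Fact q.Prime] (K : Subgroup (ZMod q)ˣ) (E : Finset ℕ) (n m : ℕ) : Prop :=
  ∀ (P : Finset ℕ) (r : ℕ → ℝ) (N C0 : ℕ), (∀ p, 0 ≤ r p) →
    (∀ p ∈ P, p.Prime ∧ p ∉ E ∧ Real.log q ^ ((n : ℝ) / (m + 1)) < p ∧
      (p : ℝ) ≤ Real.log q ^ (n : ℝ) ∧ r p ^ 2 ≤ Real.log q / p) →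
    C0 * N * N < q → ∑ X ∈ RR K P E N C0, WW P r X.1 X.2 ≤ 1 / 8

/-- **The general theorem.** -/
theorem gen {n m : ℕ} (hm : 1 ≤ m) (hmn : m + 2 ≤ n) {ε : ℝ} (hε0 : 0 < ε) (hε1 : ε < 1) :
    ∃ q₀ : ℕ, ∀ (q : ℕ) [Fact q.Prime], q₀ ≤ q → ∀ (H : Subgroup (DirichletCharacter ℂ q))
      (χ₀ : DirichletCharacter ℂ q) (E : Finset ℕ), (∀ p ∈ E, p.Prime ∧ p < q) →
      (E.card : ℝ) ≤ Real.log q ^ (1 - ε) → Real.log H.index ≤ Real.log q ^ (1 - ε) →
      RelBound q (KK H) E n m →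
      ∃ ψ ∈ H, Real.exp (((1 - ε) ^ 2 * √(ZZ n m) - ε) *
        √(Real.log q / Real.log (Real.log q))) ≤ ‖(χ₀ * ψ).LFunction (1 / 2)‖ := by
  -- choice of `k`
  obtain ⟨k, hk⟩ : ∃ k : ℕ, 1 ≤ ε / 2 * (1 + ε / 2) ^ k := by
    obtain ⟨k, hk⟩ := pow_unbounded_of_one_lt (2 / ε) (by linarith : 1 < 1 + ε / 2)
    refine ⟨k, ?_⟩
    rw [div_lt_iff₀ hε0] at hk
    linarith
  have hev := eventually_good k hm hmn hε0 hε1
  have hlog : Tendsto (fun q : ℕ => Real.log (q : ℝ)) atTop atTop :=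
    Real.tendsto_log_atTop.comp tendsto_natCast_atTop_atTop
  obtain ⟨q₀, hq₀⟩ := Filter.eventually_atTop.mp (hlog.eventually hev)
  refine ⟨q₀, ?_⟩
  intro q hq hqq H χ₀ E hE hEc hd hrel
  have g : Good n m k ε (Real.log q) := hq₀ q hqq
  set ℓ := Real.log q with hℓ
  -- the maximum over the coset
  obtain ⟨ψ, hψ⟩ := Finite.exists_max (fun ψ : H => ‖(χ₀ * ψ.1).LFunction (1 / 2)‖)
  refine ⟨ψ.1, ψ.2, ?_⟩
  set Λ := ‖(χ₀ * ψ.1).LFunction (1 / 2)‖ with hΛ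
  have hsys := g.sys hm hmn hε0 hε1 hk hEc
  have hidx : 0 < H.index := Nat.pos_of_ne_zero Subgroup.index_ne_zero_of_finite
  have hq0 : 0 < q := hq.out.pos
  have hsize := g.size (E := E) hm hmn hε0 hε1 hEc hidx hd hℓ.symm hq0 rfl rfl
  refine g.final (E := E) hm hmn hε0 hε1 hEc (fun p hp => (hE p hp).1) (norm_nonneg _) ?_
  refine hsys.core H χ₀ hE rfl rfl hsize ?_ (norm_nonneg _) (fun φ hφ => hψ ⟨φ, hφ⟩)
  refine hrel _ _ _ _ (fun p => rr_nonneg p) ?_ hsize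
  intro p hp
  obtain ⟨i, hi, hpi⟩ := Finset.mem_biUnion.mp hp
  have hp' := (g.mem_Wi).mp hpi
  have hi' := Finset.mem_Icc.mp hi
  have h1 : (1 : ℝ) ≤ i := by exact_mod_cast hi'.1
  have h2 : (i : ℝ) ≤ m := by exact_mod_cast hi'.2
  refine ⟨hp'.1, hp'.2.2.2, ?_, ?_, g.rr_sq_le hm hmn hε0 hε1 hEc hi hpi⟩
  · refine lt_of_le_of_lt ?_ hp'.2.1
    unfold Xi
    refine Real.rpow_le_rpow_of_exponent_le (by linarith [g.e1]) ?_
    gcongr
  · refine hp'.2.2.1.trans ?_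
    unfold Yi
    refine Real.rpow_le_rpow_of_exponent_le (by linarith [g.e1]) ?_
    exact div_le_self (by positivity) h1

end

end Pool.Agent.H.MP_3e6494_nt
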