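import Mathlib

/-!
# The central value of a Dirichlet `L`-function as a finite character sum

For a Dirichlet character `χ` modulo `q` we have
`L(χ, 1/2) = ∑_{c} χ(c) V(c)` with `V(c) = q^{-1/2} ζ(1/2, c/q)` and
`|V(c) - c^{-1/2}| ≤ 4 q^{-1/2}` for `1 ≤ c ≤ q - 1`.
-/

set_option autoImplicit false

open Complex Set Filter Topology HurwitzZeta

namespace Pool.Agent.H.MP_3e6494_nt

noncomputable section

/-- Euler-Maclaurin remainder on `[y, y+1]` -/
def vv (y : ℝ) (s : ℂ) : ℂ :=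
  (y : ℂ) ^ (-s) - (((y + 1 : ℝ) : ℂ) ^ (1 - s) - (y : ℂ) ^ (1 - s)) / (1 - s)

theorem vv_eq_integral {y : ℝ} (hy : 0 < y) {s : ℂ} (hs : s ≠ 1) :
    vv y s = ∫ t in y..(y + 1), ((y : ℂ) ^ (-s) - (t : ℂ) ^ (-s)) := by
  have h0 : (0 : ℝ) ∉ uIcc y (y + 1) := by
    rw [uIcc_of_le (by linarith)]
    intro h
    exact absurd h.1 (not_le.mpr hy)
  have hint : IntervalIntegrable (fun t : ℝ => (t : ℂ) ^ (-s)) MeasureTheory.volume y (y + 1) :=
    intervalIntegral.intervalIntegrable_cpow (Or.inr h0)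
  have h1 : -s ≠ -1 := by
    intro h
    apply hs
    simpa using h
  rw [intervalIntegral.integral_sub intervalIntegrable_const hint,
    integral_cpow (Or.inr ⟨h1, h0⟩), intervalIntegral.integral_const]
  unfold vv
  have h2 : (-s + 1 : ℂ) = 1 - s := by ring
  rw [h2]
  simp

theorem norm_vv_le {y : ℝ} (hy : 0 < y) {s : ℂ} (hs : s ≠ 1) (hσ : 0 < s.re) :
    ‖vv y s‖ ≤ ‖s‖ * y ^ (-s.re - 1) := by
  rw [vv_eq_integral hy hs]
  have hb : ∀ t ∈ Set.uIoc y (y + 1), ‖(y : ℂ) ^ (-s) - (t : ℂ) ^ (-s)‖ ≤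
      ‖s‖ * y ^ (-s.re - 1) := by
    intro t ht
    rw [uIoc_of_le (by linarith)] at ht
    have hd : ∀ x ∈ Icc y (y + 1),
        HasDerivWithinAt (fun u : ℝ => (u : ℂ) ^ (-s)) (-s * (x : ℂ) ^ (-s - 1))
          (Icc y (y + 1)) x := by
      intro x hx
      have hx0 : 0 < x := lt_of_lt_of_le hy hx.1
      have hsne : (-s : ℂ) ≠ 0 := by
        intro h
        have hs0 : s = 0 := by simpa using h
        rw [hs0] at hσ
        simp at hσ
      have h4 : HasDerivAt (fun u : ℝ => (u : ℂ) ^ (-s)) (-s * (x : ℂ) ^ (-s - 1)) x :=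
        hasDerivAt_ofReal_cpow_const hx0.ne' hsne
      exact h4.hasDerivWithinAt
    have hbd : ∀ x ∈ Ico y (y + 1), ‖-s * (x : ℂ) ^ (-s - 1)‖ ≤ ‖s‖ * y ^ (-s.re - 1) := by
      intro x hx
      have hx0 : 0 < x := lt_of_lt_of_le hy hx.1
      rw [norm_mul, norm_neg, Complex.norm_cpow_eq_rpow_re_of_pos hx0]
      have h7 : (-s - 1 : ℂ).re = -s.re - 1 := by simp
      rw [h7]
      refine mul_le_mul_of_nonneg_left ?_ (norm_nonneg _)
      exact Real.rpow_le_rpow_of_nonpos hy hx.1 (by linarith)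
    have h8 := norm_image_sub_le_of_norm_deriv_le_segment' hd hbd t ⟨ht.1.le, ht.2⟩
    rw [norm_sub_rev]
    refine h8.trans ?_
    have h9 : 0 ≤ ‖s‖ * y ^ (-s.re - 1) := by positivity
    nlinarith [ht.1, ht.2]
  have := intervalIntegral.norm_integral_le_of_norm_le_const hb
  simpa using this

/-- telescoping -/
theorem sum_vv {x : ℝ} (s : ℂ) (N : ℕ) :
    ∑ n ∈ Finset.range N, vv (n + 1 + x) s =
      ∑ n ∈ Finset.range N, ((n + 1 + x : ℝ) : ℂ) ^ (-s) -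
        (((N + 1 + x : ℝ) : ℂ) ^ (1 - s) - ((1 + x : ℝ) : ℂ) ^ (1 - s)) / (1 - s) := by
  induction N with
  | zero => simp
  | succ N ih =>
    rw [Finset.sum_range_succ, ih, Finset.sum_range_succ]
    unfold vv
    push_cast
    have : (N : ℂ) + 1 + x + 1 = (N : ℂ) + 1 + 1 + x := by ring
    rw [this]
    ring

/-- the slit box -/
def UU : Set ℂ := {s : ℂ | 1 / 4 < s.re ∧ s.re < 3 ∧ -2 < s.im ∧ s.im < 2} \
  {s : ℂ | s.im = 0 ∧ 1 ≤ s.re}

theorem isOpen_UU : IsOpen UU := by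
  refine IsOpen.sdiff ?_ ?_
  · refine IsOpen.inter (isOpen_lt continuous_const continuous_re) ?_
    refine IsOpen.inter (isOpen_lt continuous_re continuous_const) ?_
    exact IsOpen.inter (isOpen_lt continuous_const continuous_im)
      (isOpen_lt continuous_im continuous_const)
  · exact IsClosed.inter (isClosed_eq continuous_im continuous_const)
      (isClosed_le continuous_const continuous_re)

theorem half_mem_UU : (1 / 2 : ℂ) ∈ UU := by
  refine ⟨⟨?_, ?_, ?_, ?_⟩, ?_⟩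
  · norm_num
  · norm_num
  · norm_num
  · norm_num
  · intro h
    have := h.2
    norm_num at this

theorem starConvex_UU : StarConvex ℝ (1 / 2 : ℂ) UU := by
  intro z hz a b ha hb hab
  obtain ⟨⟨h1, h2, h3, h4⟩, h5⟩ := hz
  have hre : (a • (1 / 2 : ℂ) + b • z).re = a * (1 / 2) + b * z.re := by
    simp
  have him : (a • (1 / 2 : ℂ) + b • z).im = b * z.im := by
    simp
  refine ⟨⟨?_, ?_, ?_, ?_⟩, ?_⟩
  · rw [hre]; nlinarith
  · rw [hre]; nlinarith
  · rw [him]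
    have : b ≤ 1 := by linarith
    by_cases hzi : 0 ≤ z.im
    · have : 0 ≤ b * z.im := mul_nonneg hb hzi
      linarith
    · push Not at hzi
      nlinarith
  · rw [him]
    have : b ≤ 1 := by linarith
    by_cases hzi : 0 ≤ z.im
    · nlinarith
    · push Not at hzi
      have : b * z.im ≤ 0 := mul_nonpos_of_nonneg_of_nonpos hb hzi.le
      linarith
  · rintro ⟨h6, h7⟩
    rw [him] at h6
    rw [hre] at h7
    rcases mul_eq_zero.mp h6 with h | h
    · rw [h] at h7 hab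
      have : a = 1 := by linarith
      rw [this] at h7
      norm_num at h7
    · apply h5
      refine ⟨h, ?_⟩
      by_contra hcon
      push Not at hcon
      have hb1 : b ≤ 1 := by linarith
      nlinarith

theorem ne_one_of_mem_UU {s : ℂ} (hs : s ∈ UU) : s ≠ 1 := by
  rintro rfl
  exact hs.2 ⟨by simp, by simp⟩

theorem preconnected_UU : IsPreconnected UU :=
  (starConvex_UU.isPathConnected half_mem_UU).isConnected.isPreconnected

/-- the Euler-Maclaurin form of the Hurwitz zeta function -/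
def GG (x : ℝ) (s : ℂ) : ℂ :=
  (x : ℂ) ^ (-s) + ∑' n : ℕ, vv (n + 1 + x) s + ((1 + x : ℝ) : ℂ) ^ (1 - s) / (s - 1)

theorem summable_aux : Summable fun n : ℕ => 4 * ((n + 1 : ℕ) : ℝ) ^ (-(5 / 4) : ℝ) := by
  refine Summable.mul_left _ ?_
  have h := (Real.summable_nat_rpow (p := -(5 / 4))).mpr (by norm_num)
  exact (summable_nat_add_iff 1).mpr h

theorem norm_le_four {s : ℂ} (hs : s ∈ UU) : ‖s‖ ≤ 5 := by
  have h := Complex.norm_le_abs_re_add_abs_im s
  have h1 : |s.re| < 3 := abs_lt.mpr ⟨by linarith [hs.1.1], hs.1.2.1⟩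
  have h2 : |s.im| < 2 := abs_lt.mpr ⟨hs.1.2.2.1, hs.1.2.2.2⟩
  linarith

theorem vv_bound {x : ℝ} (hx : 0 ≤ x) {s : ℂ} (hs : s ∈ UU) (n : ℕ) :
    ‖vv (n + 1 + x) s‖ ≤ 5 * ((n + 1 : ℕ) : ℝ) ^ (-(5 / 4) : ℝ) := by
  have hy : 0 < (n : ℝ) + 1 + x := by positivity
  have hσ : 1 / 4 < s.re := hs.1.1
  refine (norm_vv_le hy (ne_one_of_mem_UU hs) (by linarith)).trans ?_
  have h1 : ((n : ℝ) + 1 + x) ^ (-s.re - 1) ≤ ((n + 1 : ℕ) : ℝ) ^ (-(5 / 4) : ℝ) := by
    push_cast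
    calc ((n : ℝ) + 1 + x) ^ (-s.re - 1) ≤ ((n : ℝ) + 1) ^ (-s.re - 1) :=
          Real.rpow_le_rpow_of_nonpos (by positivity) (by linarith) (by linarith)
      _ ≤ ((n : ℝ) + 1) ^ (-(5 / 4) : ℝ) := by
          refine Real.rpow_le_rpow_of_exponent_le ?_ (by linarith)
          have : (0 : ℝ) ≤ n := Nat.cast_nonneg n
          linarith
  exact mul_le_mul (norm_le_four hs) h1 (by positivity) (by norm_num)

theorem summable_bound : Summable fun n : ℕ => 5 * ((n + 1 : ℕ) : ℝ) ^ (-(5 / 4) : ℝ) := by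
  refine Summable.mul_left _ ?_
  have h := (Real.summable_nat_rpow (p := -(5 / 4))).mpr (by norm_num)
  exact (summable_nat_add_iff 1).mpr h

theorem differentiableOn_vv {y : ℝ} (hy : 0 < y) : DifferentiableOn ℂ (vv y) UU := by
  intro s hs
  refine DifferentiableAt.differentiableWithinAt ?_
  have hy' : (y : ℂ) ≠ 0 := by exact_mod_cast hy.ne'
  have hy1 : ((y + 1 : ℝ) : ℂ) ≠ 0 := by
    have : (y + 1 : ℝ) ≠ 0 := by linarith
    exact_mod_cast this
  have h1 : (1 - s : ℂ) ≠ 0 := by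
    intro h
    exact ne_one_of_mem_UU hs (by linear_combination -h)
  unfold vv
  have d1 : DifferentiableAt ℂ (fun s : ℂ => (y : ℂ) ^ (-s)) s :=
    DifferentiableAt.const_cpow differentiableAt_id.neg (Or.inl hy')
  have d2 : DifferentiableAt ℂ (fun s : ℂ => ((y + 1 : ℝ) : ℂ) ^ (1 - s)) s :=
    DifferentiableAt.const_cpow (differentiableAt_id.const_sub 1) (Or.inl hy1)
  have d3 : DifferentiableAt ℂ (fun s : ℂ => (y : ℂ) ^ (1 - s)) s :=
    DifferentiableAt.const_cpow (differentiableAt_id.const_sub 1) (Or.inl hy')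
  exact d1.sub ((d2.sub d3).div (differentiableAt_id.const_sub 1) h1)

theorem differentiableOn_GG {x : ℝ} (hx : 0 < x) : DifferentiableOn ℂ (GG x) UU := by
  have hx' : (x : ℂ) ≠ 0 := by exact_mod_cast hx.ne'
  have hx1 : ((1 + x : ℝ) : ℂ) ≠ 0 := by
    have : (1 + x : ℝ) ≠ 0 := by linarith
    exact_mod_cast this
  have d1 : DifferentiableOn ℂ (fun s : ℂ => (x : ℂ) ^ (-s)) UU := fun s _ =>
    (DifferentiableAt.const_cpow differentiableAt_id.neg (Or.inl hx')).differentiableWithinAt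
  have d2 : DifferentiableOn ℂ (fun s => ∑' n : ℕ, vv (n + 1 + x) s) UU :=
    differentiableOn_tsum_of_summable_norm summable_bound
      (fun n => differentiableOn_vv (by positivity)) isOpen_UU
      (fun n s hs => vv_bound hx.le hs n)
  have d3 : DifferentiableOn ℂ (fun s : ℂ => ((1 + x : ℝ) : ℂ) ^ (1 - s) / (s - 1)) UU := by
    intro s hs
    have h1 : (s - 1 : ℂ) ≠ 0 := by
      intro h
      exact ne_one_of_mem_UU hs (by linear_combination h)
    exact ((DifferentiableAt.const_cpow (differentiableAt_id.const_sub 1) (Or.inl hx1)).div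
      (differentiableAt_id.sub_const 1) h1).differentiableWithinAt
  exact (d1.add d2).add d3

theorem tendsto_cpow_zero {x : ℝ} (hx : 0 ≤ x) {s : ℂ} (hs : 1 < s.re) :
    Tendsto (fun N : ℕ => ((N + 1 + x : ℝ) : ℂ) ^ (1 - s)) atTop (𝓝 0) := by
  rw [tendsto_zero_iff_norm_tendsto_zero]
  have h1 : ∀ N : ℕ, ‖((N + 1 + x : ℝ) : ℂ) ^ (1 - s)‖ = (N + 1 + x : ℝ) ^ (-(s.re - 1)) := by
    intro N
    have hy : 0 < (N : ℝ) + 1 + x := by positivity
    rw [Complex.norm_cpow_eq_rpow_re_of_pos hy]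
    congr 1
    simp
  simp_rw [h1]
  have h2 : Tendsto (fun N : ℕ => (N : ℝ) + 1 + x) atTop atTop := by
    refine tendsto_atTop_mono (fun N => ?_) tendsto_natCast_atTop_atTop
    show (N : ℝ) ≤ N + 1 + x
    linarith
  exact (tendsto_rpow_neg_atTop (by linarith : (0 : ℝ) < s.re - 1)).comp h2

theorem GG_eq_of_one_lt {x : ℝ} (hx : 0 < x) (hx1 : x ≤ 1) {s : ℂ} (hs : 1 < s.re)
    (hsU : s ∈ UU) : hurwitzZeta (x : UnitAddCircle) s = GG x s := by
  have h1 := hasSum_hurwitzZeta_of_one_lt_re (a := x) ⟨hx.le, hx1⟩ hs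
  have hsum : Summable fun n : ℕ => vv (n + 1 + x) s :=
    Summable.of_norm_bounded summable_bound (fun n => vv_bound hx.le hsU n)
  have h2 := hsum.hasSum.tendsto_sum_nat
  -- partial sums
  have h3 : Tendsto (fun N : ℕ => ∑ n ∈ Finset.range (N + 1), 1 / ((n : ℂ) + x) ^ s) atTop
      (𝓝 (hurwitzZeta (x : UnitAddCircle) s)) :=
    h1.tendsto_sum_nat.comp (tendsto_add_atTop_nat 1)
  have h4 : ∀ N : ℕ, ∑ n ∈ Finset.range (N + 1), 1 / ((n : ℂ) + x) ^ s =
      (x : ℂ) ^ (-s) + ∑ n ∈ Finset.range N, vv (n + 1 + x) s +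
        (((N + 1 + x : ℝ) : ℂ) ^ (1 - s) - ((1 + x : ℝ) : ℂ) ^ (1 - s)) / (1 - s) := by
    intro N
    rw [sum_vv, Finset.sum_range_succ']
    have h5 : ∀ n : ℕ, 1 / (((n + 1 : ℕ) : ℂ) + x) ^ s = ((n + 1 + x : ℝ) : ℂ) ^ (-s) := by
      intro n
      rw [Complex.cpow_neg, one_div]
      push_cast
      rfl
    simp_rw [h5]
    have h6 : 1 / (((0 : ℕ) : ℂ) + x) ^ s = (x : ℂ) ^ (-s) := by
      rw [Complex.cpow_neg, one_div]
      simp
    rw [h6]
    ring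
  simp_rw [h4] at h3
  have h7 : Tendsto (fun N : ℕ => (x : ℂ) ^ (-s) + ∑ n ∈ Finset.range N, vv (n + 1 + x) s +
        (((N + 1 + x : ℝ) : ℂ) ^ (1 - s) - ((1 + x : ℝ) : ℂ) ^ (1 - s)) / (1 - s)) atTop
      (𝓝 ((x : ℂ) ^ (-s) + ∑' n : ℕ, vv (n + 1 + x) s +
        (0 - ((1 + x : ℝ) : ℂ) ^ (1 - s)) / (1 - s))) :=
    (tendsto_const_nhds.add h2).add
      (((tendsto_cpow_zero hx.le hs).sub tendsto_const_nhds).div_const _)
  rw [tendsto_nhds_unique h3 h7]
  unfold GG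
  have h8 : (s - 1 : ℂ) ≠ 0 := by
    intro h
    exact ne_one_of_mem_UU hsU (by linear_combination h)
  have h9 : (1 - s : ℂ) ≠ 0 := by
    intro h
    exact ne_one_of_mem_UU hsU (by linear_combination -h)
  congr 1
  field_simp
  ring

theorem hurwitz_eq_GG {x : ℝ} (hx : 0 < x) (hx1 : x ≤ 1) {s : ℂ} (hsU : s ∈ UU) :
    hurwitzZeta (x : UnitAddCircle) s = GG x s := by
  have h1 : AnalyticOnNhd ℂ (fun s => hurwitzZeta (x : UnitAddCircle) s) UU :=
    DifferentiableOn.analyticOnNhd (fun z hz =>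
      (differentiableAt_hurwitzZeta _ (ne_one_of_mem_UU hz)).differentiableWithinAt) isOpen_UU
  have h2 : AnalyticOnNhd ℂ (GG x) UU := (differentiableOn_GG hx).analyticOnNhd isOpen_UU
  have h0 : (2 + I : ℂ) ∈ UU := by
    refine ⟨⟨?_, ?_, ?_, ?_⟩, ?_⟩
    · norm_num
    · norm_num
    · norm_num
    · norm_num
    · intro h
      have := h.1
      norm_num at this
  have h3 : (fun s => hurwitzZeta (x : UnitAddCircle) s) =ᶠ[𝓝 (2 + I : ℂ)] GG x := by
    have hop : IsOpen (UU ∩ {s : ℂ | 1 < s.re}) :=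
      isOpen_UU.inter (isOpen_lt continuous_const continuous_re)
    have hmem : (2 + I : ℂ) ∈ UU ∩ {s : ℂ | 1 < s.re} := by
      refine ⟨h0, ?_⟩
      show (1 : ℝ) < (2 + I : ℂ).re
      norm_num
    filter_upwards [hop.mem_nhds hmem] with z hz
    exact GG_eq_of_one_lt hx hx1 hz.2 hz.1
  exact h1.eqOn_of_preconnected_of_eventuallyEq h2 preconnected_UU h0 h3 hsU

theorem half_cpow {y : ℝ} (hy : 0 ≤ y) : (y : ℂ) ^ (1 / 2 : ℂ) = ((√y : ℝ) : ℂ) := by
  rw [Real.sqrt_eq_rpow, Complex.ofReal_cpow hy]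
  norm_num

theorem half_cpow' {y : ℝ} (hy : 0 ≤ y) : (y : ℂ) ^ (-(1 / 2) : ℂ) = (((√y)⁻¹ : ℝ) : ℂ) := by
  rw [Complex.cpow_neg, half_cpow hy]
  push_cast
  rfl

theorem vv_half {y : ℝ} (hy : 0 < y) :
    vv y (1 / 2) = (((√y)⁻¹ - 2 * (√(y + 1) - √y) : ℝ) : ℂ) := by
  unfold vv
  have h1 : (1 - 1 / 2 : ℂ) = 1 / 2 := by norm_num
  rw [h1, half_cpow (by linarith), half_cpow hy.le, half_cpow' hy.le]
  push_cast
  ring

theorem sqrt_bounds {y : ℝ} (hy : 0 < y) :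
    0 ≤ (√y)⁻¹ - 2 * (√(y + 1) - √y) ∧
      (√y)⁻¹ - 2 * (√(y + 1) - √y) ≤ (√y)⁻¹ - (√(y + 1))⁻¹ := by
  have h1 : 0 < √y := Real.sqrt_pos.mpr hy
  have h2 : 0 < √(y + 1) := Real.sqrt_pos.mpr (by linarith)
  have h3 : √y ≤ √(y + 1) := Real.sqrt_le_sqrt (by linarith)
  have h4 : √y ^ 2 = y := Real.sq_sqrt hy.le
  have h5 : √(y + 1) ^ 2 = y + 1 := Real.sq_sqrt (by linarith)
  have h6 : (√(y + 1) - √y) * (√(y + 1) + √y) = 1 := by nlinarith
  have h7 : √(y + 1) - √y = (√(y + 1) + √y)⁻¹ := by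
    field_simp
    linarith
  constructor
  · rw [h7]
    have : 2 * (√(y + 1) + √y)⁻¹ ≤ (√y)⁻¹ := by
      rw [← div_eq_mul_inv, div_le_iff₀ (by positivity)]
      have : (√y)⁻¹ * (√(y + 1) + √y) = (√y)⁻¹ * √(y + 1) + 1 := by
        field_simp
      rw [this]
      have h8 : 1 ≤ (√y)⁻¹ * √(y + 1) := by
        rw [← div_eq_inv_mul, le_div_iff₀ h1]
        linarith
      linarith
    linarith
  · rw [h7]
    have : (√(y + 1))⁻¹ ≤ 2 * (√(y + 1) + √y)⁻¹ := by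
      rw [← div_eq_mul_inv, le_div_iff₀ (by positivity)]
      have : (√(y + 1))⁻¹ * (√(y + 1) + √y) = 1 + (√(y + 1))⁻¹ * √y := by
        field_simp
      rw [this]
      have h8 : (√(y + 1))⁻¹ * √y ≤ 1 := by
        rw [← div_eq_inv_mul, div_le_one h2]
        exact h3
      linarith
    linarith

theorem tsum_vv_half {x : ℝ} (hx : 0 ≤ x) : ‖∑' n : ℕ, vv (n + 1 + x) (1 / 2)‖ ≤ 1 := by
  have hsum : Summable fun n : ℕ => vv (n + 1 + x) (1 / 2) :=
    Summable.of_norm_bounded summable_bound (fun n => vv_bound hx half_mem_UU n)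
  have h2 := hsum.hasSum.tendsto_sum_nat
  refine le_of_tendsto h2.norm (Eventually.of_forall fun N => ?_)
  calc ‖∑ n ∈ Finset.range N, vv (n + 1 + x) (1 / 2)‖
      ≤ ∑ n ∈ Finset.range N, ‖vv (n + 1 + x) (1 / 2)‖ := norm_sum_le _ _
    _ ≤ ∑ n ∈ Finset.range N, ((√((n : ℝ) + 1 + x))⁻¹ - (√((n + 1 : ℕ) + 1 + x))⁻¹) := by
        refine Finset.sum_le_sum fun n _ => ?_
        have hy : 0 < (n : ℝ) + 1 + x := by positivity
        rw [vv_half hy, Complex.norm_real, Real.norm_eq_abs, abs_of_nonneg (sqrt_bounds hy).1]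
        refine (sqrt_bounds hy).2.trans (le_of_eq ?_)
        push_cast
        congr 3
        ring
    _ = (√((0 : ℕ) + 1 + x))⁻¹ - (√((N : ℝ) + 1 + x))⁻¹ := by
        rw [Finset.sum_range_sub' (fun n : ℕ => (√((n : ℝ) + 1 + x))⁻¹)]
    _ ≤ 1 := by
        have h3 : 0 ≤ (√((N : ℝ) + 1 + x))⁻¹ := by positivity
        have h4 : (√((0 : ℕ) + 1 + x))⁻¹ ≤ 1 := by
          have : 1 ≤ √(((0 : ℕ) : ℝ) + 1 + x) := by
            rw [Real.one_le_sqrt]
            simp [hx]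
          exact inv_le_one_of_one_le₀ this
        linarith

/-- the main estimate for the Hurwitz zeta function at `1/2` -/
theorem hurwitz_half {x : ℝ} (hx : 0 < x) (hx1 : x ≤ 1) :
    ‖hurwitzZeta (x : UnitAddCircle) (1 / 2) - (((√x)⁻¹ : ℝ) : ℂ)‖ ≤ 4 := by
  rw [hurwitz_eq_GG hx hx1 half_mem_UU]
  unfold GG
  have h1 : (1 - 1 / 2 : ℂ) = 1 / 2 := by norm_num
  rw [half_cpow' hx.le, h1, half_cpow (by linarith)]
  have h2 : (((√x)⁻¹ : ℝ) : ℂ) + ∑' n : ℕ, vv (n + 1 + x) (1 / 2) +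
      ((√(1 + x) : ℝ) : ℂ) / (1 / 2 - 1) - (((√x)⁻¹ : ℝ) : ℂ) =
      ∑' n : ℕ, vv (n + 1 + x) (1 / 2) - 2 * ((√(1 + x) : ℝ) : ℂ) := by
    ring
  rw [h2]
  have h3 : ‖(2 * ((√(1 + x) : ℝ) : ℂ))‖ ≤ 3 := by
    rw [norm_mul, Complex.norm_real, Real.norm_eq_abs, abs_of_nonneg (Real.sqrt_nonneg _)]
    have : √(1 + x) ≤ 3 / 2 := by
      rw [Real.sqrt_le_left (by norm_num)]
      norm_num
      linarith
    simp only [Complex.norm_ofNat]
    linarith
  calc _ ≤ ‖∑' n : ℕ, vv (n + 1 + x) (1 / 2)‖ + ‖(2 * ((√(1 + x) : ℝ) : ℂ))‖ := norm_sub_le _ _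
    _ ≤ 1 + 3 := add_le_add (tsum_vv_half hx.le) h3
    _ = 4 := by norm_num

variable {q : ℕ} [NeZero q]

/-- the weight of the residue class `c` -/
def V0 (q : ℕ) [NeZero q] (c : ZMod q) : ℂ :=
  (q : ℂ) ^ (-(1 / 2) : ℂ) * hurwitzZeta (ZMod.toAddCircle c) (1 / 2)

theorem LFunction_half (χ : DirichletCharacter ℂ q) :
    χ.LFunction (1 / 2) = ∑ c : ZMod q, χ c * V0 q c := by
  unfold DirichletCharacter.LFunction ZMod.LFunction V0
  rw [Finset.mul_sum]
  refine Finset.sum_congr rfl fun c _ => ?_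
  ring

theorem norm_V0_sub (c : ZMod q) (hc : c ≠ 0) :
    ‖V0 q c - (((√(c.val : ℝ))⁻¹ : ℝ) : ℂ)‖ ≤ 4 * (√(q : ℝ))⁻¹ := by
  have hq : 0 < (q : ℝ) := by
    have := NeZero.pos q
    exact_mod_cast this
  have hc0 : 0 < c.val := by
    rw [Nat.pos_iff_ne_zero]
    intro h
    exact hc ((ZMod.val_eq_zero c).mp h)
  have hcq : c.val < q := ZMod.val_lt c
  have hx : 0 < (c.val / q : ℝ) := by
    have : (0 : ℝ) < c.val := by exact_mod_cast hc0
    positivity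
  have hx1 : (c.val / q : ℝ) ≤ 1 := by
    rw [div_le_one hq]
    exact_mod_cast hcq.le
  unfold V0
  rw [ZMod.toAddCircle_apply]
  have h1 : (q : ℂ) ^ (-(1 / 2) : ℂ) = (((√(q : ℝ))⁻¹ : ℝ) : ℂ) := by
    have := half_cpow' hq.le
    simpa using this
  rw [h1]
  have h2 : (√(c.val : ℝ))⁻¹ = (√(q : ℝ))⁻¹ * (√(c.val / q : ℝ))⁻¹ := by
    rw [Real.sqrt_div (Nat.cast_nonneg _)]
    have hsq : 0 < √(q : ℝ) := Real.sqrt_pos.mpr hq
    field_simp
  rw [h2, Complex.ofReal_mul, ← mul_sub, norm_mul, Complex.norm_real, Real.norm_eq_abs,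
    abs_of_nonneg (by positivity), mul_comm]
  refine mul_le_mul_of_nonneg_right ?_ (by positivity)
  exact hurwitz_half hx hx1

end

end Pool.Agent.H.MP_3e6494_nt
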