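import Pool.Agent.H.MP_3e6494_nt.LHalf

/-!
# Removing finitely many Euler factors
-/

set_option autoImplicit false

open Complex Set Filter Topology

namespace Pool.Agent.H.MP_3e6494_nt

noncomputable section

open Classical in
/-- `m^{-1/2}` if `m` is coprime to the primes of `E`, and `0` otherwise -/
def wE (E : Finset ℕ) (m : ℕ) : ℝ := if ∀ p ∈ E, ¬ p ∣ m then (√(m : ℝ))⁻¹ else 0

theorem exists_VE {q : ℕ} [hq : Fact q.Prime] (E : Finset ℕ) (hE : ∀ p ∈ E, p.Prime ∧ p < q) :
    ∃ V : ZMod q → ℂ, (∀ χ : DirichletCharacter ℂ q,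
      χ.LFunction (1 / 2) * ∏ p ∈ E, (1 - χ (p : ZMod q) * (((√(p : ℝ))⁻¹ : ℝ) : ℂ)) =
        ∑ c : ZMod q, χ c * V c) ∧
      ∀ c : ZMod q, c ≠ 0 → ‖V c - ((wE E c.val : ℝ) : ℂ)‖ ≤
        (5 * 2 ^ E.card - 1) * (√(q : ℝ))⁻¹ := by
  classical
  induction E using Finset.induction_on with
  | empty =>
    refine ⟨V0 q, fun χ => ?_, fun c hc => ?_⟩
    · rw [Finset.prod_empty, mul_one, LFunction_half]
    · have h := norm_V0_sub c hc
      have h1 : wE ∅ c.val = (√(c.val : ℝ))⁻¹ := by
        unfold wE
        rw [if_pos (by simp)]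
      rw [h1]
      refine h.trans (le_of_eq ?_)
      simp
      norm_num
  | insert p E hpE ih =>
    obtain ⟨V, hV1, hV2⟩ := ih (fun p' hp' => hE p' (Finset.mem_insert_of_mem hp'))
    obtain ⟨hpp, hpq⟩ := hE p (Finset.mem_insert_self _ _)
    have hq1 : q.Prime := hq.out
    have hp0 : (p : ZMod q) ≠ 0 := by
      intro h
      rw [ZMod.natCast_eq_zero_iff] at h
      exact absurd (Nat.le_of_dvd hpp.pos h) (not_le.mpr hpq)
    set t : ℝ := (√(p : ℝ))⁻¹ with ht
    have hpR : (1 : ℝ) ≤ p := by exact_mod_cast hpp.one_lt.le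
    have ht0 : 0 ≤ t := by positivity
    have ht1 : t ≤ 1 := by
      rw [ht]
      refine inv_le_one_of_one_le₀ ?_
      rw [Real.one_le_sqrt]
      exact hpR
    refine ⟨fun c => V c - (t : ℂ) * V (c * (p : ZMod q)⁻¹), fun χ => ?_, fun c hc => ?_⟩
    · rw [Finset.prod_insert hpE]
      have h1 : χ.LFunction (1 / 2) * ((1 - χ (p : ZMod q) * (t : ℂ)) *
          ∏ p ∈ E, (1 - χ (p : ZMod q) * (((√(p : ℝ))⁻¹ : ℝ) : ℂ))) =
          (∑ c : ZMod q, χ c * V c) - (t : ℂ) * (χ (p : ZMod q) * ∑ c : ZMod q, χ c * V c) := by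
        rw [← hV1 χ]
        ring
      rw [h1]
      have h2 : χ (p : ZMod q) * ∑ c : ZMod q, χ c * V c =
          ∑ c : ZMod q, χ c * V (c * (p : ZMod q)⁻¹) := by
        rw [Finset.mul_sum]
        refine Fintype.sum_equiv (Equiv.mulRight₀ (p : ZMod q) hp0) _ _ fun c => ?_
        simp only [Equiv.mulRight₀, Equiv.coe_fn_mk, Units.mulRight_apply, Units.val_mk0]
        rw [mul_assoc, mul_inv_cancel₀ hp0, mul_one, map_mul]
        ring
      rw [h2, Finset.mul_sum, ← Finset.sum_sub_distrib]
      refine Finset.sum_congr rfl fun c _ => ?_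
      ring
    · set c' := c * (p : ZMod q)⁻¹ with hc'
      have hc'0 : c' ≠ 0 := mul_ne_zero hc (inv_ne_zero hp0)
      have hcc : c = (p : ZMod q) * c' := by
        rw [hc', mul_comm c, ← mul_assoc, mul_inv_cancel₀ hp0, one_mul]
      have b1 := hV2 c hc
      have b2 := hV2 c' hc'0
      set ε : ℝ := (5 * 2 ^ E.card - 1) * (√(q : ℝ))⁻¹ with hε
      have hq0 : 0 < (q : ℝ) := by exact_mod_cast hq1.pos
      have hcard : (5 * 2 ^ (insert p E).card - 1) * (√(q : ℝ))⁻¹ = 2 * ε + (√(q : ℝ))⁻¹ := by
        rw [Finset.card_insert_of_notMem hpE, hε, pow_succ]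
        ring
      rw [hcard]
      have hsq : 0 < (√(q : ℝ))⁻¹ := inv_pos.mpr (Real.sqrt_pos.mpr hq0)
      have hm'0 : 0 < c'.val := by
        rw [Nat.pos_iff_ne_zero]
        intro h
        exact hc'0 ((ZMod.val_eq_zero c').mp h)
      have hm'q : c'.val < q := ZMod.val_lt c'
      have hmod : (c.val : ZMod q) = ((p * c'.val : ℕ) : ZMod q) := by
        rw [Nat.cast_mul, ZMod.natCast_zmod_val, ZMod.natCast_zmod_val]
        exact hcc
      have hmod' : c.val ≡ p * c'.val [MOD q] := (ZMod.natCast_eq_natCast_iff _ _ _).mp hmod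
      have key : ‖V c - (t : ℂ) * V c' - ((wE (insert p E) c.val : ℝ) : ℂ)‖ ≤
          ‖V c - ((wE E c.val : ℝ) : ℂ)‖ + t * ‖V c' - ((wE E c'.val : ℝ) : ℂ)‖ +
            |wE E c.val - t * wE E c'.val - wE (insert p E) c.val| := by
        have e1 : V c - (t : ℂ) * V c' - ((wE (insert p E) c.val : ℝ) : ℂ) =
            (V c - ((wE E c.val : ℝ) : ℂ)) - (t : ℂ) * (V c' - ((wE E c'.val : ℝ) : ℂ)) +
            ((wE E c.val - t * wE E c'.val - wE (insert p E) c.val : ℝ) : ℂ) := by
          push_cast
          ring
        rw [e1]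
        refine (norm_add_le _ _).trans ?_
        rw [Complex.norm_real, Real.norm_eq_abs]
        refine add_le_add ?_ le_rfl
        refine (norm_sub_le _ _).trans ?_
        rw [norm_mul, Complex.norm_real, Real.norm_eq_abs, abs_of_nonneg ht0]
      have hlast : |wE E c.val - t * wE E c'.val - wE (insert p E) c.val| ≤ (√(q : ℝ))⁻¹ := by
        by_cases hdvd : p ∣ c.val
        · -- exact cancellation
          obtain ⟨k, hk⟩ := hdvd
          have hkq : k < q := by
            have : c.val < q := ZMod.val_lt c
            have h3 : k ≤ p * k := Nat.le_mul_of_pos_left _ hpp.pos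
            omega
          have hkc : c'.val = k := by
            have h4 : (k : ZMod q) = c' := by
              have h5 : c = (p : ZMod q) * (k : ZMod q) := by
                rw [← Nat.cast_mul, ← hk, ZMod.natCast_zmod_val]
              exact mul_left_cancel₀ hp0 (h5.symm.trans hcc)
            rw [← h4, ZMod.val_natCast, Nat.mod_eq_of_lt hkq]
          have h6 : wE (insert p E) c.val = 0 := by
            unfold wE
            rw [if_neg]
            intro h
            exact h p (Finset.mem_insert_self _ _) ⟨k, hk⟩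
          have h7 : (∀ p' ∈ E, ¬ p' ∣ c.val) ↔ (∀ p' ∈ E, ¬ p' ∣ c'.val) := by
            rw [hkc, hk]
            constructor
            · intro h p' hp' hd
              exact h p' hp' (Dvd.dvd.mul_left hd p)
            · intro h p' hp' hd
              have hp'p : p'.Prime := (hE p' (Finset.mem_insert_of_mem hp')).1
              rcases (hp'p.dvd_mul).mp hd with h8 | h8
              · have : p' = p := (Nat.prime_dvd_prime_iff_eq hp'p hpp).mp h8
                rw [this] at hp'
                exact hpE hp'
              · exact h p' hp' h8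
          have h8 : wE E c.val - t * wE E c'.val = 0 := by
            unfold wE
            by_cases hco : ∀ p' ∈ E, ¬ p' ∣ c.val
            · rw [if_pos hco, if_pos (h7.mp hco), hkc, hk, ht]
              push_cast
              rw [Real.sqrt_mul (by positivity), mul_inv]
              ring
            · rw [if_neg hco, if_neg (fun h => hco (h7.mpr h))]
              ring
          rw [h6, h8]
          simp only [sub_zero, abs_zero]
          exact hsq.le
        · have h9 : wE (insert p E) c.val = wE E c.val := by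
            unfold wE
            congr 1
            simp only [Finset.mem_insert, forall_eq_or_imp, eq_iff_iff]
            exact ⟨fun h => h.2, fun h => ⟨hdvd, h⟩⟩
          rw [h9]
          have h10 : wE E c.val - t * wE E c'.val - wE E c.val = -(t * wE E c'.val) := by ring
          rw [h10, abs_neg]
          have h11 : 0 ≤ wE E c'.val := by
            unfold wE
            split_ifs
            · positivity
            · exact le_rfl
          have h12 : wE E c'.val ≤ (√(c'.val : ℝ))⁻¹ := by
            unfold wE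
            split_ifs
            · exact le_rfl
            · positivity
          rw [abs_of_nonneg (by positivity)]
          have h13 : q ≤ p * c'.val := by
            by_contra hcon
            push Not at hcon
            have h14 : c.val = p * c'.val := by
              have := Nat.ModEq.eq_of_lt_of_lt hmod' (ZMod.val_lt c) hcon
              exact this
            exact hdvd ⟨_, h14⟩
          calc t * wE E c'.val ≤ t * (√(c'.val : ℝ))⁻¹ := by gcongr
            _ = (√((p * c'.val : ℕ) : ℝ))⁻¹ := by
                rw [ht]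
                push_cast
                rw [Real.sqrt_mul (by positivity), mul_inv]
            _ ≤ (√(q : ℝ))⁻¹ := by
                have h15 : (q : ℝ) ≤ ((p * c'.val : ℕ) : ℝ) := by exact_mod_cast h13
                have h16 : √(q : ℝ) ≤ √((p * c'.val : ℕ) : ℝ) := Real.sqrt_le_sqrt h15
                exact inv_anti₀ (Real.sqrt_pos.mpr hq0) h16
      have hε0 : 0 ≤ ε := le_trans (norm_nonneg _) b1
      calc _ ≤ ‖V c - ((wE E c.val : ℝ) : ℂ)‖ + t * ‖V c' - ((wE E c'.val : ℝ) : ℂ)‖ +
            |wE E c.val - t * wE E c'.val - wE (insert p E) c.val| := key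
        _ ≤ ε + 1 * ε + (√(q : ℝ))⁻¹ := by
            gcongr
        _ = 2 * ε + (√(q : ℝ))⁻¹ := by ring

end

end Pool.Agent.H.MP_3e6494_nt
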