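import Mathlib

/-!
# Random sums of multisets from spread families: covering counts
-/

set_option autoImplicit false
set_option linter.unusedSectionVars false

namespace Pool.Agent.H.MP_3e6494_nt

noncomputable section

variable {α : Type*} [DecidableEq α]

/-- sums over the sub-multisets (with multiplicity) -/
def psum (X : Multiset α) (F : Multiset α → ℝ) : ℝ := (X.powerset.map F).sum

theorem psum_zero (F : Multiset α → ℝ) : psum 0 F = F 0 := by
  simp [psum]

theorem psum_cons (a : α) (X : Multiset α) (F : Multiset α → ℝ) :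
    psum (a ::ₘ X) F = psum X F + psum X (fun T => F (a ::ₘ T)) := by
  unfold psum
  rw [Multiset.powerset_cons, Multiset.map_add, Multiset.sum_add, Multiset.map_map]
  rfl

theorem psum_mono {X : Multiset α} {F G : Multiset α → ℝ} (h : ∀ T ≤ X, F T ≤ G T) :
    psum X F ≤ psum X G := by
  induction X using Multiset.induction_on generalizing F G with
  | empty =>
    rw [psum_zero, psum_zero]
    exact h 0 le_rfl
  | cons a X ih =>
    rw [psum_cons, psum_cons]
    refine add_le_add (ih fun T hT => h T (hT.trans (Multiset.le_cons_self X a))) (ih fun T hT => ?_)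
    exact h _ (Multiset.cons_le_cons a hT)

theorem psum_congr {X : Multiset α} {F G : Multiset α → ℝ} (h : ∀ T ≤ X, F T = G T) :
    psum X F = psum X G :=
  le_antisymm (psum_mono fun T hT => (h T hT).le) (psum_mono fun T hT => (h T hT).ge)

theorem psum_nonneg {X : Multiset α} {F : Multiset α → ℝ} (h : ∀ T ≤ X, 0 ≤ F T) :
    0 ≤ psum X F := by
  refine le_trans (le_of_eq ?_) (psum_mono (F := fun _ => 0) h)
  unfold psum
  simp

theorem single_le_psum {X T : Multiset α} {F : Multiset α → ℝ} (h : ∀ T ≤ X, 0 ≤ F T)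
    (hT : T ≤ X) : F T ≤ psum X F := by
  unfold psum
  refine Multiset.single_le_sum (s := X.powerset.map F) ?_ (F T) ?_
  · intro x hx
    obtain ⟨T', hT', rfl⟩ := Multiset.mem_map.mp hx
    exact h T' (Multiset.mem_powerset.mp hT')
  · exact Multiset.mem_map_of_mem F (Multiset.mem_powerset.mpr hT)

theorem psum_sum {ι : Type*} (s : Finset ι) (X : Multiset α) (F : ι → Multiset α → ℝ) :
    ∑ i ∈ s, psum X (F i) = psum X (fun T => ∑ i ∈ s, F i T) := by
  induction X using Multiset.induction_on generalizing F with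
  | empty => simp [psum_zero]
  | cons a X ih =>
    rw [psum_cons, ← ih, ← ih (fun i T => F i (a ::ₘ T)), ← Finset.sum_add_distrib]
    refine Finset.sum_congr rfl fun i _ => ?_
    rw [psum_cons]

theorem psum_add (X : Multiset α) (F G : Multiset α → ℝ) :
    psum X (fun T => F T + G T) = psum X F + psum X G := by
  unfold psum
  rw [Multiset.sum_map_add]

theorem psum_mul_left (X : Multiset α) (c : ℝ) (F : Multiset α → ℝ) :
    psum X (fun T => c * F T) = c * psum X F := by
  unfold psum
  rw [Multiset.sum_map_mul_left]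

theorem psum_mul_right (X : Multiset α) (c : ℝ) (F : Multiset α → ℝ) :
    psum X (fun T => F T * c) = psum X F * c := by
  unfold psum
  rw [Multiset.sum_map_mul_right]

/-- the norm of a multiset -/
def nm (ν : α → ℕ) (X : Multiset α) : ℕ := (X.map ν).sum

variable {ν : α → ℕ}

@[simp] theorem nm_zero : nm ν (0 : Multiset α) = 0 := by simp [nm]

@[simp] theorem nm_cons (a : α) (X : Multiset α) : nm ν (a ::ₘ X) = ν a + nm ν X := by simp [nm]

theorem nm_add (X Y : Multiset α) : nm ν (X + Y) = nm ν X + nm ν Y := by simp [nm]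

theorem nm_singleton (a : α) : nm ν ({a} : Multiset α) = ν a := by simp [nm]

theorem nm_sum {ι : Type*} (s : Finset ι) (f : ι → Multiset α) :
    nm ν (∑ i ∈ s, f i) = ∑ i ∈ s, nm ν (f i) := by
  classical
  induction s using Finset.induction_on with
  | empty => simp
  | insert a s ha ih => rw [Finset.sum_insert ha, Finset.sum_insert ha, nm_add, ih]

theorem nm_sub {X T : Multiset α} (h : T ≤ X) : nm ν T + nm ν (X - T) = nm ν X := by
  rw [← nm_add, add_tsub_cancel_of_le h]

theorem card_le_nm (hν : ∀ a, 1 ≤ ν a) (X : Multiset α) : X.card ≤ nm ν X := by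
  induction X using Multiset.induction_on with
  | empty => simp
  | cons a X ih =>
    rw [nm_cons, Multiset.card_cons]
    have := hν a
    omega

theorem psum_pow (X : Multiset α) {a b : ℝ} :
    psum X (fun T => a ^ nm ν T * b ^ nm ν (X - T)) = (X.map fun x => a ^ ν x + b ^ ν x).prod := by
  induction X using Multiset.induction_on with
  | empty => simp [psum_zero]
  | cons x X ih =>
    rw [psum_cons, Multiset.map_cons, Multiset.prod_cons, ← ih, add_mul, ← psum_mul_left,
      ← psum_mul_left, add_comm]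
    congr 1
    · refine psum_congr fun T hT => ?_
      rw [nm_cons, Multiset.sub_cons, Multiset.erase_cons_head, pow_add]
      ring
    · refine psum_congr fun T hT => ?_
      rw [Multiset.cons_sub_of_le x hT, nm_cons, pow_add]
      ring

theorem prod_one_add {a : ℝ} (ha : 0 ≤ a) (ha1 : a ≤ 1) (hν : ∀ x, 1 ≤ ν x) (X : Multiset α) :
    (X.map fun x => a ^ ν x + 1).prod ≤ (a + 1) ^ X.card := by
  induction X using Multiset.induction_on with
  | empty => simp
  | cons x X ih =>
    rw [Multiset.map_cons, Multiset.prod_cons, Multiset.card_cons, pow_succ']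
    have h1 : a ^ ν x ≤ a := by
      calc a ^ ν x ≤ a ^ 1 := pow_le_pow_of_le_one ha ha1 (hν x)
        _ = a := pow_one a
    have h2 : 0 ≤ (X.map fun x => a ^ ν x + 1).prod := by
      refine Multiset.prod_nonneg ?_
      intro y hy
      obtain ⟨z, _, rfl⟩ := Multiset.mem_map.mp hy
      positivity
    gcongr

theorem pow_one_add_le {a : ℝ} (ha : 0 ≤ a) (m : ℕ) (h : 2 * m * a ≤ 1) :
    (a + 1) ^ m ≤ 1 + 2 * m * a := by
  induction m with
  | zero => simp
  | succ m ih =>
    have h1 : 2 * (m : ℝ) * a ≤ 1 := by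
      refine le_trans ?_ h
      push_cast
      nlinarith
    have h2 := ih h1
    calc (a + 1) ^ (m + 1) = (a + 1) ^ m * (a + 1) := pow_succ _ _
      _ ≤ (1 + 2 * m * a) * (a + 1) := by gcongr
      _ ≤ 1 + 2 * ((m + 1 : ℕ) : ℝ) * a := by
          push_cast
          nlinarith [mul_nonneg ha (sub_nonneg.mpr h1)]

/-! ## Independence -/

theorem pi_indep {ι β : Type*} [Fintype ι] [DecidableEq ι] (V : ι → Finset β)
    (l : ι) (f : β → ℝ) (h : (ι → β) → ℝ) (hh : ∀ ω x, h (Function.update ω l x) = h ω) :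
    (∑ ω ∈ Fintype.piFinset V, f (ω l) * h ω) * (V l).card =
      (∑ x ∈ V l, f x) * ∑ ω ∈ Fintype.piFinset V, h ω := by
  have h1 : (∑ ω ∈ Fintype.piFinset V, f (ω l) * h ω) * (V l).card =
      ∑ X ∈ (Fintype.piFinset V) ×ˢ (V l), f (X.1 l) * h X.1 := by
    rw [Finset.sum_product, Finset.sum_mul]
    refine Finset.sum_congr rfl fun ω _ => ?_
    simp only
    rw [Finset.sum_const, nsmul_eq_mul, mul_comm]
  have h2 : (∑ x ∈ V l, f x) * ∑ ω ∈ Fintype.piFinset V, h ω =
      ∑ X ∈ (Fintype.piFinset V) ×ˢ (V l), f X.2 * h X.1 := by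
    rw [Finset.sum_product_right, Finset.sum_mul_sum]
  rw [h1, h2]
  refine Finset.sum_nbij' (fun X => (Function.update X.1 l X.2, X.1 l))
    (fun X => (Function.update X.1 l X.2, X.1 l)) ?_ ?_ ?_ ?_ ?_
  · rintro ⟨ω, x⟩ hX
    rw [Finset.mem_product, Fintype.mem_piFinset] at hX ⊢
    refine ⟨fun i => ?_, hX.1 l⟩
    rcases eq_or_ne i l with rfl | hi
    · simpa using hX.2
    · simpa [Function.update_of_ne hi] using hX.1 i
  · rintro ⟨ω, x⟩ hX
    rw [Finset.mem_product, Fintype.mem_piFinset] at hX ⊢
    refine ⟨fun i => ?_, hX.1 l⟩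
    rcases eq_or_ne i l with rfl | hi
    · simpa using hX.2
    · simpa [Function.update_of_ne hi] using hX.1 i
  · rintro ⟨ω, x⟩ _
    simp
  · rintro ⟨ω, x⟩ _
    simp
  · rintro ⟨ω, x⟩ _
    simp only
    rw [hh]

/-! ## Covering counts -/

/-- proportion of the elements of `V` containing `T` -/
def prp (V : Finset (Multiset α)) (T : Multiset α) : ℝ :=
  ((V.filter (fun X => T ≤ X)).card : ℝ) / V.card

theorem prp_nonneg (V : Finset (Multiset α)) (T : Multiset α) : 0 ≤ prp V T := by
  unfold prp
  positivity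

theorem prp_le_one (V : Finset (Multiset α)) (T : Multiset α) : prp V T ≤ 1 := by
  unfold prp
  refine div_le_one_of_le₀ ?_ (by positivity)
  exact_mod_cast Finset.card_filter_le _ _

variable {ι : Type*} [Fintype ι] [DecidableEq ι]

/-- the number of tuples covering `X` -/
def cov (V : ι → Finset (Multiset α)) (J : Finset ι) (X : Multiset α) : ℝ :=
  ∑ ω ∈ Fintype.piFinset V, if X ≤ ∑ l ∈ J, ω l then (1 : ℝ) else 0

theorem cov_nonneg (V : ι → Finset (Multiset α)) (J : Finset ι) (X : Multiset α) :
    0 ≤ cov V J X :=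
  Finset.sum_nonneg fun ω _ => by split_ifs <;> norm_num

theorem cov_zero (V : ι → Finset (Multiset α)) (J : Finset ι) :
    cov V J 0 = (Fintype.piFinset V).card := by
  unfold cov
  simp

theorem indep_prp {V : ι → Finset (Multiset α)} (hne : ∀ l, (V l).Nonempty) {l : ι}
    {J : Finset ι} (hl : l ∉ J) (T T' : Multiset α) :
    ∑ ω ∈ Fintype.piFinset V, (if T ≤ ω l then (1 : ℝ) else 0) *
      (if T' ≤ ∑ l ∈ J, ω l then (1 : ℝ) else 0) = prp (V l) T * cov V J T' := by
  have h1 := pi_indep V l (fun X => if T ≤ X then (1 : ℝ) else 0)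
    (fun ω => if T' ≤ ∑ l ∈ J, ω l then (1 : ℝ) else 0) ?_
  · have h0 : ((V l).card : ℝ) ≠ 0 := by
      exact_mod_cast (Finset.card_pos.mpr (hne l)).ne'
    have h2 : ∑ x ∈ V l, (if T ≤ x then (1 : ℝ) else 0) = ((V l).filter (fun X => T ≤ X)).card := by
      rw [← Finset.sum_filter, Finset.sum_const, nsmul_eq_mul, mul_one]
    rw [h2] at h1
    unfold prp cov
    rw [div_mul_eq_mul_div, eq_div_iff h0, h1]
  · intro ω x
    have : ∑ i ∈ J, Function.update ω l x i = ∑ i ∈ J, ω i := by
      refine Finset.sum_congr rfl fun i hi => ?_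
      rw [Function.update_of_ne]
      rintro rfl
      exact hl hi
    rw [this]

/-- the recursion for the covering counts -/
theorem cov_rec {V : ι → Finset (Multiset α)} (hne : ∀ l, (V l).Nonempty) (J : Finset ι)
    (x : α) (X : Multiset α) :
    cov V J (x ::ₘ X) ≤
      psum X (fun T => ∑ l ∈ J, prp (V l) (x ::ₘ T) * cov V (J.erase l) (X - T)) := by
  have h1 : ∀ ω : ι → Multiset α, (if x ::ₘ X ≤ ∑ l ∈ J, ω l then (1 : ℝ) else 0) ≤
      ∑ l ∈ J, psum X (fun T => (if x ::ₘ T ≤ ω l then (1 : ℝ) else 0) *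
        (if X - T ≤ ∑ l ∈ J.erase l, ω l then (1 : ℝ) else 0)) := by
    intro ω
    have hnn : ∀ l ∈ J, 0 ≤ psum X (fun T => (if x ::ₘ T ≤ ω l then (1 : ℝ) else 0) *
        (if X - T ≤ ∑ l ∈ J.erase l, ω l then (1 : ℝ) else 0)) := by
      intro l _
      refine psum_nonneg fun T _ => ?_
      split_ifs <;> norm_num
    split_ifs with h
    · -- some `ω l` contains `x`
      have hx : x ∈ ∑ l ∈ J, ω l := Multiset.mem_of_le h (Multiset.mem_cons_self x X)
      rw [Multiset.mem_sum] at hx
      obtain ⟨l, hl, hxl⟩ := hx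
      refine le_trans ?_ (Finset.single_le_sum hnn hl)
      -- the intersection
      set T₀ := (x ::ₘ X) ∩ ω l with hT₀
      have hx0 : x ∈ T₀ := Multiset.mem_inter.mpr ⟨Multiset.mem_cons_self x X, hxl⟩
      have hT1 : x ::ₘ T₀.erase x = T₀ := Multiset.cons_erase hx0
      have hTX : T₀.erase x ≤ X := by
        have : T₀ ≤ x ::ₘ X := Multiset.inter_le_left
        rw [← hT1] at this
        exact (Multiset.cons_le_cons_iff x).mp this
      refine le_trans (le_of_eq ?_) (single_le_psum (T := T₀.erase x) ?_ hTX)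
      · rw [if_pos, if_pos, mul_one]
        · have h2 : X - T₀.erase x = (x ::ₘ X) - T₀ := by
            conv_rhs => rw [← hT1]
            rw [Multiset.sub_cons, Multiset.erase_cons_head]
          rw [h2, hT₀]
          have h3 : (x ::ₘ X) - ((x ::ₘ X) ∩ ω l) = (x ::ₘ X) - ω l := by
            ext a
            simp only [Multiset.count_sub, Multiset.count_inter]
            omega
          rw [h3, tsub_le_iff_left]
          refine h.trans (le_of_eq ?_)
          rw [← Finset.add_sum_erase J _ hl]
        · rw [hT1]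
          exact Multiset.inter_le_right
      · intro T _
        split_ifs <;> norm_num
    · exact Finset.sum_nonneg hnn
  unfold cov
  refine (Finset.sum_le_sum fun ω _ => h1 ω).trans (le_of_eq ?_)
  rw [Finset.sum_comm]
  have h2 : ∀ l ∈ J, ∑ ω ∈ Fintype.piFinset V,
      psum X (fun T => (if x ::ₘ T ≤ ω l then (1 : ℝ) else 0) *
        (if X - T ≤ ∑ l ∈ J.erase l, ω l then (1 : ℝ) else 0)) =
      psum X (fun T => prp (V l) (x ::ₘ T) * cov V (J.erase l) (X - T)) := by
    intro l _
    rw [psum_sum]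
    refine psum_congr fun T _ => ?_
    exact indep_prp hne (Finset.notMem_erase l J) _ _
  rw [Finset.sum_congr rfl h2, psum_sum]
  rfl

end

end Pool.Agent.H.MP_3e6494_nt
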