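import Pool.Agent.H.MP_3e6494_nt.Ms1

/-!
# Covering bounds and the collision argument
-/

set_option autoImplicit false
set_option linter.unusedSectionVars false

namespace Pool.Agent.H.MP_3e6494_nt

noncomputable section

variable {α : Type*} [DecidableEq α] {ν : α → ℕ}
variable {ι : Type*} [Fintype ι] [DecidableEq ι]

theorem prod_pow_add {a b : ℝ} (X : Multiset α) (hb : b ≠ 0) :
    (X.map fun x => a ^ ν x + b ^ ν x).prod =
      b ^ nm ν X * (X.map fun x => (a / b) ^ ν x + 1).prod := by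
  induction X using Multiset.induction_on with
  | empty => simp
  | cons x X ih =>
    rw [Multiset.map_cons, Multiset.prod_cons, Multiset.map_cons, Multiset.prod_cons, ih, nm_cons,
      pow_add, div_pow]
    have : b ^ ν x ≠ 0 := pow_ne_zero _ hb
    field_simp

theorem prod_pow_add_le {a b : ℝ} (ha : 0 ≤ a) (hb : 0 < b) (hab : a ≤ b) (hν : ∀ x, 1 ≤ ν x)
    (X : Multiset α) (h : 2 * X.card * (a / b) ≤ 1) :
    (X.map fun x => a ^ ν x + b ^ ν x).prod ≤ b ^ nm ν X * (1 + 2 * X.card * (a / b)) := by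
  rw [prod_pow_add X hb.ne']
  have h1 : a / b ≤ 1 := (div_le_one hb).mpr hab
  have h2 : 0 ≤ a / b := div_nonneg ha hb.le
  have h3 := prod_one_add h2 h1 hν X
  have h4 := pow_one_add_le h2 X.card h
  exact mul_le_mul_of_nonneg_left (h3.trans h4) (by positivity)

/-- **Covering bound in the popularity regime.** -/
theorem cover_pop {V : ι → Finset (Multiset α)} (hne : ∀ l, (V l).Nonempty) {τ Θ : ℝ}
    (hτ : 0 ≤ τ) (hν : ∀ x, 1 ≤ ν x) (spread : ∀ l T, prp (V l) T ≤ τ ^ nm ν T)
    (pop : ∀ x, ∑ l, prp (V l) {x} ≤ Θ) (hΘ : Θ ≤ 1 / 32) {S : ℕ} (hS1 : 1 ≤ S)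
    (hS : 32 * S * τ ≤ 1) (hj : 1024 * (Fintype.card ι * S * τ ^ 2) ≤ 1) :
    ∀ (n : ℕ) (X : Multiset α), X.card = n → X.card ≤ S → ∀ J : Finset ι,
      cov V J X ≤ (1 / 16) ^ nm ν X * (Fintype.piFinset V).card := by
  have hS0 : (1 : ℝ) ≤ S := by exact_mod_cast hS1
  have hτ1 : τ ≤ 1 / 32 := by nlinarith
  have hj0 : (0 : ℝ) ≤ Fintype.card ι := by positivity
  intro n
  induction n using Nat.strong_induction_on with
  | _ n ih =>
    intro X hXn hXS J
    rcases Multiset.empty_or_exists_mem X with rfl | ⟨x, hx⟩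
    · rw [cov_zero]
      simp
    obtain ⟨Y, rfl⟩ := Multiset.exists_cons_of_mem hx
    set Ω : ℝ := ((Fintype.piFinset V).card : ℝ) with hΩ
    have hΩ0 : 0 ≤ Ω := by positivity
    have hYc : Y.card + 1 = n := by rw [← Multiset.card_cons x Y]; exact hXn
    have hYS : Y.card + 1 ≤ S := by rw [← Multiset.card_cons x Y]; exact hXS
    set j : ℝ := (Fintype.card ι : ℝ) with hjdef
    -- the recursion with the induction hypothesis
    have h1 : cov V J (x ::ₘ Y) ≤ psum Y (fun T =>
        (∑ l ∈ J, prp (V l) (x ::ₘ T)) * ((1 / 16) ^ nm ν (Y - T) * Ω)) := by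
      refine (cov_rec hne J x Y).trans (psum_mono fun T hT => ?_)
      rw [Finset.sum_mul]
      refine Finset.sum_le_sum fun l _ => ?_
      refine mul_le_mul_of_nonneg_left ?_ (prp_nonneg _ _)
      have hc : (Y - T).card ≤ Y.card := Multiset.card_le_card (Multiset.sub_le_self Y T)
      exact ih (Y - T).card (by omega) (Y - T) rfl (by omega) _
    -- the sums over the families
    have hG0 : ∑ l ∈ J, prp (V l) {x} ≤ (1 / 16) ^ ν x / 2 := by
      have hJ : ∑ l ∈ J, prp (V l) {x} ≤ ∑ l, prp (V l) {x} :=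
        Finset.sum_le_sum_of_subset_of_nonneg (Finset.subset_univ _)
          (fun l _ _ => prp_nonneg _ _)
      rcases (hν x).eq_or_lt with h | h
      · rw [← h]
        have := pop x
        linarith
      · have h2 : ∑ l, prp (V l) {x} ≤ j * τ ^ ν x := by
          calc ∑ l, prp (V l) {x} ≤ ∑ _l : ι, τ ^ ν x := by
                refine Finset.sum_le_sum fun l _ => ?_
                have := spread l {x}
                rwa [nm_singleton] at this
            _ = j * τ ^ ν x := by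
                rw [Finset.sum_const, nsmul_eq_mul, Finset.card_univ]
        have h3 : j * τ ^ ν x ≤ (1 / 16) ^ ν x / 2 := by
          obtain ⟨k, hk⟩ : ∃ k, ν x = 2 + k := ⟨ν x - 2, by omega⟩
          rw [hk, pow_add, pow_add]
          have h4 : τ ^ k ≤ (1 / 16) ^ k := pow_le_pow_left₀ hτ (by linarith) k
          have h5 : j * τ ^ 2 ≤ (1 / 16) ^ 2 / 2 := by
            have h6 : j * τ ^ 2 ≤ j * S * τ ^ 2 := by
              have : 0 ≤ j * τ ^ 2 := by positivity
              nlinarith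
            norm_num
            linarith
          calc j * (τ ^ 2 * τ ^ k) = (j * τ ^ 2) * τ ^ k := by ring
            _ ≤ ((1 / 16) ^ 2 / 2) * (1 / 16) ^ k := by gcongr
            _ = _ := by ring
        linarith
    have hG1 : ∀ T : Multiset α, ∑ l ∈ J, prp (V l) (x ::ₘ T) ≤ j * τ ^ ν x * τ ^ nm ν T := by
      intro T
      calc ∑ l ∈ J, prp (V l) (x ::ₘ T) ≤ ∑ l, prp (V l) (x ::ₘ T) :=
            Finset.sum_le_sum_of_subset_of_nonneg (Finset.subset_univ _)
              (fun l _ _ => prp_nonneg _ _)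
        _ ≤ ∑ _l : ι, τ ^ nm ν (x ::ₘ T) := Finset.sum_le_sum fun l _ => spread l _
        _ = j * τ ^ ν x * τ ^ nm ν T := by
            rw [Finset.sum_const, nsmul_eq_mul, Finset.card_univ, nm_cons, pow_add]
            ring
    -- split off the empty set
    have h2 : psum Y (fun T => (∑ l ∈ J, prp (V l) (x ::ₘ T)) * ((1 / 16) ^ nm ν (Y - T) * Ω)) ≤
        (∑ l ∈ J, prp (V l) {x}) * ((1 / 16) ^ nm ν Y * Ω) +
          j * τ ^ ν x * Ω * ((Y.map fun y => τ ^ ν y + (1 / 16) ^ ν y).prod -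
            (1 / 16) ^ nm ν Y) := by
      have hsplit : ∀ (Z : Multiset α) (F G : Multiset α → ℝ), (∀ T ≤ Z, F T ≤ G T) →
          psum Z F ≤ F 0 + (psum Z G - G 0) := by
        intro Z F G hFG
        have h3 : psum Z (fun T => G T - F T) = psum Z G - psum Z F := by
          have h4 := psum_add Z (fun T => G T - F T) F
          simp only [sub_add_cancel] at h4
          linarith
        have h5 := single_le_psum (X := Z) (T := 0) (F := fun T => G T - F T)
          (fun T hT => sub_nonneg.mpr (hFG T hT)) (Multiset.zero_le Z)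
        linarith
      refine (hsplit Y _ (fun T => j * τ ^ ν x * Ω * (τ ^ nm ν T * (1 / 16) ^ nm ν (Y - T))) ?_).trans
        (le_of_eq ?_)
      · intro T _
        calc _ ≤ (j * τ ^ ν x * τ ^ nm ν T) * ((1 / 16) ^ nm ν (Y - T) * Ω) := by
              refine mul_le_mul_of_nonneg_right (hG1 T) (by positivity)
          _ = _ := by ring
      · rw [psum_mul_left, psum_pow]
        simp only [nm_zero, pow_zero, Multiset.sub_zero, one_mul, Multiset.cons_zero]
        ring
    have h3 : (Y.map fun y => τ ^ ν y + (1 / 16) ^ ν y).prod - (1 / 16) ^ nm ν Y ≤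
        (1 / 16) ^ nm ν Y * (32 * S * τ) := by
      have hYS' : (Y.card : ℝ) ≤ S := by exact_mod_cast (by omega : Y.card ≤ S)
      have h4 : 2 * (Y.card : ℝ) * (τ / (1 / 16)) ≤ 32 * S * τ := by
        calc 2 * (Y.card : ℝ) * (τ / (1 / 16)) = 32 * (Y.card : ℝ) * τ := by ring
          _ ≤ 32 * S * τ := by gcongr
      have h5 := prod_pow_add_le (ν := ν) hτ (by norm_num : (0 : ℝ) < 1 / 16) (by linarith) hν Y
        (h4.trans hS)
      have h6 : (0 : ℝ) ≤ (1 / 16) ^ nm ν Y := by positivity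
      nlinarith [mul_le_mul_of_nonneg_left h4 h6]
    have h4 : j * τ ^ ν x * (32 * S * τ) ≤ (1 / 16) ^ ν x / 2 := by
      obtain ⟨k, hk⟩ : ∃ k, ν x = 1 + k := ⟨ν x - 1, by have := hν x; omega⟩
      rw [hk, pow_add, pow_add]
      have h5 : τ ^ k ≤ (1 / 16) ^ k := pow_le_pow_left₀ hτ (by linarith) k
      calc j * (τ ^ 1 * τ ^ k) * (32 * S * τ) = (32 * (j * S * τ ^ 2)) * τ ^ k := by ring
        _ ≤ (1 / 32) * (1 / 16) ^ k := by
            have : 32 * (j * S * τ ^ 2) ≤ 1 / 32 := by linarith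
            gcongr
        _ = _ := by ring
    calc cov V J (x ::ₘ Y) ≤ _ := h1.trans h2
      _ ≤ ((1 / 16) ^ ν x / 2) * ((1 / 16) ^ nm ν Y * Ω) +
          ((1 / 16) ^ ν x / 2) * ((1 / 16) ^ nm ν Y * Ω) := by
          refine add_le_add (mul_le_mul_of_nonneg_right hG0 (by positivity)) ?_
          calc j * τ ^ ν x * Ω * ((Y.map fun y => τ ^ ν y + (1 / 16) ^ ν y).prod -
                (1 / 16) ^ nm ν Y)
              ≤ j * τ ^ ν x * Ω * ((1 / 16) ^ nm ν Y * (32 * S * τ)) := by gcongr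
            _ = (j * τ ^ ν x * (32 * S * τ)) * ((1 / 16) ^ nm ν Y * Ω) := by ring
            _ ≤ _ := mul_le_mul_of_nonneg_right h4 (by positivity)
      _ = (1 / 16) ^ nm ν (x ::ₘ Y) * Ω := by
          rw [nm_cons, pow_add]
          ring

theorem nm_one (X : Multiset α) : nm (fun _ => 1) X = X.card := by
  induction X using Multiset.induction_on with
  | empty => simp
  | cons x X ih => rw [nm_cons, ih, Multiset.card_cons, add_comm]

theorem cover_basic_aux {V : ι → Finset (Multiset α)} (hne : ∀ l, (V l).Nonempty) {τ : ℝ}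
    (hτ : 0 ≤ τ) (spread : ∀ l T, prp (V l) T ≤ τ ^ nm ν T) :
    ∀ (n : ℕ) (X : Multiset α), X.card = n → ∀ J : Finset ι,
      cov V J X ≤ (J.card : ℝ) ^ X.card * τ ^ nm ν X * (Fintype.piFinset V).card := by
  intro n
  induction n using Nat.strong_induction_on with
  | _ n ih =>
    intro X hXn J
    rcases Multiset.empty_or_exists_mem X with rfl | ⟨x, hx⟩
    · rw [cov_zero]
      simp
    obtain ⟨Y, rfl⟩ := Multiset.exists_cons_of_mem hx
    set Ω : ℝ := ((Fintype.piFinset V).card : ℝ) with hΩ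
    have hΩ0 : 0 ≤ Ω := by positivity
    have hYc : Y.card + 1 = n := by rw [← Multiset.card_cons x Y]; exact hXn
    rcases J.eq_empty_or_nonempty with rfl | hJ
    · refine (cov_rec hne ∅ x Y).trans ?_
      simp only [Finset.sum_empty]
      unfold psum
      simp
    have hJ1 : 1 ≤ J.card := Finset.card_pos.mpr hJ
    have h1 : cov V J (x ::ₘ Y) ≤ psum Y (fun T => (J.card * τ ^ nm ν (x ::ₘ Y) * Ω) *
        ((1 : ℝ) ^ nm (fun _ => 1) T * ((J.card : ℝ) - 1) ^ nm (fun _ => 1) (Y - T))) := by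
      refine (cov_rec hne J x Y).trans (psum_mono fun T hT => ?_)
      have hterm : ∀ l ∈ J, prp (V l) (x ::ₘ T) * cov V (J.erase l) (Y - T) ≤
          τ ^ nm ν (x ::ₘ T) * (((J.card : ℝ) - 1) ^ (Y - T).card * τ ^ nm ν (Y - T) * Ω) := by
        intro l hl
        have hc : (Y - T).card ≤ Y.card := Multiset.card_le_card (Multiset.sub_le_self Y T)
        have h2 := ih (Y - T).card (by omega) (Y - T) rfl (J.erase l)
        have h3 : ((J.erase l).card : ℝ) = (J.card : ℝ) - 1 := by
          rw [Finset.card_erase_of_mem hl, Nat.cast_sub hJ1, Nat.cast_one]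
        rw [h3] at h2
        exact mul_le_mul (spread l _) h2 (cov_nonneg _ _ _) (by positivity)
      refine (Finset.sum_le_sum hterm).trans (le_of_eq ?_)
      rw [Finset.sum_const, nsmul_eq_mul, nm_cons, nm_cons, ← nm_sub hT, nm_one, nm_one, pow_add,
        pow_add, pow_add]
      ring
    refine h1.trans (le_of_eq ?_)
    rw [psum_mul_left, psum_pow]
    have h4 : (Y.map fun _ => (1 : ℝ) ^ 1 + ((J.card : ℝ) - 1) ^ 1).prod =
        (J.card : ℝ) ^ Y.card := by
      rw [Multiset.map_const', Multiset.prod_replicate]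
      congr 1
      ring
    rw [h4, Multiset.card_cons, pow_succ]
    ring

/-- **Covering bound in the basic regime.** -/
theorem cover_basic {V : ι → Finset (Multiset α)} (hne : ∀ l, (V l).Nonempty) {τ : ℝ}
    (hτ : 0 ≤ τ) (hν : ∀ x, 1 ≤ ν x) (spread : ∀ l T, prp (V l) T ≤ τ ^ nm ν T)
    (hj : Fintype.card ι * τ ≤ 1 / 16) (X : Multiset α) :
      cov V Finset.univ X ≤ (1 / 16) ^ nm ν X * (Fintype.piFinset V).card := by
  refine (cover_basic_aux hne hτ spread _ X rfl Finset.univ).trans ?_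
  refine mul_le_mul_of_nonneg_right ?_ (by positivity)
  rw [Finset.card_univ]
  rcases Nat.eq_zero_or_pos (Fintype.card ι) with h0 | h0
  · rw [h0]
    rcases Nat.eq_zero_or_pos X.card with h1 | h1
    · rw [Multiset.card_eq_zero] at h1
      subst h1
      simp
    · rw [Nat.cast_zero, zero_pow h1.ne', zero_mul]
      positivity
  · have h1 : (1 : ℝ) ≤ Fintype.card ι := by exact_mod_cast h0
    calc (Fintype.card ι : ℝ) ^ X.card * τ ^ nm ν X
        ≤ (Fintype.card ι : ℝ) ^ nm ν X * τ ^ nm ν X := by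
          refine mul_le_mul_of_nonneg_right ?_ (by positivity)
          exact pow_le_pow_right₀ h1 (card_le_nm hν X)
      _ = (Fintype.card ι * τ) ^ nm ν X := by rw [mul_pow]
      _ ≤ _ := by gcongr

/-! ## The collision argument -/

/-- **The collision argument.** -/
theorem collision {V : ι → Finset (Multiset α)} (hne : ∀ l, (V l).Nonempty) {s : ι → ℕ}
    (hs1 : ∀ l, 1 ≤ s l)
    (hcov : ∀ l, ∀ X ∈ V l, cov V Finset.univ X ≤ (1 / 16) ^ s l * (Fintype.piFinset V).card)
    (Ω' : Finset (ι → Multiset α)) (hΩ' : Ω' ⊆ Fintype.piFinset V)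
    (hΩc : 3 / 4 * ((Fintype.piFinset V).card : ℝ) ≤ Ω'.card) {D : ℝ}
    (hD : ((Ω'.image (fun ω => ∑ l, ω l)).card : ℝ) ≤ D) :
    (2 : ℝ) ^ (∑ l, s l) ≤ 4 * D := by
  classical
  set Ωs := Fintype.piFinset V with hΩs
  set Ω : ℝ := (Ωs.card : ℝ) with hΩ
  have hΩne : Ωs.Nonempty := by
    rw [hΩs, Fintype.piFinset_nonempty]
    exact hne
  have hΩ0 : 0 < Ω := by
    rw [hΩ]
    exact_mod_cast Finset.card_pos.mpr hΩne
  -- the number of elements of `V l` below `y`
  set n : ι → Multiset α → ℕ := fun l y => ((V l).filter (fun X => X ≤ y)).card with hn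
  set y : (ι → Multiset α) → Multiset α := fun ω => ∑ l, ω l with hy
  have hVc : ∀ l, (0 : ℝ) < (V l).card := fun l => by exact_mod_cast Finset.card_pos.mpr (hne l)
  have havg : ∀ l, ∑ ω ∈ Ωs, (n l (y ω) : ℝ) ≤ (V l).card * ((1 / 16) ^ s l * Ω) := by
    intro l
    have h1 : ∀ ω, (n l (y ω) : ℝ) = ∑ X ∈ V l, if X ≤ ∑ l, ω l then (1 : ℝ) else 0 := by
      intro ω
      rw [← Finset.sum_filter, Finset.sum_const, nsmul_eq_mul, mul_one]
    rw [Finset.sum_congr rfl fun ω _ => h1 ω, Finset.sum_comm]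
    calc ∑ X ∈ V l, ∑ ω ∈ Ωs, (if X ≤ ∑ l, ω l then (1 : ℝ) else 0)
        ≤ ∑ _X ∈ V l, (1 / 16) ^ s l * Ω := Finset.sum_le_sum fun X hX => hcov l X hX
      _ = _ := by rw [Finset.sum_const, nsmul_eq_mul]
  -- bad tuples for `l`
  set bad : ι → Finset (ι → Multiset α) := fun l =>
    Ωs.filter (fun ω => (V l).card * (1 / 4 : ℝ) ^ s l < n l (y ω)) with hbad
  have hbadc : ∀ l, ((bad l).card : ℝ) ≤ Ω / 4 := by
    intro l
    have h1 : ((bad l).card : ℝ) * ((V l).card * (1 / 4 : ℝ) ^ s l) ≤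
        (V l).card * ((1 / 16) ^ s l * Ω) := by
      refine le_trans ?_ (havg l)
      calc ((bad l).card : ℝ) * ((V l).card * (1 / 4 : ℝ) ^ s l)
          = ∑ _ω ∈ bad l, ((V l).card * (1 / 4 : ℝ) ^ s l) := by
            rw [Finset.sum_const, nsmul_eq_mul]
        _ ≤ ∑ ω ∈ bad l, (n l (y ω) : ℝ) :=
            Finset.sum_le_sum fun ω hω => (Finset.mem_filter.mp hω).2.le
        _ ≤ ∑ ω ∈ Ωs, (n l (y ω) : ℝ) :=
            Finset.sum_le_sum_of_subset_of_nonneg (Finset.filter_subset _ _)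
              (fun _ _ _ => by positivity)
    have h2 : (1 / 16 : ℝ) ^ s l = (1 / 4) ^ s l * (1 / 4) ^ s l := by
      rw [← mul_pow]
      norm_num
    have h3 : (0 : ℝ) < (1 / 4) ^ s l := by positivity
    have h4 : ((bad l).card : ℝ) ≤ (1 / 4) ^ s l * Ω := by
      have h5 : ((bad l).card : ℝ) * ((V l).card * (1 / 4 : ℝ) ^ s l) ≤
          ((1 / 4) ^ s l * Ω) * ((V l).card * (1 / 4 : ℝ) ^ s l) := by
        refine h1.trans (le_of_eq ?_)
        rw [h2]
        ring
      exact le_of_mul_le_mul_right h5 (mul_pos (hVc l) h3)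
    have h5 : (1 / 4 : ℝ) ^ s l ≤ (1 / 4) ^ 1 :=
      pow_le_pow_of_le_one (by norm_num) (by norm_num) (hs1 l)
    rw [pow_one] at h5
    nlinarith
  set Wt : ℝ := ((∑ l, s l : ℕ) : ℝ) with hWt
  -- total bad weight
  set B : (ι → Multiset α) → ℝ := fun ω => ∑ l, (s l : ℝ) * (if ω ∈ bad l then 1 else 0) with hB
  have hBsum : ∑ ω ∈ Ωs, B ω ≤ Wt * (Ω / 4) := by
    rw [hB]
    simp only
    rw [Finset.sum_comm, hWt]
    push_cast
    rw [Finset.sum_mul]
    refine Finset.sum_le_sum fun l _ => ?_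
    rw [← Finset.mul_sum]
    refine mul_le_mul_of_nonneg_left ?_ (by positivity)
    rw [← Finset.sum_filter, Finset.sum_const, nsmul_eq_mul, mul_one]
    refine le_trans ?_ (hbadc l)
    have : Ωs.filter (fun ω => ω ∈ bad l) ⊆ bad l := fun ω hω => (Finset.mem_filter.mp hω).2
    exact_mod_cast Finset.card_le_card this
  -- the good set
  set Gs := Ω'.filter (fun ω => B ω ≤ Wt / 2) with hGs
  have hB0 : ∀ ω, 0 ≤ B ω := fun ω => Finset.sum_nonneg fun l _ => by
    split_ifs <;> positivity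
  have hGc : Ω / 4 ≤ (Gs.card : ℝ) := by
    rcases eq_or_lt_of_le (by positivity : 0 ≤ Wt) with hz | hpos
    · -- no families
      have h1 : Gs = Ω' := by
        rw [hGs, Finset.filter_true_of_mem]
        intro ω hω
        have h2 : B ω ≤ Wt := by
          rw [hWt, hB]
          push_cast
          refine Finset.sum_le_sum fun l _ => ?_
          split_ifs
          · simp
          · simp
        linarith
      rw [h1]
      linarith
    · have h1 : ((Ω'.filter (fun ω => ¬ B ω ≤ Wt / 2)).card : ℝ) * (Wt / 2) ≤ Wt * (Ω / 4) := by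
        refine le_trans ?_ hBsum
        calc ((Ω'.filter (fun ω => ¬ B ω ≤ Wt / 2)).card : ℝ) * (Wt / 2)
            = ∑ _ω ∈ Ω'.filter (fun ω => ¬ B ω ≤ Wt / 2), Wt / 2 := by
              rw [Finset.sum_const, nsmul_eq_mul]
          _ ≤ ∑ ω ∈ Ω'.filter (fun ω => ¬ B ω ≤ Wt / 2), B ω :=
              Finset.sum_le_sum fun ω hω => (not_le.mp (Finset.mem_filter.mp hω).2).le
          _ ≤ ∑ ω ∈ Ωs, B ω := Finset.sum_le_sum_of_subset_of_nonneg
              ((Finset.filter_subset _ _).trans hΩ') (fun ω _ _ => hB0 ω)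
      have h2 : ((Ω'.filter (fun ω => ¬ B ω ≤ Wt / 2)).card : ℝ) ≤ Ω / 2 := by
        have h3 : ((Ω'.filter (fun ω => ¬ B ω ≤ Wt / 2)).card : ℝ) * (Wt / 2) ≤
            (Ω / 2) * (Wt / 2) := by linarith
        exact le_of_mul_le_mul_right h3 (by positivity)
      have h3 : (Gs.card : ℝ) + ((Ω'.filter (fun ω => ¬ B ω ≤ Wt / 2)).card : ℝ) = Ω'.card := by
        exact_mod_cast Finset.card_filter_add_card_filter_not (s := Ω') (fun ω => B ω ≤ Wt / 2)
      linarith
  -- the fibres
  have hfib : ∀ ω ∈ Gs, ((Ωs.filter (fun ω' => y ω' = y ω)).card : ℝ) ≤ Ω / 2 ^ (∑ l, s l) := by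
    intro ω hω
    have hB1 : B ω ≤ Wt / 2 := (Finset.mem_filter.mp hω).2
    have hωs : ω ∈ Ωs := hΩ' (Finset.mem_filter.mp hω).1
    have h1 : Ωs.filter (fun ω' => y ω' = y ω) ⊆
        Fintype.piFinset fun l => (V l).filter (fun X => X ≤ y ω) := by
      intro ω' hω'
      rw [Finset.mem_filter] at hω'
      rw [Fintype.mem_piFinset]
      intro l
      rw [Finset.mem_filter]
      refine ⟨Fintype.mem_piFinset.mp hω'.1 l, ?_⟩
      rw [← hω'.2]
      exact Finset.single_le_sum (f := ω') (fun i _ => Multiset.zero_le _) (Finset.mem_univ l)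
    have h2 : ((Ωs.filter (fun ω' => y ω' = y ω)).card : ℝ) ≤ ∏ l, (n l (y ω) : ℝ) := by
      have h3 := Finset.card_le_card h1
      rw [Fintype.card_piFinset] at h3
      exact_mod_cast h3
    have h3 : ∏ l, (n l (y ω) : ℝ) ≤
        ∏ l, ((V l).card * (1 / 4 : ℝ) ^ (if ω ∈ bad l then 0 else s l)) := by
      refine Finset.prod_le_prod (fun l _ => by positivity) fun l _ => ?_
      split_ifs with hb
      · rw [pow_zero, mul_one]
        exact_mod_cast Finset.card_filter_le _ _
      · rw [hbad] at hb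
        simp only [Finset.mem_filter, not_and, not_lt] at hb
        exact hb hωs
    have h4 : ∏ l, ((V l).card * (1 / 4 : ℝ) ^ (if ω ∈ bad l then 0 else s l)) =
        Ω * (1 / 4) ^ (∑ l, if ω ∈ bad l then 0 else s l) := by
      rw [Finset.prod_mul_distrib, Finset.prod_pow_eq_pow_sum, hΩ, hΩs, Fintype.card_piFinset]
      push_cast
      rfl
    have h5 : (∑ l, s l) ≤ 2 * ∑ l, (if ω ∈ bad l then 0 else s l) := by
      have h6 : B ω + ((∑ l, (if ω ∈ bad l then 0 else s l) : ℕ) : ℝ) = Wt := by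
        rw [hB, hWt]
        push_cast
        rw [← Finset.sum_add_distrib]
        refine Finset.sum_congr rfl fun l _ => ?_
        split_ifs <;> simp
      have h7 : Wt ≤ 2 * ((∑ l, (if ω ∈ bad l then 0 else s l) : ℕ) : ℝ) := by linarith
      rw [hWt] at h7
      exact_mod_cast h7
    refine h2.trans (h3.trans ?_)
    rw [h4, div_eq_mul_inv]
    refine mul_le_mul_of_nonneg_left ?_ hΩ0.le
    rw [← inv_pow]
    calc (1 / 4 : ℝ) ^ (∑ l, if ω ∈ bad l then 0 else s l) =
          ((2 : ℝ)⁻¹) ^ (2 * ∑ l, if ω ∈ bad l then 0 else s l) := by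
            rw [pow_mul]
            norm_num
      _ ≤ _ := pow_le_pow_of_le_one (by norm_num) (by norm_num) h5
  -- conclusion
  have hcount : (Gs.card : ℝ) ≤ D * (Ω / 2 ^ (∑ l, s l)) := by
    have h1 : Gs.card = ∑ z ∈ Gs.image y, (Gs.filter (fun ω => y ω = z)).card :=
      Finset.card_eq_sum_card_image y Gs
    have h2 : (Gs.card : ℝ) = ∑ z ∈ Gs.image y, ((Gs.filter (fun ω => y ω = z)).card : ℝ) := by
      exact_mod_cast h1
    rw [h2]
    have h3 : ∀ z ∈ Gs.image y, ((Gs.filter (fun ω => y ω = z)).card : ℝ) ≤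
        Ω / 2 ^ (∑ l, s l) := by
      intro z hz
      obtain ⟨ω, hω, rfl⟩ := Finset.mem_image.mp hz
      refine le_trans ?_ (hfib ω hω)
      have : Gs.filter (fun ω' => y ω' = y ω) ⊆ Ωs.filter (fun ω' => y ω' = y ω) := by
        intro ω' hω'
        rw [Finset.mem_filter] at hω' ⊢
        exact ⟨hΩ' (Finset.mem_filter.mp hω'.1).1, hω'.2⟩
      exact_mod_cast Finset.card_le_card this
    refine (Finset.sum_le_sum h3).trans ?_
    rw [Finset.sum_const, nsmul_eq_mul]
    refine mul_le_mul_of_nonneg_right (le_trans ?_ hD) (by positivity)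
    have : Gs.image y ⊆ Ω'.image (fun ω => ∑ l, ω l) :=
      Finset.image_subset_image (Finset.filter_subset _ _)
    exact_mod_cast Finset.card_le_card this
  have h1 : Ω / 4 ≤ D * (Ω / 2 ^ (∑ l, s l)) := hGc.trans hcount
  have h2 : (0 : ℝ) < 2 ^ (∑ l, s l) := by positivity
  rw [mul_div_assoc', le_div_iff₀ h2] at h1
  have h3 : Ω * 2 ^ (∑ l, s l) ≤ Ω * (4 * D) := by linarith
  exact le_of_mul_le_mul_left h3 hΩ0

end

end Pool.Agent.H.MP_3e6494_nt
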