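import Pool.Agent.H.MP_3e6494_nt.Ms2

/-!
# Signed multisets of primes: cancellation and counting of sums
-/

set_option autoImplicit false
set_option linter.unusedSectionVars false

namespace Pool.Agent.H.MP_3e6494_nt

noncomputable section

/-- signed symbols: a number with a sign -/
abbrev Sy := ℕ × Bool

/-- the numerator -/
def Up (y : Multiset Sy) : ℕ := (y.map fun x => if x.2 then x.1 else 1).prod

/-- the denominator -/
def Dn (y : Multiset Sy) : ℕ := (y.map fun x => if x.2 then 1 else x.1).prod

theorem Up_cons (x : Sy) (y : Multiset Sy) :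
    Up (x ::ₘ y) = (if x.2 then x.1 else 1) * Up y := by simp [Up]

theorem Dn_cons (x : Sy) (y : Multiset Sy) :
    Dn (x ::ₘ y) = (if x.2 then 1 else x.1) * Dn y := by simp [Dn]

theorem Up_pos {y : Multiset Sy} (hy : ∀ x ∈ y, x.1.Prime) : 0 < Up y := by
  induction y using Multiset.induction_on with
  | empty => simp [Up]
  | cons x y ih =>
    rw [Up_cons]
    refine Nat.mul_pos ?_ (ih fun z hz => hy z (Multiset.mem_cons_of_mem hz))
    split_ifs
    · exact (hy x (Multiset.mem_cons_self x y)).pos
    · exact one_pos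

theorem Dn_pos {y : Multiset Sy} (hy : ∀ x ∈ y, x.1.Prime) : 0 < Dn y := by
  induction y using Multiset.induction_on with
  | empty => simp [Dn]
  | cons x y ih =>
    rw [Dn_cons]
    refine Nat.mul_pos ?_ (ih fun z hz => hy z (Multiset.mem_cons_of_mem hz))
    split_ifs
    · exact one_pos
    · exact (hy x (Multiset.mem_cons_self x y)).pos

theorem Up_factorization {y : Multiset Sy} (hy : ∀ x ∈ y, x.1.Prime) (p : ℕ) :
    (Up y).factorization p = y.count (p, true) := by
  induction y using Multiset.induction_on with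
  | empty => simp [Up]
  | cons x y ih =>
    have hy' : ∀ z ∈ y, z.1.Prime := fun z hz => hy z (Multiset.mem_cons_of_mem hz)
    have hx := hy x (Multiset.mem_cons_self x y)
    obtain ⟨a, b⟩ := x
    rw [Up_cons]
    rcases b with _ | _
    · simp only [Bool.false_eq_true, if_false, one_mul]
      rw [ih hy', Multiset.count_cons_of_ne]
      simp
    · simp only [if_true]
      rw [Nat.factorization_mul hx.ne_zero (Up_pos hy').ne', Finsupp.add_apply, ih hy',
        Nat.Prime.factorization hx, Multiset.count_cons]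
      by_cases h : p = a
      · subst h
        simp [add_comm]
      · rw [Finsupp.single_apply, if_neg (Ne.symm h), if_neg, zero_add, add_zero]
        simp [h]

theorem Dn_factorization {y : Multiset Sy} (hy : ∀ x ∈ y, x.1.Prime) (p : ℕ) :
    (Dn y).factorization p = y.count (p, false) := by
  induction y using Multiset.induction_on with
  | empty => simp [Dn]
  | cons x y ih =>
    have hy' : ∀ z ∈ y, z.1.Prime := fun z hz => hy z (Multiset.mem_cons_of_mem hz)
    have hx := hy x (Multiset.mem_cons_self x y)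
    obtain ⟨a, b⟩ := x
    rw [Dn_cons]
    rcases b with _ | _
    · simp only [Bool.false_eq_true, if_false]
      rw [Nat.factorization_mul hx.ne_zero (Dn_pos hy').ne', Finsupp.add_apply, ih hy',
        Nat.Prime.factorization hx, Multiset.count_cons]
      by_cases h : p = a
      · subst h
        simp [add_comm]
      · rw [Finsupp.single_apply, if_neg (Ne.symm h), if_neg, zero_add, add_zero]
        simp [h]
    · simp only [if_true, one_mul]
      rw [ih hy', Multiset.count_cons_of_ne]
      simp

/-- the pair of the numerator and the denominator determines the multiset -/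
theorem eq_of_Up_Dn {y z : Multiset Sy} (hy : ∀ x ∈ y, x.1.Prime) (hz : ∀ x ∈ z, x.1.Prime)
    (h1 : Up y = Up z) (h2 : Dn y = Dn z) : y = z := by
  ext x
  obtain ⟨p, b⟩ := x
  rcases b with _ | _
  · rw [← Dn_factorization hy, ← Dn_factorization hz, h2]
  · rw [← Up_factorization hy, ← Up_factorization hz, h1]

/-- the size of the numerator in terms of the norm -/
theorem log_Up_le {y : Multiset Sy} (hy : ∀ x ∈ y, x.1.Prime) {ν : ℕ → ℕ} {C : ℝ}
    (hC : ∀ x ∈ y, Real.log x.1 ≤ C * ν x.1) (hC0 : 0 ≤ C) :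
    Real.log (Up y) ≤ C * nm (fun x : Sy => ν x.1) y := by
  induction y using Multiset.induction_on with
  | empty => simp [Up]
  | cons x y ih =>
    have hy' : ∀ z ∈ y, z.1.Prime := fun z hz => hy z (Multiset.mem_cons_of_mem hz)
    have hx := hy x (Multiset.mem_cons_self x y)
    have ih' := ih hy' fun z hz => hC z (Multiset.mem_cons_of_mem hz)
    have hCx := hC x (Multiset.mem_cons_self x y)
    have hU0 : (Up y : ℝ) ≠ 0 := by exact_mod_cast (Up_pos hy').ne'
    rw [Up_cons, nm_cons]
    push_cast
    split_ifs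
    · rw [Real.log_mul (by exact_mod_cast hx.ne_zero) hU0]
      linarith
    · rw [one_mul]
      have : 0 ≤ C * (ν x.1 : ℝ) := by positivity
      linarith

theorem log_Dn_le {y : Multiset Sy} (hy : ∀ x ∈ y, x.1.Prime) {ν : ℕ → ℕ} {C : ℝ}
    (hC : ∀ x ∈ y, Real.log x.1 ≤ C * ν x.1) (hC0 : 0 ≤ C) :
    Real.log (Dn y) ≤ C * nm (fun x : Sy => ν x.1) y := by
  induction y using Multiset.induction_on with
  | empty => simp [Dn]
  | cons x y ih =>
    have hy' : ∀ z ∈ y, z.1.Prime := fun z hz => hy z (Multiset.mem_cons_of_mem hz)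
    have hx := hy x (Multiset.mem_cons_self x y)
    have ih' := ih hy' fun z hz => hC z (Multiset.mem_cons_of_mem hz)
    have hCx := hC x (Multiset.mem_cons_self x y)
    have hU0 : (Dn y : ℝ) ≠ 0 := by exact_mod_cast (Dn_pos hy').ne'
    rw [Dn_cons, nm_cons]
    push_cast
    split_ifs
    · rw [one_mul]
      have : 0 ≤ C * (ν x.1 : ℝ) := by positivity
      linarith
    · rw [Real.log_mul (by exact_mod_cast hx.ne_zero) hU0]
      linarith

/-- the logarithm of the gcd -/
theorem log_gcd_le {y : Multiset Sy} (hy : ∀ x ∈ y, x.1.Prime) {A : Finset ℕ}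
    (hA : ∀ x ∈ y, x.1 ∈ A) :
    Real.log (Nat.gcd (Up y) (Dn y)) ≤
      ∑ p ∈ A, (min (y.count (p, true)) (y.count (p, false)) : ℕ) * Real.log p := by
  have hU := Up_pos hy
  have hD := Dn_pos hy
  have hfac : ∀ p, (Nat.gcd (Up y) (Dn y)).factorization p =
      min (y.count (p, true)) (y.count (p, false)) := by
    intro p
    rw [Nat.factorization_gcd hU.ne' hD.ne', Finsupp.inf_apply, Up_factorization hy,
      Dn_factorization hy]
  rw [Real.log_nat_eq_sum_factorization, Finsupp.sum]
  refine le_of_eq_of_le (Finset.sum_congr rfl fun p _ => by rw [hfac]) ?_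
  refine Finset.sum_le_sum_of_subset_of_nonneg ?_ ?_
  · intro p hp
    rw [Finsupp.mem_support_iff, hfac] at hp
    have h1 : 0 < y.count (p, true) := by omega
    exact hA _ (Multiset.count_pos.mp h1)
  · intro p _ _
    refine mul_nonneg (by positivity) ?_
    rcases Nat.eq_zero_or_pos p with rfl | h
    · simp
    · exact Real.log_nonneg (by exact_mod_cast h)

/-- reduced signed multisets -/
def red (X : Multiset Sy) : Prop := ∀ p, ¬ ((p, true) ∈ X ∧ (p, false) ∈ X)

variable {ι : Type*} [Fintype ι] [DecidableEq ι]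

/-- the deterministic bound for the cancellation in a sum of reduced multisets -/
theorem min_count_le {ω : ι → Multiset Sy} (h : ∀ l, red (ω l)) (p : ℕ) :
    ((min ((∑ l, ω l).count (p, true)) ((∑ l, ω l).count (p, false)) : ℕ) : ℝ) ≤
      ∑ l, ((ω l).count (p, true) : ℝ) *
        ∑ l' ∈ Finset.univ.erase l, (if {(p, false)} ≤ ω l' then (1 : ℝ) else 0) := by
  by_cases h0 : ∃ l', (p, false) ∈ ω l'
  · obtain ⟨l', hl'⟩ := h0
    have h1 : ((min ((∑ l, ω l).count (p, true)) ((∑ l, ω l).count (p, false)) : ℕ) : ℝ) ≤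
        ∑ l, ((ω l).count (p, true) : ℝ) := by
      have : min ((∑ l, ω l).count (p, true)) ((∑ l, ω l).count (p, false)) ≤
          ∑ l, (ω l).count (p, true) := by
        rw [← Multiset.count_sum']
        exact min_le_left _ _
      exact_mod_cast this
    refine h1.trans (Finset.sum_le_sum fun l _ => ?_)
    rcases eq_or_ne l l' with rfl | hne
    · have h2 : (ω l).count (p, true) = 0 := by
        rw [Multiset.count_eq_zero]
        intro h3
        exact h l p ⟨h3, hl'⟩
      rw [h2]
      simp
    · have h2 : (1 : ℝ) ≤ ∑ l' ∈ Finset.univ.erase l,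
          (if {(p, false)} ≤ ω l' then (1 : ℝ) else 0) := by
        have h3 := Finset.single_le_sum (f := fun l' => if {(p, false)} ≤ ω l' then (1 : ℝ) else 0)
          (fun i _ => by split_ifs <;> norm_num)
          (Finset.mem_erase.mpr ⟨hne.symm, Finset.mem_univ l'⟩)
        rwa [if_pos (Multiset.singleton_le.mpr hl')] at h3
      nlinarith [(by positivity : (0 : ℝ) ≤ (ω l).count (p, true))]
  · push Not at h0
    have h1 : (∑ l, ω l).count (p, false) = 0 := by
      rw [Multiset.count_eq_zero, Multiset.mem_sum]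
      rintro ⟨l, _, hl⟩
      exact h0 l hl
    rw [h1, Nat.min_zero]
    push_cast
    refine Finset.sum_nonneg fun l _ => mul_nonneg (by positivity) (Finset.sum_nonneg fun i _ => ?_)
    split_ifs <;> norm_num

/-- the cancellation functional -/
def canc (A : Finset ℕ) (ω : ι → Multiset Sy) : ℝ :=
  ∑ p ∈ A, (∑ l, ((ω l).count (p, true) : ℝ) *
        ∑ l' ∈ Finset.univ.erase l, (if {(p, false)} ≤ ω l' then (1 : ℝ) else 0)) * Real.log p

theorem canc_nonneg (A : Finset ℕ) (ω : ι → Multiset Sy) : 0 ≤ canc A ω := by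
  unfold canc
  refine Finset.sum_nonneg fun p _ => mul_nonneg (Finset.sum_nonneg fun l _ =>
    mul_nonneg (by positivity) (Finset.sum_nonneg fun i _ => by split_ifs <;> norm_num)) ?_
  rcases Nat.eq_zero_or_pos p with rfl | h
  · simp
  · exact Real.log_nonneg (by exact_mod_cast h)

theorem log_gcd_le_canc {A : Finset ℕ} {ω : ι → Multiset Sy} (h : ∀ l, red (ω l))
    (hp : ∀ l, ∀ x ∈ ω l, x.1.Prime ∧ x.1 ∈ A) :
    Real.log (Nat.gcd (Up (∑ l, ω l)) (Dn (∑ l, ω l))) ≤ canc A ω := by
  have h1 : ∀ x ∈ ∑ l, ω l, x.1.Prime ∧ x.1 ∈ A := by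
    intro x hx
    rw [Multiset.mem_sum] at hx
    obtain ⟨l, _, hl⟩ := hx
    exact hp l x hl
  refine (log_gcd_le (fun x hx => (h1 x hx).1) fun x hx => (h1 x hx).2).trans ?_
  unfold canc
  refine Finset.sum_le_sum fun p _ => mul_le_mul_of_nonneg_right (min_count_le h p) ?_
  rcases Nat.eq_zero_or_pos p with rfl | h
  · simp
  · exact Real.log_nonneg (by exact_mod_cast h)

theorem sum_ind {V : ι → Finset (Multiset Sy)} (hne : ∀ l, (V l).Nonempty) (l : ι)
    (T : Multiset Sy) :
    ∑ ω ∈ Fintype.piFinset V, (if T ≤ ω l then (1 : ℝ) else 0) =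
      prp (V l) T * (Fintype.piFinset V).card := by
  have h1 := indep_prp hne (l := l) (J := ∅) (Finset.notMem_empty l) T 0
  rw [cov_zero] at h1
  rw [← h1]
  refine Finset.sum_congr rfl fun ω _ => ?_
  simp

/-- the expected cancellation -/
theorem canc_sum {V : ι → Finset (Multiset Sy)} (hne : ∀ l, (V l).Nonempty) (A : Finset ℕ)
    {Θ C : ℝ} (hΘ0 : 0 ≤ Θ) (pop : ∀ p, ∑ l, prp (V l) {(p, false)} ≤ Θ) {ν : ℕ → ℕ}
    (hC0 : 0 ≤ C) {s : ι → ℕ} (hs : ∀ l, ∀ X ∈ V l, nm (fun x : Sy => ν x.1) X = s l)
    (hC : ∀ l, ∀ X ∈ V l, ∀ x ∈ X, Real.log x.1 ≤ C * ν x.1) :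
    ∑ ω ∈ Fintype.piFinset V, canc A ω ≤ C * Θ * (∑ l, (s l : ℝ)) * (Fintype.piFinset V).card := by
  set Ω : ℝ := ((Fintype.piFinset V).card : ℝ) with hΩ
  have hlog : ∀ p : ℕ, 0 ≤ Real.log p := by
    intro p
    rcases Nat.eq_zero_or_pos p with rfl | h
    · simp
    · exact Real.log_nonneg (by exact_mod_cast h)
  -- one family, one prime
  have h1 : ∀ l : ι, ∀ p : ℕ, ∑ ω ∈ Fintype.piFinset V, ((ω l).count (p, true) : ℝ) *
      ∑ l' ∈ Finset.univ.erase l, (if {(p, false)} ≤ ω l' then (1 : ℝ) else 0) ≤
      (∑ X ∈ V l, (X.count (p, true) : ℝ)) / (V l).card * (Θ * Ω) := by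
    intro l p
    have hV0 : (0 : ℝ) < (V l).card := by exact_mod_cast Finset.card_pos.mpr (hne l)
    have h2 := pi_indep V l (fun X => (X.count (p, true) : ℝ))
      (fun ω => ∑ l' ∈ Finset.univ.erase l, (if {(p, false)} ≤ ω l' then (1 : ℝ) else 0)) (by
        intro ω x
        refine Finset.sum_congr rfl fun l' hl' => ?_
        rw [Function.update_of_ne (Finset.ne_of_mem_erase hl')])
    have h3 : ∑ ω ∈ Fintype.piFinset V, ∑ l' ∈ Finset.univ.erase l,
        (if {(p, false)} ≤ ω l' then (1 : ℝ) else 0) ≤ Θ * Ω := by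
      rw [Finset.sum_comm, Finset.sum_congr rfl fun l' _ => sum_ind hne l' {(p, false)},
        ← Finset.sum_mul]
      refine mul_le_mul_of_nonneg_right ?_ (by positivity)
      refine le_trans ?_ (pop p)
      exact Finset.sum_le_sum_of_subset_of_nonneg (Finset.subset_univ _)
        (fun l _ _ => prp_nonneg _ _)
    rw [div_mul_eq_mul_div, le_div_iff₀ hV0, h2]
    exact mul_le_mul_of_nonneg_left h3 (Finset.sum_nonneg fun X _ => by positivity)
  have h2 : ∑ ω ∈ Fintype.piFinset V, canc A ω ≤
      ∑ l, ∑ p ∈ A, (∑ X ∈ V l, (X.count (p, true) : ℝ)) / (V l).card * (Θ * Ω) * Real.log p := by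
    unfold canc
    rw [Finset.sum_comm]
    rw [Finset.sum_comm (s := Finset.univ)]
    refine Finset.sum_le_sum fun p _ => ?_
    rw [← Finset.sum_mul, ← Finset.sum_mul, Finset.sum_comm]
    exact mul_le_mul_of_nonneg_right (Finset.sum_le_sum fun l _ => h1 l p) (hlog p)
  refine h2.trans ?_
  rw [show C * Θ * (∑ l, (s l : ℝ)) * Ω = ∑ l, (s l : ℝ) * (C * (Θ * Ω)) by
    rw [← Finset.sum_mul]; ring]
  refine Finset.sum_le_sum fun l _ => ?_
  have hV0 : (0 : ℝ) < (V l).card := by exact_mod_cast Finset.card_pos.mpr (hne l)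
  -- the inner sum over the primes
  have h3 : ∀ X : Multiset Sy, (∀ x ∈ X, Real.log x.1 ≤ C * ν x.1) →
      ∑ p ∈ A, (X.count (p, true) : ℝ) * Real.log p ≤ C * nm (fun x : Sy => ν x.1) X := by
    intro X
    induction X using Multiset.induction_on with
    | empty => intro _; simp
    | cons x X ih =>
      intro hX
      have ih' := ih fun z hz => hX z (Multiset.mem_cons_of_mem hz)
      have hCx := hX x (Multiset.mem_cons_self x X)
      obtain ⟨a, b⟩ := x
      simp only at hCx
      rw [nm_cons]
      push_cast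
      have h4 : ∑ p ∈ A, (((a, b) ::ₘ X).count (p, true) : ℝ) * Real.log p ≤
          ∑ p ∈ A, (X.count (p, true) : ℝ) * Real.log p + Real.log a := by
        have h5 : ∀ p ∈ A, (((a, b) ::ₘ X).count (p, true) : ℝ) * Real.log p ≤
            (X.count (p, true) : ℝ) * Real.log p + (if p = a then Real.log a else 0) := by
          intro p _
          rw [Multiset.count_cons]
          by_cases h6 : p = a
          · subst h6
            rw [if_pos rfl]
            push_cast
            have h7 := hlog p
            split_ifs <;> nlinarith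
          · rw [if_neg, if_neg h6]
            · simp
            · rintro h7
              exact h6 (Prod.mk.inj h7).1
        refine (Finset.sum_le_sum h5).trans ?_
        rw [Finset.sum_add_distrib]
        have h6 : ∑ p ∈ A, (if p = a then Real.log a else 0) ≤ Real.log a := by
          rw [Finset.sum_ite_eq']
          split_ifs
          · exact le_rfl
          · exact hlog a
        linarith
      linarith
  calc ∑ p ∈ A, (∑ X ∈ V l, (X.count (p, true) : ℝ)) / (V l).card * (Θ * Ω) * Real.log p
      = (∑ X ∈ V l, ∑ p ∈ A, (X.count (p, true) : ℝ) * Real.log p) / (V l).card * (Θ * Ω) := by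
        rw [Finset.sum_comm, div_mul_eq_mul_div, Finset.sum_mul, Finset.sum_div]
        refine Finset.sum_congr rfl fun p _ => ?_
        rw [← Finset.sum_mul]
        ring
    _ ≤ (∑ _X ∈ V l, C * s l) / (V l).card * (Θ * Ω) := by
        have : ∀ X ∈ V l, ∑ p ∈ A, (X.count (p, true) : ℝ) * Real.log p ≤ C * s l := by
          intro X hX
          have := h3 X (hC l X hX)
          rwa [hs l X hX] at this
        gcongr with X hX
        exact this X hX
    _ = (s l : ℝ) * (C * (Θ * Ω)) := by
        rw [Finset.sum_const, nsmul_eq_mul]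
        field_simp

end

end Pool.Agent.H.MP_3e6494_nt
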