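import Pool.Agent.H.MP_3e6494_nt.Ms3

/-!
# Families in cosets: counting of sums, spreadness, and the contradiction
-/

set_option autoImplicit false
set_option linter.unusedSectionVars false

namespace Pool.Agent.H.MP_3e6494_nt

noncomputable section

variable {q : ℕ} [hq : Fact q.Prime]

open Classical in
/-- the class of a natural number as a unit -/
def uq (q n : ℕ) : (ZMod q)ˣ := if h : IsUnit ((n : ℕ) : ZMod q) then h.unit else 1

theorem uq_val {n : ℕ} (h : IsUnit ((n : ℕ) : ZMod q)) : ((uq q n : (ZMod q)ˣ) : ZMod q) = n := by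
  unfold uq
  rw [dif_pos h]
  exact IsUnit.unit_spec h

theorem uq_mul {a b : ℕ} (ha : IsUnit ((a : ℕ) : ZMod q)) (hb : IsUnit ((b : ℕ) : ZMod q)) :
    uq q (a * b) = uq q a * uq q b := by
  have hab : IsUnit ((a * b : ℕ) : ZMod q) := by
    push_cast
    exact ha.mul hb
  ext
  rw [uq_val hab, Units.val_mul, uq_val ha, uq_val hb]
  push_cast
  rfl

theorem isUnit_of_lt {p : ℕ} (h0 : 0 < p) (hp : p < q) : IsUnit ((p : ℕ) : ZMod q) := by
  refine IsUnit.mk0 _ ?_
  intro h
  rw [ZMod.natCast_eq_zero_iff] at h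
  exact absurd (Nat.le_of_dvd h0 h) (not_le.mpr hp)

theorem isUnit_Up {y : Multiset Sy} (hy : ∀ x ∈ y, x.1.Prime ∧ x.1 < q) :
    IsUnit ((Up y : ℕ) : ZMod q) := by
  induction y using Multiset.induction_on with
  | empty => simp [Up]
  | cons x y ih =>
    rw [Up_cons]
    push_cast
    refine IsUnit.mul ?_ (ih fun z hz => hy z (Multiset.mem_cons_of_mem hz))
    split_ifs
    · have := hy x (Multiset.mem_cons_self x y)
      exact isUnit_of_lt this.1.pos this.2
    · exact isUnit_one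

theorem isUnit_Dn {y : Multiset Sy} (hy : ∀ x ∈ y, x.1.Prime ∧ x.1 < q) :
    IsUnit ((Dn y : ℕ) : ZMod q) := by
  induction y using Multiset.induction_on with
  | empty => simp [Dn]
  | cons x y ih =>
    rw [Dn_cons]
    push_cast
    refine IsUnit.mul ?_ (ih fun z hz => hy z (Multiset.mem_cons_of_mem hz))
    split_ifs
    · exact isUnit_one
    · have := hy x (Multiset.mem_cons_self x y)
      exact isUnit_of_lt this.1.pos this.2

/-- the class modulo `K` of a signed multiset -/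
def cl (K : Subgroup (ZMod q)ˣ) (y : Multiset Sy) : (ZMod q)ˣ ⧸ K :=
  (y.map fun x => if x.2 then (QuotientGroup.mk (uq q x.1) : (ZMod q)ˣ ⧸ K)
    else (QuotientGroup.mk (uq q x.1))⁻¹).prod

variable {K : Subgroup (ZMod q)ˣ}

theorem cl_add (y z : Multiset Sy) : cl K (y + z) = cl K y * cl K z := by
  simp [cl]

theorem cl_cons (x : Sy) (y : Multiset Sy) : cl K (x ::ₘ y) =
    (if x.2 then (QuotientGroup.mk (uq q x.1) : (ZMod q)ˣ ⧸ K)
      else (QuotientGroup.mk (uq q x.1))⁻¹) * cl K y := by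
  simp [cl]

theorem cl_sum {ι : Type*} (s : Finset ι) (f : ι → Multiset Sy) :
    cl K (∑ i ∈ s, f i) = ∏ i ∈ s, cl K (f i) := by
  classical
  induction s using Finset.induction_on with
  | empty => simp [cl]
  | insert a s ha ih => rw [Finset.sum_insert ha, Finset.prod_insert ha, cl_add, ih]

theorem cl_eq {y : Multiset Sy} (hy : ∀ x ∈ y, x.1.Prime ∧ x.1 < q) :
    cl K y = QuotientGroup.mk (uq q (Up y) * (uq q (Dn y))⁻¹) := by
  induction y using Multiset.induction_on with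
  | empty =>
    have h1 : uq q 1 = 1 := by
      ext
      rw [uq_val (by simp)]
      simp
    simp [cl, Up, Dn, h1]
  | cons x y ih =>
    have hy' : ∀ z ∈ y, z.1.Prime ∧ z.1 < q := fun z hz => hy z (Multiset.mem_cons_of_mem hz)
    have hx := hy x (Multiset.mem_cons_self x y)
    have hxu := isUnit_of_lt (q := q) hx.1.pos hx.2
    rw [cl_cons, ih hy', Up_cons, Dn_cons]
    split_ifs
    · rw [uq_mul hxu (isUnit_Up hy'), one_mul, ← QuotientGroup.mk_mul, mul_assoc]
    · rw [uq_mul hxu (isUnit_Dn hy'), one_mul, ← QuotientGroup.mk_inv, ← QuotientGroup.mk_mul,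
        mul_inv]
      congr 1
      rw [← mul_assoc, mul_comm (uq q x.1)⁻¹, mul_assoc]

/-- **The number of sums.** -/
theorem count_y (Y : Finset (Multiset Sy)) (hp : ∀ y ∈ Y, ∀ x ∈ y, x.1.Prime ∧ x.1 < q)
    (c : (ZMod q)ˣ ⧸ K) (hc : ∀ y ∈ Y, cl K y = c) {G M : ℕ}
    (hG : ∀ y ∈ Y, Nat.gcd (Up y) (Dn y) ≤ G) (hM : ∀ y ∈ Y, Up y ≤ M ∧ Dn y ≤ M)
    (hMq : M * M < q) : Y.card ≤ Nat.card K * G := by
  classical
  rcases Y.eq_empty_or_nonempty with rfl | ⟨y₀, hy₀⟩
  · simp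
  set w : Multiset Sy → (ZMod q)ˣ := fun y => uq q (Up y) * (uq q (Dn y))⁻¹ with hw
  have hK : ∀ y ∈ Y, (w y₀)⁻¹ * w y ∈ K := by
    intro y hy
    rw [← QuotientGroup.eq, ← cl_eq (hp y₀ hy₀), ← cl_eq (hp y hy), hc y₀ hy₀, hc y hy]
  have hcard : (Finset.univ ×ˢ Finset.Icc 1 G : Finset (K × ℕ)).card = Nat.card K * G := by
    rw [Finset.card_product, Finset.card_univ, Nat.card_Icc, Nat.card_eq_fintype_card]
    simp
  rw [← hcard]
  refine Finset.card_le_card_of_injOn
    (fun y => (if h : (w y₀)⁻¹ * w y ∈ K then (⟨_, h⟩ : K) else 1, Nat.gcd (Up y) (Dn y))) ?_ ?_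
  · intro y hy
    rw [Finset.mem_coe, Finset.mem_product, Finset.mem_Icc]
    refine ⟨Finset.mem_univ _, ?_, hG y hy⟩
    exact Nat.gcd_pos_of_pos_left _ (Up_pos fun x hx => (hp y hy x hx).1)
  · intro y hy z hz hyz
    have hy' := Finset.mem_coe.mp hy
    have hz' := Finset.mem_coe.mp hz
    simp only [Prod.mk.injEq] at hyz
    obtain ⟨h1, h2⟩ := hyz
    rw [dif_pos (hK y hy'), dif_pos (hK z hz')] at h1
    have h3 : w y = w z := mul_left_cancel (Subtype.mk.inj h1)
    -- the products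
    have hUy := isUnit_Up (hp y hy')
    have hDy := isUnit_Dn (hp y hy')
    have hUz := isUnit_Up (hp z hz')
    have hDz := isUnit_Dn (hp z hz')
    have h4 : uq q (Up y) * uq q (Dn z) = uq q (Up z) * uq q (Dn y) := by
      rw [hw] at h3
      simp only at h3
      rw [mul_inv_eq_iff_eq_mul] at h3
      rw [h3, mul_assoc, mul_comm (uq q (Dn y)), ← mul_assoc, inv_mul_cancel_right]
    have h5 : ((Up y * Dn z : ℕ) : ZMod q) = ((Up z * Dn y : ℕ) : ZMod q) := by
      push_cast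
      rw [← uq_val hUy, ← uq_val hDz, ← uq_val hUz, ← uq_val hDy, ← Units.val_mul, h4,
        Units.val_mul]
    have h6 : Up y * Dn z = Up z * Dn y := by
      have h7 := (ZMod.natCast_eq_natCast_iff' _ _ _).mp h5
      rwa [Nat.mod_eq_of_lt (lt_of_le_of_lt (Nat.mul_le_mul (hM y hy').1 (hM z hz').2) hMq),
        Nat.mod_eq_of_lt (lt_of_le_of_lt (Nat.mul_le_mul (hM z hz').1 (hM y hy').2) hMq)] at h7
    -- reduced fractions
    have hUy0 := Up_pos fun x hx => (hp y hy' x hx).1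
    have hUz0 := Up_pos fun x hx => (hp z hz' x hx).1
    set g := Nat.gcd (Up y) (Dn y) with hg
    have hg0 : 0 < g := Nat.gcd_pos_of_pos_left _ hUy0
    obtain ⟨a, ha⟩ : g ∣ Up y := Nat.gcd_dvd_left _ _
    obtain ⟨b, hb⟩ : g ∣ Dn y := Nat.gcd_dvd_right _ _
    obtain ⟨a', ha'⟩ : g ∣ Up z := h2 ▸ Nat.gcd_dvd_left _ _
    obtain ⟨b', hb'⟩ : g ∣ Dn z := h2 ▸ Nat.gcd_dvd_right _ _
    have hab : Nat.Coprime a b := by
      have : g * Nat.gcd a b = g * 1 := by
        rw [← Nat.gcd_mul_left, ← ha, ← hb, mul_one]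
      exact Nat.eq_of_mul_eq_mul_left hg0 this
    have hab' : Nat.Coprime a' b' := by
      have : g * Nat.gcd a' b' = g * 1 := by
        rw [← Nat.gcd_mul_left, ← ha', ← hb', mul_one]
        exact h2.symm
      exact Nat.eq_of_mul_eq_mul_left hg0 this
    have h7 : a * b' = a' * b := by
      rw [ha, hb, ha', hb'] at h6
      have : (g * g) * (a * b') = (g * g) * (a' * b) := by
        calc (g * g) * (a * b') = g * a * (g * b') := by ring
          _ = g * a' * (g * b) := h6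
          _ = _ := by ring
      exact Nat.eq_of_mul_eq_mul_left (Nat.mul_pos hg0 hg0) this
    have ha0 : 0 < a := by
      rcases Nat.eq_zero_or_pos a with h | h
      · rw [ha, h, mul_zero] at hUy0
        exact absurd hUy0 (lt_irrefl _)
      · exact h
    have h8 : a ∣ a' := hab.dvd_of_dvd_mul_right (Dvd.intro _ h7)
    have h9 : a' ∣ a := hab'.dvd_of_dvd_mul_right (Dvd.intro _ h7.symm)
    have h10 : a = a' := Nat.dvd_antisymm h8 h9
    have h11 : b = b' := by
      rw [h10] at h7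
      rw [h10] at ha0
      exact (Nat.eq_of_mul_eq_mul_left ha0 h7).symm
    refine eq_of_Up_Dn (fun x hx => (hp y hy' x hx).1) (fun x hx => (hp z hz' x hx).1) ?_ ?_
    · rw [ha, ha', h10]
    · rw [hb, hb', h11]

/-! ## The families -/

/-- the norm of a signed multiset -/
abbrev sn (ν : ℕ → ℕ) (X : Multiset Sy) : ℕ := nm (fun x : Sy => ν x.1) X

/-- multisets of norm `s` over the signed elements of `P` -/
def base (P : Finset ℕ) (ν : ℕ → ℕ) (s : ℕ) : Finset (Multiset Sy) :=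
  ((s • (P ×ˢ (Finset.univ : Finset Bool)).val).powerset.toFinset).filter (fun X => sn ν X = s)

theorem mem_base {P : Finset ℕ} {ν : ℕ → ℕ} (hν : ∀ p, 1 ≤ ν p) {s : ℕ} {X : Multiset Sy} :
    X ∈ base P ν s ↔ (∀ x ∈ X, x.1 ∈ P) ∧ sn ν X = s := by
  unfold base
  rw [Finset.mem_filter, Multiset.mem_toFinset, Multiset.mem_powerset]
  constructor
  · rintro ⟨h1, h2⟩
    refine ⟨fun x hx => ?_, h2⟩
    have h3 := Multiset.mem_of_le h1 hx
    have h4 := Multiset.mem_of_mem_nsmul h3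
    rw [Finset.mem_val, Finset.mem_product] at h4
    exact h4.1
  · rintro ⟨h1, h2⟩
    refine ⟨?_, h2⟩
    rw [Multiset.le_iff_count]
    intro x
    rw [Multiset.count_nsmul]
    by_cases hx : x ∈ X
    · have h3 : (P ×ˢ (Finset.univ : Finset Bool)).val.count x = 1 := by
        refine Multiset.count_eq_one_of_mem (Finset.nodup _) ?_
        rw [Finset.mem_val, Finset.mem_product]
        exact ⟨h1 x hx, Finset.mem_univ _⟩
      rw [h3, mul_one]
      calc X.count x ≤ X.card := Multiset.count_le_card x X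
        _ ≤ sn ν X := card_le_nm (fun x => hν x.1) X
        _ = s := h2
    · rw [Multiset.count_eq_zero.mpr hx]
      exact Nat.zero_le _

open Classical in
/-- reduced multisets of norm `s` avoiding `E` in the class `c` -/
def fml (K : Subgroup (ZMod q)ˣ) (P : Finset ℕ) (ν : ℕ → ℕ) (E : Finset ℕ) (s : ℕ)
    (c : (ZMod q)ˣ ⧸ K) : Finset (Multiset Sy) :=
  (base P ν s).filter (fun X => red X ∧ (∀ x ∈ X, x.1 ∉ E) ∧ cl K X = c)

open Classical in
theorem mem_fml {P : Finset ℕ} {ν : ℕ → ℕ} (hν : ∀ p, 1 ≤ ν p) {E : Finset ℕ} {s : ℕ}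
    {c : (ZMod q)ˣ ⧸ K} {X : Multiset Sy} :
    X ∈ fml K P ν E s c ↔ ((∀ x ∈ X, x.1 ∈ P) ∧ sn ν X = s) ∧ red X ∧ (∀ x ∈ X, x.1 ∉ E) ∧
      cl K X = c := by
  unfold fml
  rw [Finset.mem_filter, mem_base hν]

/-- a norm is bad if some class contains too many multisets -/
def Bad (K : Subgroup (ZMod q)ˣ) (P : Finset ℕ) (ν : ℕ → ℕ) (θ : ℝ) (E : Finset ℕ) (s : ℕ) :
    Prop := ∃ c, θ ^ s < (fml K P ν E s c).card

variable {P : Finset ℕ} {ν : ℕ → ℕ} {θ : ℝ}

theorem Bad.mono (hν : ∀ p, 1 ≤ ν p) {E E' : Finset ℕ} (h : E ⊆ E') {s : ℕ}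
    (hb : Bad K P ν θ E' s) : Bad K P ν θ E s := by
  obtain ⟨c, hc⟩ := hb
  refine ⟨c, lt_of_lt_of_le hc ?_⟩
  have : fml K P ν E' s c ⊆ fml K P ν E s c := by
    intro X hX
    rw [mem_fml hν] at hX ⊢
    exact ⟨hX.1, hX.2.1, fun x hx hxE => hX.2.2.1 x hx (h hxE), hX.2.2.2⟩
  exact_mod_cast Finset.card_le_card this

theorem not_bad_zero (hν : ∀ p, 1 ≤ ν p) {E : Finset ℕ} : ¬ Bad K P ν θ E 0 := by
  rintro ⟨c, hc⟩
  rw [pow_zero] at hc
  have h1 : fml K P ν E 0 c ⊆ {0} := by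
    intro X hX
    rw [mem_fml hν] at hX
    rw [Finset.mem_singleton, ← Multiset.card_eq_zero]
    have h2 := card_le_nm (fun x : Sy => hν x.1) X
    have h3 : nm (fun x : Sy => ν x.1) X = 0 := hX.1.2
    omega
  have h2 := Finset.card_le_card h1
  rw [Finset.card_singleton] at h2
  have : ((fml K P ν E 0 c).card : ℝ) ≤ 1 := by exact_mod_cast h2
  linarith

/-- **Spreadness of minimal bad families.** -/
theorem spread_of_min (hν : ∀ p, 1 ≤ ν p) (hθ : 0 < θ) {E : Finset ℕ} {s : ℕ}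
    {c : (ZMod q)ˣ ⧸ K} (hbad : θ ^ s < (fml K P ν E s c).card)
    (hmin : ∀ s' < s, ¬ Bad K P ν θ E s') (T : Multiset Sy) :
    prp (fml K P ν E s c) T ≤ (θ⁻¹) ^ sn ν T := by
  classical
  have hc0 : (0 : ℝ) < (fml K P ν E s c).card := lt_trans (by positivity) hbad
  rcases Multiset.empty_or_exists_mem T with rfl | ⟨x, hx⟩
  · rw [show sn ν 0 = 0 from nm_zero, pow_zero]
    exact prp_le_one _ _
  have hT1 : 1 ≤ sn ν T := by
    have h1 := card_le_nm (fun x : Sy => hν x.1) T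
    have h2 : 0 < T.card := Multiset.card_pos_iff_exists_mem.mpr ⟨x, hx⟩
    exact le_trans h2 h1
  rcases ((fml K P ν E s c).filter (fun X => T ≤ X)).eq_empty_or_nonempty with h0 | ⟨X₀, hX₀⟩
  · unfold prp
    rw [h0, Finset.card_empty, Nat.cast_zero, zero_div]
    positivity
  have hTs : sn ν T ≤ s := by
    rw [Finset.mem_filter, mem_fml hν] at hX₀
    have h1 := nm_sub (ν := fun x : Sy => ν x.1) hX₀.2
    have h2 : nm (fun x : Sy => ν x.1) X₀ = s := hX₀.1.1.2
    change nm (fun x : Sy => ν x.1) T ≤ s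
    omega
  have hs' : s - sn ν T < s := by omega
  have hnb := hmin _ hs'
  unfold Bad at hnb
  push Not at hnb
  have hcl : ∀ X : Multiset Sy, T ≤ X → cl K (X - T) = cl K X * (cl K T)⁻¹ := by
    intro X hX
    have h1 : cl K X = cl K (X - T) * cl K T := by
      rw [← cl_add, tsub_add_cancel_of_le hX]
    rw [h1, mul_inv_cancel_right]
  have hcard : ((fml K P ν E s c).filter (fun X => T ≤ X)).card ≤
      (fml K P ν E (s - sn ν T) (c * (cl K T)⁻¹)).card := by
    refine Finset.card_le_card_of_injOn (fun X => X - T) ?_ ?_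
    · intro X hX
      rw [Finset.mem_coe, Finset.mem_filter, mem_fml hν] at hX
      obtain ⟨⟨⟨a1, a2⟩, a3, a4, a5⟩, a6⟩ := hX
      have hsub : ∀ x, x ∈ X - T → x ∈ X := fun x hx =>
        Multiset.mem_of_le (Multiset.sub_le_self X T) hx
      rw [Finset.mem_coe, mem_fml hν]
      refine ⟨⟨fun x hx => a1 x (hsub x hx), ?_⟩, ?_, fun x hx => a4 x (hsub x hx), ?_⟩
      · have h1 := nm_sub (ν := fun x : Sy => ν x.1) a6
        have h2 : nm (fun x : Sy => ν x.1) X = s := a2
        change nm (fun x : Sy => ν x.1) (X - T) = s - nm (fun x : Sy => ν x.1) T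
        omega
      · intro p hp
        exact a3 p ⟨hsub _ hp.1, hsub _ hp.2⟩
      · rw [hcl X a6, a5]
    · intro X hX Y hY hXY
      rw [Finset.mem_coe, Finset.mem_filter] at hX hY
      simp only at hXY
      rw [← tsub_add_cancel_of_le hX.2, ← tsub_add_cancel_of_le hY.2, hXY]
  unfold prp
  rw [div_le_iff₀ hc0]
  have h1 : (((fml K P ν E s c).filter (fun X => T ≤ X)).card : ℝ) ≤ θ ^ (s - sn ν T) :=
    le_trans (by exact_mod_cast hcard) (hnb _)
  refine h1.trans ?_
  have h2 : θ ^ (s - sn ν T) = θ⁻¹ ^ sn ν T * θ ^ s := by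
    have h3 : θ ^ s = θ ^ (s - sn ν T) * θ ^ sn ν T := by
      rw [← pow_add]
      congr 1
      omega
    rw [h3, inv_pow]
    have : θ ^ sn ν T ≠ 0 := by positivity
    field_simp
  rw [h2]
  exact mul_le_mul_of_nonneg_left hbad.le (by positivity)

end

end Pool.Agent.H.MP_3e6494_nt
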