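import Pool.Agent.H.MP_3e6494_nt.Ms4

/-!
# One scale: greedy deletion of popular primes
-/

set_option autoImplicit false
set_option linter.unusedSectionVars false

namespace Pool.Agent.H.MP_3e6494_nt

noncomputable section

variable {q : ℕ} [hq : Fact q.Prime]
variable {K : Subgroup (ZMod q)ˣ} {P : Finset ℕ} {ν : ℕ → ℕ} {θ : ℝ}

/-- the standing assumptions -/
structure Env (q : ℕ) (P : Finset ℕ) (ν : ℕ → ℕ) (θ C : ℝ) : Prop where
  prime : ∀ p ∈ P, p.Prime ∧ p < q
  ν1 : ∀ p, 1 ≤ ν p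
  C0 : 0 < C
  size : ∀ p ∈ P, Real.log p ≤ C * ν p
  θ1 : 1 < θ

open Classical in
/-- **No covering families.** -/
theorem no_families {C : ℝ} (e : Env q P ν θ C) {j S : ℕ} (hj : 1 ≤ j) (hS : 1 ≤ S)
    (W : Fin j → Finset (Multiset Sy)) (Ef : Fin j → Finset ℕ) (s : Fin j → ℕ)
    (c : Fin j → (ZMod q)ˣ ⧸ K) (hW : ∀ l, W l = fml K P ν (Ef l) (s l) (c l))
    (hne : ∀ l, (W l).Nonempty) (hs : ∀ l, S ≤ s l ∧ s l < 2 * S)
    (hcov : ∀ l, ∀ X ∈ W l, cov W Finset.univ X ≤ (1 / 16) ^ s l * (Fintype.piFinset W).card)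
    {Θ : ℝ} (hΘ0 : 0 < Θ) (pop : ∀ p, ∑ l, prp (W l) {(p, false)} ≤ Θ)
    (h1 : 8 * C * Θ ≤ Real.log 2)
    (h2 : 2 * (Real.log 4 + Real.log (Nat.card K)) < j * S * Real.log 2)
    (h3 : 4 * C * (j * S) < Real.log q) : False := by
  set Ωs := Fintype.piFinset W with hΩs
  set Ω : ℝ := (Ωs.card : ℝ) with hΩ
  have hΩ0 : 0 < Ω := by
    rw [hΩ]
    have : Ωs.Nonempty := by rw [hΩs, Fintype.piFinset_nonempty]; exact hne
    exact_mod_cast Finset.card_pos.mpr this
  set Wt : ℕ := ∑ l, s l with hWt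
  have hWt1 : j * S ≤ Wt := by
    calc j * S = ∑ _l : Fin j, S := by simp
      _ ≤ Wt := Finset.sum_le_sum fun l _ => (hs l).1
  have hWt2 : Wt ≤ 2 * (j * S) := by
    calc Wt ≤ ∑ _l : Fin j, 2 * S := Finset.sum_le_sum fun l _ => (hs l).2.le
      _ = 2 * (j * S) := by simp; ring
  have hjS : 1 ≤ j * S := Nat.mul_pos hj hS
  have hWt0 : (0 : ℝ) < Wt := by
    have : 0 < Wt := by omega
    exact_mod_cast this
  have hC0 := e.C0
  -- the expected cancellation
  have hsn : ∀ l, ∀ X ∈ W l, nm (fun x : Sy => ν x.1) X = s l := by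
    intro l X hX
    rw [hW, mem_fml e.ν1] at hX
    exact hX.1.2
  have hPX : ∀ l, ∀ X ∈ W l, ∀ x ∈ X, x.1 ∈ P := by
    intro l X hX
    rw [hW, mem_fml e.ν1] at hX
    exact hX.1.1
  have hcanc := canc_sum hne P hΘ0.le pop (ν := ν) hC0.le hsn
    (fun l X hX x hx => e.size x.1 (hPX l X hX x hx))
  have hWtr : (∑ l, (s l : ℝ)) = Wt := by rw [hWt]; push_cast; rfl
  rw [hWtr] at hcanc
  set B : ℝ := 4 * C * Θ * Wt with hB
  have hB0 : 0 < B := by positivity
  set Ω' := Ωs.filter (fun ω => canc P ω ≤ B) with hΩ'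
  have hΩ'c : 3 / 4 * Ω ≤ (Ω'.card : ℝ) := by
    have h4 : ((Ωs.filter (fun ω => ¬ canc P ω ≤ B)).card : ℝ) * B ≤ C * Θ * Wt * Ω := by
      refine le_trans ?_ hcanc
      calc ((Ωs.filter (fun ω => ¬ canc P ω ≤ B)).card : ℝ) * B
          = ∑ _ω ∈ Ωs.filter (fun ω => ¬ canc P ω ≤ B), B := by
            rw [Finset.sum_const, nsmul_eq_mul]
        _ ≤ ∑ ω ∈ Ωs.filter (fun ω => ¬ canc P ω ≤ B), canc P ω :=
            Finset.sum_le_sum fun ω hω => (not_le.mp (Finset.mem_filter.mp hω).2).le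
        _ ≤ ∑ ω ∈ Ωs, canc P ω := Finset.sum_le_sum_of_subset_of_nonneg
            (Finset.filter_subset _ _) (fun ω _ _ => canc_nonneg P ω)
    have h5 : ((Ωs.filter (fun ω => ¬ canc P ω ≤ B)).card : ℝ) ≤ Ω / 4 := by
      have : ((Ωs.filter (fun ω => ¬ canc P ω ≤ B)).card : ℝ) * B ≤ (Ω / 4) * B := by
        rw [hB] at h4 ⊢
        linarith
      exact le_of_mul_le_mul_right this hB0
    have h6 : (Ω'.card : ℝ) + ((Ωs.filter (fun ω => ¬ canc P ω ≤ B)).card : ℝ) = Ωs.card := by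
      exact_mod_cast Finset.card_filter_add_card_filter_not (s := Ωs) (fun ω => canc P ω ≤ B)
    linarith
  -- the number of sums
  set G : ℕ := ⌊Real.exp B⌋₊ with hG
  set M : ℕ := ⌊Real.exp (2 * C * (j * S))⌋₊ with hM
  have hprime : ∀ ω ∈ Ω', ∀ x ∈ ∑ l, ω l, (x.1.Prime ∧ x.1 < q) ∧ x.1 ∈ P := by
    intro ω hω x hx
    rw [Multiset.mem_sum] at hx
    obtain ⟨l, _, hl⟩ := hx
    have h4 := Fintype.mem_piFinset.mp (Finset.mem_filter.mp hω).1 l
    have h5 := hPX l _ h4 x hl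
    exact ⟨e.prime _ h5, h5⟩
  have hcount : (Ω'.image (fun ω => ∑ l, ω l)).card ≤ Nat.card K * G := by
    refine count_y (M := M) _ ?_ (∏ l, c l) ?_ ?_ ?_ ?_
    · intro y hy
      obtain ⟨ω, hω, rfl⟩ := Finset.mem_image.mp hy
      exact fun x hx => (hprime ω hω x hx).1
    · intro y hy
      obtain ⟨ω, hω, rfl⟩ := Finset.mem_image.mp hy
      rw [cl_sum]
      refine Finset.prod_congr rfl fun l _ => ?_
      have h4 := Fintype.mem_piFinset.mp (Finset.mem_filter.mp hω).1 l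
      rw [hW, mem_fml e.ν1] at h4
      exact h4.2.2.2
    · intro y hy
      obtain ⟨ω, hω, rfl⟩ := Finset.mem_image.mp hy
      have hω' := Finset.mem_filter.mp hω
      have h4 : Real.log (Nat.gcd (Up (∑ l, ω l)) (Dn (∑ l, ω l))) ≤ B := by
        refine (log_gcd_le_canc (A := P) ?_ ?_).trans hω'.2
        · intro l
          have h5 := Fintype.mem_piFinset.mp hω'.1 l
          rw [hW, mem_fml e.ν1] at h5
          exact h5.2.1
        · intro l x hx
          have h5 := hPX l _ (Fintype.mem_piFinset.mp hω'.1 l) x hx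
          exact ⟨(e.prime _ h5).1, h5⟩
      refine Nat.le_floor ?_
      have hpos : 0 < Nat.gcd (Up (∑ l, ω l)) (Dn (∑ l, ω l)) :=
        Nat.gcd_pos_of_pos_left _ (Up_pos fun x hx => (hprime ω hω x hx).1.1)
      rw [← Real.log_le_iff_le_exp (by exact_mod_cast hpos)]
      exact h4
    · intro y hy
      obtain ⟨ω, hω, rfl⟩ := Finset.mem_image.mp hy
      have hω' := Finset.mem_filter.mp hω
      have hnm : (nm (fun x : Sy => ν x.1) (∑ l, ω l) : ℝ) ≤ 2 * (j * S) := by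
        have h5 : nm (fun x : Sy => ν x.1) (∑ l, ω l) = Wt := by
          rw [nm_sum]
          exact Finset.sum_congr rfl fun l _ => hsn l _ (Fintype.mem_piFinset.mp hω'.1 l)
        rw [h5]
        exact_mod_cast hWt2
      have hsz : ∀ x ∈ ∑ l, ω l, Real.log x.1 ≤ C * ν x.1 :=
        fun x hx => e.size _ (hprime ω hω x hx).2
      constructor
      · refine Nat.le_floor ?_
        rw [← Real.log_le_iff_le_exp
          (by exact_mod_cast Up_pos fun x hx => (hprime ω hω x hx).1.1)]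
        refine (log_Up_le (fun x hx => (hprime ω hω x hx).1.1) hsz hC0.le).trans ?_
        nlinarith
      · refine Nat.le_floor ?_
        rw [← Real.log_le_iff_le_exp
          (by exact_mod_cast Dn_pos fun x hx => (hprime ω hω x hx).1.1)]
        refine (log_Dn_le (fun x hx => (hprime ω hω x hx).1.1) hsz hC0.le).trans ?_
        nlinarith
    · have hq0 : (0 : ℝ) < q := by exact_mod_cast hq.out.pos
      have h4 : (M : ℝ) ≤ Real.exp (2 * C * (j * S)) := Nat.floor_le (Real.exp_pos _).le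
      have h5 : (M : ℝ) * M < q := by
        calc (M : ℝ) * M ≤ Real.exp (2 * C * (j * S)) * Real.exp (2 * C * (j * S)) := by gcongr
          _ = Real.exp (4 * C * (j * S)) := by
            rw [← Real.exp_add]
            congr 1
            ring
          _ < Real.exp (Real.log q) := Real.exp_lt_exp.mpr h3
          _ = q := Real.exp_log hq0
      exact_mod_cast h5
  -- the collision argument
  have hK0 : 0 < Nat.card K := Nat.card_pos
  have hD : ((Ω'.image (fun ω => ∑ l, ω l)).card : ℝ) ≤ Nat.card K * Real.exp B := by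
    calc ((Ω'.image (fun ω => ∑ l, ω l)).card : ℝ) ≤ ((Nat.card K * G : ℕ) : ℝ) := by
          exact_mod_cast hcount
      _ = Nat.card K * (G : ℝ) := by push_cast; rfl
      _ ≤ _ := by
          gcongr
          exact Nat.floor_le (Real.exp_pos _).le
  have hcol := collision hne (s := s) (fun l => hS.trans (hs l).1) hcov Ω'
    (Finset.filter_subset _ _) hΩ'c hD
  have hK0' : (0 : ℝ) < Nat.card K := by exact_mod_cast hK0
  have h4 := Real.log_le_log (by positivity) hcol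
  rw [Real.log_pow, Real.log_mul (by norm_num) (by positivity),
    Real.log_mul hK0'.ne' (Real.exp_pos _).ne', Real.log_exp] at h4
  change (Wt : ℝ) * Real.log 2 ≤ _ at h4
  have h5 : B ≤ Wt * Real.log 2 / 2 := by
    rw [hB]
    nlinarith
  have h6 : (j : ℝ) * S ≤ Wt := by exact_mod_cast hWt1
  have hl2 : 0 < Real.log 2 := Real.log_pos (by norm_num)
  nlinarith

/-- the popularity of a prime in a family -/
def popu (W : Finset (Multiset Sy)) (p : ℕ) : ℝ := prp W {(p, true)} + prp W {(p, false)}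

theorem popu_nonneg (W : Finset (Multiset Sy)) (p : ℕ) : 0 ≤ popu W p :=
  add_nonneg (prp_nonneg _ _) (prp_nonneg _ _)

theorem popu_sum {W : Finset (Multiset Sy)} (A : Finset ℕ) {s : ℕ}
    (hW : ∀ X ∈ W, X.card ≤ s) : ∑ p ∈ A, popu W p ≤ s := by
  rcases W.eq_empty_or_nonempty with rfl | hne
  · have : ∀ p ∈ A, popu ∅ p = 0 := by
      intro p _
      unfold popu prp
      simp
    rw [Finset.sum_congr rfl this, Finset.sum_const_zero]
    positivity
  have hW0 : (0 : ℝ) < W.card := by exact_mod_cast Finset.card_pos.mpr hne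
  have h1 : ∀ p, popu W p = (∑ X ∈ W, ((if (p, true) ∈ X then (1 : ℝ) else 0) +
      (if (p, false) ∈ X then (1 : ℝ) else 0))) / W.card := by
    intro p
    unfold popu prp
    rw [Finset.sum_add_distrib, ← Finset.sum_filter, ← Finset.sum_filter, Finset.sum_const,
      Finset.sum_const, nsmul_eq_mul, nsmul_eq_mul, mul_one, mul_one, ← add_div]
    simp only [Multiset.singleton_le]
  rw [Finset.sum_congr rfl fun p _ => h1 p, ← Finset.sum_div, div_le_iff₀ hW0, Finset.sum_comm]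
  have h2 : ∀ X ∈ W, ∑ p ∈ A, ((if (p, true) ∈ X then (1 : ℝ) else 0) +
      (if (p, false) ∈ X then (1 : ℝ) else 0)) ≤ s := by
    intro X hX
    have h3 : ∑ p ∈ A, ((if (p, true) ∈ X then (1 : ℝ) else 0) +
        (if (p, false) ∈ X then (1 : ℝ) else 0)) =
        (((A ×ˢ (Finset.univ : Finset Bool)).filter (fun x => x ∈ X)).card : ℝ) := by
      rw [← nsmul_one, ← Finset.sum_const, Finset.sum_filter, Finset.sum_product]
      refine Finset.sum_congr rfl fun p _ => ?_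
      rw [Fintype.sum_bool]
    rw [h3]
    have h4 : ((A ×ˢ (Finset.univ : Finset Bool)).filter (fun x => x ∈ X)).card ≤ X.card := by
      refine le_trans (Finset.card_le_card (t := X.toFinset) ?_) (Multiset.toFinset_card_le X)
      intro x hx
      rw [Multiset.mem_toFinset]
      exact (Finset.mem_filter.mp hx).2
    exact_mod_cast h4.trans (hW X hX)
  calc ∑ X ∈ W, ∑ p ∈ A, ((if (p, true) ∈ X then (1 : ℝ) else 0) +
      (if (p, false) ∈ X then (1 : ℝ) else 0)) ≤ ∑ _X ∈ W, (s : ℝ) := Finset.sum_le_sum h2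
    _ = s * W.card := by rw [Finset.sum_const, nsmul_eq_mul, mul_comm]

/-- **Greedy deletion of popular primes.** -/
theorem greedy {A : Finset ℕ} {s : ℕ} {τ Θ : ℝ} (hΘ : 0 < Θ) (hτ : 0 ≤ τ) {R : ℕ}
    {E₀ : Finset ℕ} (Pr : Finset (Multiset Sy) → Prop)
    (h : ∀ E : Finset ℕ, E₀ ⊆ E → E ⊆ E₀ ∪ A → E.card ≤ E₀.card + R → ∃ W, Pr W ∧
      (∀ X ∈ W, X.card ≤ s) ∧ (∀ p, popu W p ≤ 2 * τ) ∧ (∀ p ∈ E, popu W p = 0) ∧
      (∀ p, p ∉ A → popu W p = 0)) {j : ℕ} (hj : (j : ℝ) * s ≤ Θ * R) :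
    ∃ W : ℕ → Finset (Multiset Sy), (∀ l < j, Pr (W l)) ∧
      ∀ p, ∑ l ∈ Finset.range j, popu (W l) p ≤ Θ + 2 * τ := by
  classical
  have key : ∀ t, t ≤ j → ∃ W : ℕ → Finset (Multiset Sy), (∀ l < t, Pr (W l) ∧
      (∀ X ∈ W l, X.card ≤ s) ∧ (∀ p, p ∉ A → popu (W l) p = 0)) ∧
      ∀ p, ∑ l ∈ Finset.range t, popu (W l) p ≤ Θ + 2 * τ := by
    intro t
    induction t with
    | zero =>
      intro _
      refine ⟨fun _ => ∅, fun l hl => absurd hl (Nat.not_lt_zero l), fun p => ?_⟩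
      simp only [Finset.range_zero, Finset.sum_empty]
      positivity
    | succ t ih =>
      intro ht
      obtain ⟨W, hW1, hW2⟩ := ih (by omega)
      set Bd := A.filter (fun p => Θ ≤ ∑ l ∈ Finset.range t, popu (W l) p) with hBd
      have hcard : Bd.card ≤ R := by
        have h1 : Θ * (Bd.card : ℝ) ≤ Θ * R := by
          calc Θ * (Bd.card : ℝ) = ∑ _p ∈ Bd, Θ := by
                rw [Finset.sum_const, nsmul_eq_mul, mul_comm]
            _ ≤ ∑ p ∈ Bd, ∑ l ∈ Finset.range t, popu (W l) p :=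
                Finset.sum_le_sum fun p hp => (Finset.mem_filter.mp hp).2
            _ = ∑ l ∈ Finset.range t, ∑ p ∈ Bd, popu (W l) p := Finset.sum_comm
            _ ≤ ∑ _l ∈ Finset.range t, (s : ℝ) := by
                refine Finset.sum_le_sum fun l hl => ?_
                exact popu_sum _ (hW1 l (Finset.mem_range.mp hl)).2.1
            _ = t * s := by rw [Finset.sum_const, nsmul_eq_mul, Finset.card_range]
            _ ≤ j * s := by
                have : (t : ℝ) ≤ j := by exact_mod_cast (by omega : t ≤ j)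
                gcongr
            _ ≤ _ := hj
        have h2 := le_of_mul_le_mul_left h1 hΘ
        exact_mod_cast h2
      obtain ⟨W', hW'1, hW'2, hW'3, hW'4, hW'5⟩ := h (E₀ ∪ Bd) Finset.subset_union_left
        (Finset.union_subset_union_right (Finset.filter_subset _ _)) (by
          refine (Finset.card_union_le _ _).trans ?_
          omega)
      refine ⟨Function.update W t W', ?_, ?_⟩
      · intro l hl
        rcases eq_or_ne l t with rfl | hne
        · rw [Function.update_self]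
          exact ⟨hW'1, hW'2, hW'5⟩
        · rw [Function.update_of_ne hne]
          exact hW1 l (by omega)
      · intro p
        rw [Finset.sum_range_succ, Function.update_self]
        have h1 : ∑ l ∈ Finset.range t, popu (Function.update W t W' l) p =
            ∑ l ∈ Finset.range t, popu (W l) p := by
          refine Finset.sum_congr rfl fun l hl => ?_
          rw [Function.update_of_ne (Finset.mem_range.mp hl).ne]
        rw [h1]
        by_cases hpA : p ∈ A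
        · by_cases hpB : Θ ≤ ∑ l ∈ Finset.range t, popu (W l) p
          · have h2 : p ∈ E₀ ∪ Bd :=
              Finset.mem_union_right _ (Finset.mem_filter.mpr ⟨hpA, hpB⟩)
            rw [hW'4 p h2, add_zero]
            exact hW2 p
          · push Not at hpB
            have := hW'3 p
            linarith
        · rw [hW'5 p hpA, add_zero]
          exact hW2 p
  obtain ⟨W, hW1, hW2⟩ := key j le_rfl
  exact ⟨W, fun l hl => (hW1 l hl).1, hW2⟩

theorem popu_fml_zero (hν : ∀ p, 1 ≤ ν p) {E : Finset ℕ} {s : ℕ} {c : (ZMod q)ˣ ⧸ K} {p : ℕ}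
    (h : p ∈ E ∨ p ∉ P) : popu (fml K P ν E s c) p = 0 := by
  classical
  have h1 : ∀ b : Bool, prp (fml K P ν E s c) {(p, b)} = 0 := by
    intro b
    unfold prp
    have : (fml K P ν E s c).filter (fun X => {(p, b)} ≤ X) = ∅ := by
      rw [Finset.filter_eq_empty_iff]
      intro X hX hle
      rw [Multiset.singleton_le] at hle
      rw [mem_fml hν] at hX
      rcases h with h | h
      · exact hX.2.2.1 _ hle h
      · exact h (hX.1.1 _ hle)
    rw [this, Finset.card_empty, Nat.cast_zero, zero_div]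
  unfold popu
  rw [h1, h1, add_zero]

open Classical in
/-- existence of the minimal bad family -/
theorem exists_min_bad {C : ℝ} (e : Env q P ν θ C) {E : Finset ℕ} {S : ℕ}
    (hNB : ∀ s < S, ¬ Bad K P ν θ E s) (hb : ∃ s < 2 * S, Bad K P ν θ E s) :
    ∃ (s : ℕ) (c : (ZMod q)ˣ ⧸ K), S ≤ s ∧ s < 2 * S ∧ (fml K P ν E s c).Nonempty ∧
      ∀ T, prp (fml K P ν E s c) T ≤ (θ⁻¹) ^ sn ν T := by
  have hex : ∃ s, Bad K P ν θ E s := by
    obtain ⟨s, _, hs⟩ := hb
    exact ⟨s, hs⟩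
  obtain ⟨s₀, hs₀, hs₀b⟩ := hb
  obtain ⟨c, hc⟩ := Nat.find_spec hex
  have h1 : Nat.find hex ≤ s₀ := Nat.find_min' hex hs₀b
  refine ⟨Nat.find hex, c, ?_, by omega, ?_, ?_⟩
  · by_contra hlt
    exact hNB _ (not_le.mp hlt) (Nat.find_spec hex)
  · rw [← Finset.card_pos]
    have hθ := e.θ1
    have h2 : (0 : ℝ) < θ ^ Nat.find hex := by positivity
    have h3 : (0 : ℝ) < (fml K P ν E (Nat.find hex) c).card := h2.trans hc
    exact_mod_cast h3
  · exact spread_of_min e.ν1 (by have := e.θ1; linarith) hc fun s' hs' => Nat.find_min hex hs'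

open Classical in
/-- **One scale, popularity regime.** -/
theorem scale_pop {C : ℝ} (e : Env q P ν θ C) {j S R : ℕ} (hj : 1 ≤ j) (hS : 1 ≤ S)
    {E₀ : Finset ℕ} (hNB : ∀ s < S, ¬ Bad K P ν θ E₀ s) {Θ : ℝ} (hΘ0 : 0 < Θ)
    (hR : (j : ℝ) * ((2 * S : ℕ) : ℝ) ≤ Θ * R) (hΘ : Θ + 2 * θ⁻¹ ≤ 1 / 32)
    (hSτ : 32 * ((2 * S : ℕ) : ℝ) * θ⁻¹ ≤ 1)
    (hjτ : 1024 * (j * ((2 * S : ℕ) : ℝ) * (θ⁻¹) ^ 2) ≤ 1)
    (h1 : 8 * C * (Θ + 2 * θ⁻¹) ≤ Real.log 2)
    (h2 : 2 * (Real.log 4 + Real.log (Nat.card K)) < j * S * Real.log 2)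
    (h3 : 4 * C * (j * S) < Real.log q) :
    ∃ E : Finset ℕ, E₀ ⊆ E ∧ E ⊆ E₀ ∪ P ∧ E.card ≤ E₀.card + R ∧
      ∀ s < 2 * S, ¬ Bad K P ν θ E s := by
  by_contra hcon
  push Not at hcon
  have hτ0 : 0 ≤ θ⁻¹ := by
    have := e.θ1
    positivity
  obtain ⟨W, hW1, hW2⟩ := greedy (A := P) (s := 2 * S) (τ := θ⁻¹) hΘ0 hτ0 (R := R) (E₀ := E₀)
    (fun W => ∃ (E : Finset ℕ) (s : ℕ) (c : (ZMod q)ˣ ⧸ K), W = fml K P ν E s c ∧ S ≤ s ∧
      s < 2 * S ∧ W.Nonempty ∧ ∀ T, prp W T ≤ (θ⁻¹) ^ sn ν T) (by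
      intro E hE1 hE2 hE3
      obtain ⟨s₀, hs₀, hs₀b⟩ := hcon E hE1 hE2 hE3
      obtain ⟨s, c, hs1, hs2, hs3, hs4⟩ := exists_min_bad e
        (fun s hs hb => hNB s hs (hb.mono e.ν1 hE1)) ⟨s₀, hs₀, hs₀b⟩
      refine ⟨_, ⟨E, s, c, rfl, hs1, hs2, hs3, hs4⟩, ?_, ?_, ?_, ?_⟩
      · intro X hX
        rw [mem_fml e.ν1] at hX
        have h4 := card_le_nm (fun x : Sy => e.ν1 x.1) X
        have h5 : nm (fun x : Sy => ν x.1) X = s := hX.1.2
        omega
      · intro p
        have h4 : ∀ b : Bool, prp (fml K P ν E s c) {(p, b)} ≤ θ⁻¹ := by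
          intro b
          refine (hs4 {(p, b)}).trans ?_
          rw [show sn ν {(p, b)} = ν p from nm_singleton _]
          calc (θ⁻¹) ^ ν p ≤ (θ⁻¹) ^ 1 :=
                pow_le_pow_of_le_one hτ0 (inv_le_one_of_one_le₀ e.θ1.le) (e.ν1 p)
            _ = θ⁻¹ := pow_one _
        unfold popu
        have := h4 true
        have := h4 false
        linarith
      · intro p hp
        exact popu_fml_zero e.ν1 (Or.inl hp)
      · intro p hp
        exact popu_fml_zero e.ν1 (Or.inr hp)) hR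
  -- choose the data
  have hch : ∀ l : Fin j, ∃ (E : Finset ℕ) (s : ℕ) (c : (ZMod q)ˣ ⧸ K),
      W l = fml K P ν E s c ∧ S ≤ s ∧ s < 2 * S ∧ (W l).Nonempty ∧
        ∀ T, prp (W l) T ≤ (θ⁻¹) ^ sn ν T := fun l => hW1 l l.2
  choose Ef sf cf hd using hch
  have hpopu : ∀ p, ∑ l : Fin j, popu (W l) p ≤ Θ + 2 * θ⁻¹ := by
    intro p
    have := hW2 p
    rwa [← Fin.sum_univ_eq_sum_range (fun l => popu (W l) p) j] at this
  have hpop1 : ∀ x : Sy, ∑ l : Fin j, prp (W l) {x} ≤ Θ + 2 * θ⁻¹ := by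
    rintro ⟨p, b⟩
    refine le_trans (Finset.sum_le_sum fun l _ => ?_) (hpopu p)
    unfold popu
    have h4 := prp_nonneg (W l) {(p, true)}
    have h5 := prp_nonneg (W l) {(p, false)}
    rcases b with _ | _
    · linarith
    · linarith
  have hcardj : (Fintype.card (Fin j) : ℝ) = j := by simp
  refine no_families e hj hS (fun l : Fin j => W l) Ef sf cf (fun l => (hd l).1)
    (fun l => (hd l).2.2.2.1) (fun l => ⟨(hd l).2.1, (hd l).2.2.1⟩) ?_ (Θ := Θ + 2 * θ⁻¹)
    (by have := e.θ1; positivity) (fun p => hpop1 (p, false)) h1 h2 h3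
  intro l X hX
  have hXs : nm (fun x : Sy => ν x.1) X = sf l := by
    rw [(hd l).1, mem_fml e.ν1] at hX
    exact hX.1.2
  have hXc : X.card ≤ 2 * S := by
    have h4 := card_le_nm (fun x : Sy => e.ν1 x.1) X
    have h5 := (hd l).2.2.1
    omega
  have hfin := cover_pop (V := fun l : Fin j => W l) (ν := fun x : Sy => ν x.1)
    (fun l => (hd l).2.2.2.1) hτ0 (fun x => e.ν1 x.1) (fun l T => (hd l).2.2.2.2 T) hpop1 hΘ
    (S := 2 * S) (by omega) hSτ (by rw [hcardj]; exact hjτ) X.card X rfl hXc Finset.univ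
  rwa [hXs] at hfin

open Classical in
/-- **One scale, basic regime.** -/
theorem scale_basic {C : ℝ} (e : Env q P ν θ C) {j S : ℕ} (hj : 1 ≤ j) (hS : 1 ≤ S)
    {E₀ : Finset ℕ} (hNB : ∀ s < S, ¬ Bad K P ν θ E₀ s)
    (hjτ : (j : ℝ) * θ⁻¹ ≤ 1 / 16)
    (h1 : 8 * C * (j * θ⁻¹) ≤ Real.log 2)
    (h2 : 2 * (Real.log 4 + Real.log (Nat.card K)) < j * S * Real.log 2)
    (h3 : 4 * C * (j * S) < Real.log q) :
    ∀ s < 2 * S, ¬ Bad K P ν θ E₀ s := by
  by_contra hcon
  push Not at hcon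
  have hθ1 := e.θ1
  have hτ0 : 0 ≤ θ⁻¹ := by positivity
  obtain ⟨s, c, hs1, hs2, hs3, hs4⟩ := exists_min_bad e hNB hcon
  have hj0 : (0 : ℝ) < j := by exact_mod_cast hj
  have hpop1 : ∀ x : Sy, ∑ _l : Fin j, prp (fml K P ν E₀ s c) {x} ≤ j * θ⁻¹ := by
    intro x
    rw [Finset.sum_const, nsmul_eq_mul, Finset.card_univ, Fintype.card_fin]
    refine mul_le_mul_of_nonneg_left ?_ hj0.le
    refine (hs4 {x}).trans ?_
    rw [show sn ν {x} = ν x.1 from nm_singleton _]
    calc (θ⁻¹) ^ ν x.1 ≤ (θ⁻¹) ^ 1 :=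
          pow_le_pow_of_le_one hτ0 (inv_le_one_of_one_le₀ e.θ1.le) (e.ν1 x.1)
      _ = θ⁻¹ := pow_one _
  refine no_families e hj hS (fun _ : Fin j => fml K P ν E₀ s c) (fun _ => E₀) (fun _ => s)
    (fun _ => c) (fun _ => rfl) (fun _ => hs3) (fun _ => ⟨hs1, hs2⟩) ?_ (Θ := j * θ⁻¹)
    (by positivity) (fun p => hpop1 (p, false)) h1 h2 h3
  intro l X hX
  have hXs : nm (fun x : Sy => ν x.1) X = s := by
    rw [mem_fml e.ν1] at hX
    exact hX.1.2
  have hfin := cover_basic (V := fun _ : Fin j => fml K P ν E₀ s c)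
    (ν := fun x : Sy => ν x.1) (fun _ => hs3) hτ0 (fun x => e.ν1 x.1) (fun _ T => hs4 T)
    (by rw [Fintype.card_fin]; exact hjτ) X
  rwa [hXs] at hfin

end

end Pool.Agent.H.MP_3e6494_nt
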