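import Pool.Agent.H.MP_3e6494_nt.Moll

/-!
# Orthogonality over a coset and the resonance inequality
-/

set_option autoImplicit false

open Complex Set Filter Topology

namespace Pool.Agent.H.MP_3e6494_nt

noncomputable section

variable {q : ℕ} [hq : Fact q.Prime]

/-- the annihilator `H^⊥` in the group of units -/
def KK (H : Subgroup (DirichletCharacter ℂ q)) : Subgroup (ZMod q)ˣ where
  carrier := {x | ∀ ψ ∈ H, ψ (x : ZMod q) = 1}
  mul_mem' := by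
    intro a b ha hb ψ hψ
    rw [Units.val_mul, map_mul, ha ψ hψ, hb ψ hψ, one_mul]
  one_mem' := by
    intro ψ _
    rw [Units.val_one, map_one]
  inv_mem' := by
    intro a ha ψ hψ
    have h1 : ψ ((a⁻¹ : (ZMod q)ˣ) : ZMod q) * ψ (a : ZMod q) = 1 := by
      rw [← map_mul, ← Units.val_mul, inv_mul_cancel, Units.val_one, map_one]
    rw [ha ψ hψ, mul_one] at h1
    exact h1

theorem mem_KK (H : Subgroup (DirichletCharacter ℂ q)) (x : (ZMod q)ˣ) :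
    x ∈ KK H ↔ ∀ ψ ∈ H, ψ (x : ZMod q) = 1 := Iff.rfl

open Classical in
/-- sum of the characters of `H` -/
theorem sum_H (H : Subgroup (DirichletCharacter ℂ q)) (x : (ZMod q)ˣ) :
    ∑ ψ : H, (ψ : DirichletCharacter ℂ q) (x : ZMod q) =
      if x ∈ KK H then (Nat.card H : ℂ) else 0 := by
  split_ifs with h
  · rw [Finset.sum_congr rfl (fun ψ _ => h ψ.1 ψ.2)]
    simp [Nat.card_eq_fintype_card]
  · rw [mem_KK] at h
    push Not at h
    obtain ⟨φ, hφ, hφx⟩ := h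
    have h1 : φ (x : ZMod q) * ∑ ψ : H, (ψ : DirichletCharacter ℂ q) (x : ZMod q) =
        ∑ ψ : H, (ψ : DirichletCharacter ℂ q) (x : ZMod q) := by
      rw [Finset.mul_sum]
      refine Fintype.sum_equiv (Equiv.mulLeft (⟨φ, hφ⟩ : H)) _ _ fun ψ => ?_
      simp only [Equiv.coe_mulLeft, Subgroup.coe_mul, MulChar.mul_apply]
    have h2 : (φ (x : ZMod q) - 1) *
        ∑ ψ : H, (ψ : DirichletCharacter ℂ q) (x : ZMod q) = 0 := by
      rw [sub_mul, h1, one_mul, sub_self]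
    rcases mul_eq_zero.mp h2 with h3 | h3
    · exact absurd (sub_eq_zero.mp h3) hφx
    · exact h3

open Classical in
/-- the annihilator has as many elements as the index -/
theorem card_KK (H : Subgroup (DirichletCharacter ℂ q)) : Nat.card (KK H) = H.index := by
  have hq1 : q.Prime := hq.out
  have hch : ∀ ψ : DirichletCharacter ℂ q, ∑ x : (ZMod q)ˣ, ψ (x : ZMod q) =
      ∑ c : ZMod q, ψ c := by
    intro ψ
    symm
    rw [← Finset.sum_subset (Finset.subset_univ (Finset.univ.image (fun x : (ZMod q)ˣ =>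
      (x : ZMod q))))]
    · rw [Finset.sum_image]
      intro a _ b _ hab
      exact Units.ext hab
    · intro c _ hc
      refine ψ.map_nonunit fun hu => hc ?_
      rw [Finset.mem_image]
      exact ⟨hu.unit, Finset.mem_univ _, hu.unit_spec⟩
  have h1 : ∑ x : (ZMod q)ˣ, ∑ ψ : H, (ψ : DirichletCharacter ℂ q) (x : ZMod q) =
      (Nat.card (KK H) : ℂ) * Nat.card H := by
    simp_rw [sum_H]
    rw [← Finset.sum_filter, Finset.sum_const, nsmul_eq_mul]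
    congr 2
    rw [Nat.card_eq_fintype_card, Fintype.card_subtype]
  have h2 : ∑ x : (ZMod q)ˣ, ∑ ψ : H, (ψ : DirichletCharacter ℂ q) (x : ZMod q) =
      (q.totient : ℂ) := by
    rw [Finset.sum_comm]
    rw [Finset.sum_eq_single (1 : H)]
    · rw [hch, Subgroup.coe_one, MulChar.sum_one_eq_card_units, ZMod.card_units_eq_totient]
    · intro ψ _ hψ
      rw [hch]
      refine MulChar.sum_eq_zero_of_ne_one fun h => hψ ?_
      exact Subtype.ext h
    · intro h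
      exact absurd (Finset.mem_univ _) h
  have h3 : Nat.card (KK H) * Nat.card H = q.totient := by
    have := h1.symm.trans h2
    exact_mod_cast this
  have h4 : H.index * Nat.card H = q.totient := by
    exact H.index_mul_card.trans
      (DirichletCharacter.card_eq_totient_of_hasEnoughRootsOfUnity ℂ q)
  have h7 : 0 < Nat.card H := Nat.card_pos
  exact Nat.eq_of_mul_eq_mul_right h7 (h3.trans h4.symm)

theorem conj_char (χ : DirichletCharacter ℂ q) (x : (ZMod q)ˣ) :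
    (starRingEnd ℂ) (χ (x : ZMod q)) = χ ((x⁻¹ : (ZMod q)ˣ) : ZMod q) := by
  have h := MulChar.star_apply' χ (x : ZMod q)
  have h2 : (starRingEnd ℂ) (χ (x : ZMod q)) = star (χ (x : ZMod q)) := rfl
  rw [h2, h, MulChar.inv_apply]
  congr 1
  rw [Ring.inverse_unit]

open Classical in
/-- the resonance inequality over a coset -/
theorem resonance {ι : Type*} (𝒜 : Finset ι) (r : ι → ℝ) (hr : ∀ A ∈ 𝒜, 0 ≤ r A)
    (u : ι → (ZMod q)ˣ) (H : Subgroup (DirichletCharacter ℂ q)) (χ₀ : DirichletCharacter ℂ q)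
    (V : ZMod q → ℂ) {Λ : ℝ}
    (hΛ : ∀ ψ ∈ H, ‖∑ c : ZMod q, (χ₀ * ψ) c * V c‖ ≤ Λ) :
    ‖∑ A ∈ 𝒜, ∑ B ∈ 𝒜, ∑ x : KK H, ((r A * r B : ℝ) : ℂ) * (χ₀ ((x : (ZMod q)ˣ) : ZMod q) *
        V (((x : (ZMod q)ˣ) * u B * (u A)⁻¹ : (ZMod q)ˣ) : ZMod q))‖ ≤
      Λ * ∑ A ∈ 𝒜, ∑ B ∈ 𝒜, (if u A * (u B)⁻¹ ∈ KK H then r A * r B else 0) := by
  have hΛ0 : 0 ≤ Λ := le_trans (norm_nonneg _) (hΛ 1 H.one_mem)
  set h : ℂ := (Nat.card H : ℂ) with hh
  have hcard : 0 < Nat.card H := Nat.card_pos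
  -- sums over the ring reduce to sums over units
  have hunits : ∀ χ : DirichletCharacter ℂ q, ∑ c : ZMod q, χ c * V c =
      ∑ y : (ZMod q)ˣ, χ (y : ZMod q) * V (y : ZMod q) := by
    intro χ
    rw [← Finset.sum_subset (Finset.subset_univ (Finset.univ.image (fun x : (ZMod q)ˣ =>
      (x : ZMod q))))]
    · rw [Finset.sum_image]
      intro a _ b _ hab
      exact Units.ext hab
    · intro c _ hc
      rw [χ.map_nonunit fun hu => hc ?_, zero_mul]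
      rw [Finset.mem_image]
      exact ⟨hu.unit, Finset.mem_univ _, hu.unit_spec⟩
  have hKsum : ∀ f : (ZMod q)ˣ → ℂ, ∑ x : (ZMod q)ˣ, f x * (if x ∈ KK H then h else 0) =
      h * ∑ x : KK H, f x := by
    intro f
    rw [Finset.mul_sum]
    simp_rw [mul_ite, mul_zero]
    rw [← Finset.sum_filter, Finset.sum_subtype (Finset.univ.filter (· ∈ KK H))
      (p := (· ∈ KK H)) (by simp)]
    refine Finset.sum_congr rfl fun x _ => ?_
    ring
  -- square of the resonator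
  have hsq : ∀ χ : DirichletCharacter ℂ q,
      ((‖∑ A ∈ 𝒜, (r A : ℂ) * χ (u A : ZMod q)‖ ^ 2 : ℝ) : ℂ) =
      ∑ A ∈ 𝒜, ∑ B ∈ 𝒜, ((r A * r B : ℝ) : ℂ) *
        χ ((u A * (u B)⁻¹ : (ZMod q)ˣ) : ZMod q) := by
    intro χ
    have h1 := Complex.mul_conj (∑ A ∈ 𝒜, (r A : ℂ) * χ (u A : ZMod q))
    rw [Complex.normSq_eq_norm_sq] at h1
    rw [← h1, map_sum, Finset.sum_mul_sum]
    refine Finset.sum_congr rfl fun A _ => Finset.sum_congr rfl fun B _ => ?_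
    rw [map_mul, conj_char, Complex.conj_ofReal, Units.val_mul, map_mul]
    push_cast
    ring
  -- numerator
  have hnum : ∑ ψ : H, (∑ c : ZMod q, (χ₀ * (ψ : DirichletCharacter ℂ q)) c * V c) *
      ((‖∑ A ∈ 𝒜, (r A : ℂ) * (χ₀ * (ψ : DirichletCharacter ℂ q)) (u A : ZMod q)‖ ^ 2 : ℝ) : ℂ) =
      h * ∑ A ∈ 𝒜, ∑ B ∈ 𝒜, ∑ x : KK H, ((r A * r B : ℝ) : ℂ) *
        (χ₀ ((x : (ZMod q)ˣ) : ZMod q) *
        V (((x : (ZMod q)ˣ) * u B * (u A)⁻¹ : (ZMod q)ˣ) : ZMod q)) := by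
    have e1 : ∀ ψ : H, (∑ c : ZMod q, (χ₀ * (ψ : DirichletCharacter ℂ q)) c * V c) *
      ((‖∑ A ∈ 𝒜, (r A : ℂ) * (χ₀ * (ψ : DirichletCharacter ℂ q)) (u A : ZMod q)‖ ^ 2 : ℝ) : ℂ) =
      ∑ A ∈ 𝒜, ∑ B ∈ 𝒜, ∑ x : (ZMod q)ˣ, ((r A * r B : ℝ) : ℂ) *
        (χ₀ (x : ZMod q) * V ((x * u B * (u A)⁻¹ : (ZMod q)ˣ) : ZMod q)) *
          (ψ : DirichletCharacter ℂ q) (x : ZMod q) := by
      intro ψ
      rw [hunits, hsq, Finset.mul_sum]
      refine Finset.sum_congr rfl fun A _ => ?_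
      rw [Finset.mul_sum]
      refine Finset.sum_congr rfl fun B _ => ?_
      rw [Finset.sum_mul]
      refine Fintype.sum_equiv (Equiv.mulRight (u A * (u B)⁻¹)) _ _ fun y => ?_
      simp only [Equiv.coe_mulRight]
      have e2 : y * (u A * (u B)⁻¹) * u B * (u A)⁻¹ = y := by
        rw [mul_assoc, mul_assoc, mul_assoc]
        rw [show (u B)⁻¹ * (u B * (u A)⁻¹) = (u A)⁻¹ by rw [inv_mul_cancel_left]]
        rw [mul_inv_cancel, mul_one]
      rw [e2, Units.val_mul y, map_mul, map_mul, MulChar.mul_apply, MulChar.mul_apply]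
      ring
    rw [Finset.sum_congr rfl fun ψ _ => e1 ψ, Finset.sum_comm, Finset.mul_sum]
    refine Finset.sum_congr rfl fun A _ => ?_
    rw [Finset.sum_comm, Finset.mul_sum]
    refine Finset.sum_congr rfl fun B _ => ?_
    rw [Finset.sum_comm]
    rw [← hKsum (fun x => ((r A * r B : ℝ) : ℂ) * (χ₀ (x : ZMod q) *
        V ((x * u B * (u A)⁻¹ : (ZMod q)ˣ) : ZMod q)))]
    refine Finset.sum_congr rfl fun x _ => ?_
    rw [← Finset.mul_sum, sum_H]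
  -- denominator
  have hden : ((∑ ψ : H, ‖∑ A ∈ 𝒜, (r A : ℂ) *
      (χ₀ * (ψ : DirichletCharacter ℂ q)) (u A : ZMod q)‖ ^ 2 : ℝ) : ℂ) =
      h * ∑ A ∈ 𝒜, ∑ B ∈ 𝒜, (if u A * (u B)⁻¹ ∈ KK H then ((r A * r B : ℝ) : ℂ) *
        χ₀ ((u A * (u B)⁻¹ : (ZMod q)ˣ) : ZMod q) else 0) := by
    rw [Complex.ofReal_sum]
    rw [Finset.sum_congr rfl fun (ψ : H) _ => hsq (χ₀ * (ψ : DirichletCharacter ℂ q)),
      Finset.sum_comm, Finset.mul_sum]
    refine Finset.sum_congr rfl fun A _ => ?_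
    rw [Finset.sum_comm, Finset.mul_sum]
    refine Finset.sum_congr rfl fun B _ => ?_
    simp_rw [MulChar.mul_apply, ← mul_assoc, ← Finset.mul_sum, sum_H]
    split_ifs <;> ring
  -- conclusion
  set M := ∑ A ∈ 𝒜, ∑ B ∈ 𝒜, ∑ x : KK H, ((r A * r B : ℝ) : ℂ) *
        (χ₀ ((x : (ZMod q)ˣ) : ZMod q) *
        V (((x : (ZMod q)ˣ) * u B * (u A)⁻¹ : (ZMod q)ˣ) : ZMod q)) with hM
  set D := ∑ A ∈ 𝒜, ∑ B ∈ 𝒜, (if u A * (u B)⁻¹ ∈ KK H then r A * r B else 0) with hD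
  have hle1 : ‖h * M‖ ≤ Λ * ∑ ψ : H, ‖∑ A ∈ 𝒜, (r A : ℂ) *
      (χ₀ * (ψ : DirichletCharacter ℂ q)) (u A : ZMod q)‖ ^ 2 := by
    rw [← hnum]
    refine (norm_sum_le _ _).trans ?_
    rw [Finset.mul_sum]
    refine Finset.sum_le_sum fun ψ _ => ?_
    rw [norm_mul, Complex.norm_real, Real.norm_eq_abs, abs_of_nonneg (by positivity)]
    exact mul_le_mul_of_nonneg_right (hΛ ψ.1 ψ.2) (by positivity)
  have hle2 : ∑ ψ : H, ‖∑ A ∈ 𝒜, (r A : ℂ) *
      (χ₀ * (ψ : DirichletCharacter ℂ q)) (u A : ZMod q)‖ ^ 2 ≤ (Nat.card H : ℝ) * D := by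
    have h0 : 0 ≤ ∑ ψ : H, ‖∑ A ∈ 𝒜, (r A : ℂ) *
      (χ₀ * (ψ : DirichletCharacter ℂ q)) (u A : ZMod q)‖ ^ 2 :=
      Finset.sum_nonneg fun ψ _ => by positivity
    have h1 : ∑ ψ : H, ‖∑ A ∈ 𝒜, (r A : ℂ) *
      (χ₀ * (ψ : DirichletCharacter ℂ q)) (u A : ZMod q)‖ ^ 2 =
      ‖((∑ ψ : H, ‖∑ A ∈ 𝒜, (r A : ℂ) *
      (χ₀ * (ψ : DirichletCharacter ℂ q)) (u A : ZMod q)‖ ^ 2 : ℝ) : ℂ)‖ := by
      rw [Complex.norm_real, Real.norm_eq_abs, abs_of_nonneg h0]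
    rw [h1, hden, norm_mul, hh, Complex.norm_natCast]
    refine mul_le_mul_of_nonneg_left ?_ (Nat.cast_nonneg _)
    refine (norm_sum_le _ _).trans ?_
    rw [hD]
    refine Finset.sum_le_sum fun A hA => ?_
    refine (norm_sum_le _ _).trans ?_
    refine Finset.sum_le_sum fun B hB => ?_
    split_ifs with hK
    · rw [norm_mul, Complex.norm_real, Real.norm_eq_abs,
        abs_of_nonneg (mul_nonneg (hr A hA) (hr B hB))]
      refine mul_le_of_le_one_right (mul_nonneg (hr A hA) (hr B hB)) ?_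
      exact DirichletCharacter.norm_le_one _ _
    · rw [norm_zero]
  rw [norm_mul, hh, Complex.norm_natCast] at hle1
  have h5 : (Nat.card H : ℝ) * ‖M‖ ≤ (Nat.card H : ℝ) * (Λ * D) := by
    calc (Nat.card H : ℝ) * ‖M‖ ≤ Λ * ∑ ψ : H, ‖∑ A ∈ 𝒜, (r A : ℂ) *
      (χ₀ * (ψ : DirichletCharacter ℂ q)) (u A : ZMod q)‖ ^ 2 := hle1
      _ ≤ Λ * ((Nat.card H : ℝ) * D) := by gcongr
      _ = (Nat.card H : ℝ) * (Λ * D) := by ring
  exact le_of_mul_le_mul_left h5 (by exact_mod_cast hcard)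

end

end Pool.Agent.H.MP_3e6494_nt
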