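import Pool.Agent.H.MP_3e6494_nt.Gen4

/-!
# Small index: the relation bound and the limit of the constant
-/

set_option autoImplicit false

open Complex Set Filter Topology

namespace Pool.Agent.H.MP_3e6494_nt

noncomputable section

section
variable {q : ℕ} [hq : Fact q.Prime]

open Classical in
theorem mem_RR {K : Subgroup (ZMod q)ˣ} {P E : Finset ℕ} {N C0 : ℕ} {X : ℕ × ℕ} :
    X ∈ RR K P E N C0 ↔ (1 ≤ X.1 ∧ X.1 ≤ C0 * N) ∧ (1 ≤ X.2 ∧ X.2 ≤ N) ∧ Nat.Coprime X.1 X.2 ∧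
      ¬ (X.1 = 1 ∧ X.2 = 1) ∧ Rel K X.1 X.2 ∧ (∀ p ∈ E, ¬ p ∣ X.1 ∧ ¬ p ∣ X.2) ∧
      Squarefree X.2 ∧ X.2.primeFactors ⊆ P := by
  unfold RR
  rw [Finset.mem_filter, Finset.mem_product, Finset.mem_Icc, Finset.mem_Icc]
  tauto

theorem RR_card {K : Subgroup (ZMod q)ˣ} {P E : Finset ℕ} {N C0 : ℕ} (h : C0 * N * N < q) :
    (RR K P E N C0).card ≤ Nat.card K := by
  classical
  have hch : ∀ X : ℕ × ℕ, ∃ x : K, X ∈ RR K P E N C0 →
      (X.1 : ZMod q) = ((x : (ZMod q)ˣ) : ZMod q) * (X.2 : ZMod q) := by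
    intro X
    by_cases hX : X ∈ RR K P E N C0
    · obtain ⟨x, hx, hxe⟩ := (mem_RR.mp hX).2.2.2.2.1
      exact ⟨⟨x, hx⟩, fun _ => hxe⟩
    · exact ⟨1, fun h => absurd h hX⟩
  choose f hf using hch
  rw [Nat.card_eq_fintype_card, ← Finset.card_univ]
  refine Finset.card_le_card_of_injOn f (fun _ _ => Finset.mem_coe.mpr (Finset.mem_univ _)) ?_
  intro X hX Y hY hXY
  have hX' := Finset.mem_coe.mp hX
  have hY' := Finset.mem_coe.mp hY
  have h1 := hf X hX'
  have h2 := hf Y hY'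
  rw [hXY] at h1
  obtain ⟨⟨a1, a2⟩, ⟨a3, a4⟩, a5, -⟩ := mem_RR.mp hX'
  obtain ⟨⟨b1, b2⟩, ⟨b3, b4⟩, b5, -⟩ := mem_RR.mp hY'
  have h3 : ((X.1 * Y.2 : ℕ) : ZMod q) = ((Y.1 * X.2 : ℕ) : ZMod q) := by
    push_cast
    rw [h1, h2]
    ring
  have h4 : X.1 * Y.2 < q := lt_of_le_of_lt (Nat.mul_le_mul a2 b4) h
  have h5 : Y.1 * X.2 < q := lt_of_le_of_lt (Nat.mul_le_mul b2 a4) h
  have h6 : X.1 * Y.2 = Y.1 * X.2 := by
    have h7 := (ZMod.natCast_eq_natCast_iff' _ _ _).mp h3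
    rwa [Nat.mod_eq_of_lt h4, Nat.mod_eq_of_lt h5] at h7
  have h7 : X.1 ∣ Y.1 := a5.dvd_of_dvd_mul_right (Dvd.intro _ h6)
  have h8 : Y.1 ∣ X.1 := b5.dvd_of_dvd_mul_right (Dvd.intro _ h6.symm)
  have h9 : X.1 = Y.1 := Nat.dvd_antisymm h7 h8
  have h10 : X.2 = Y.2 := by
    rw [h9] at h6
    exact (Nat.eq_of_mul_eq_mul_left b1 h6).symm
  exact Prod.ext h9 h10

end

theorem WW_le {P : Finset ℕ} {r : ℕ → ℝ} {c : ℝ} (hr : ∀ p, 0 ≤ r p) (hc0 : 0 ≤ c)
    (hc : c ≤ 1 / 2) (hP : ∀ p ∈ P, p.Prime ∧ 2 * r p ≤ (p : ℝ) ^ (-c)) {u v : ℕ} (hu : 0 < u)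
    (hv : Squarefree v) (hvP : v.primeFactors ⊆ P) :
    WW P r u v ≤ (u : ℝ) ^ (-c) * (v : ℝ) ^ (-c) := by
  have hu0 : (0 : ℝ) < u := by exact_mod_cast hu
  -- the factor from `v`
  have h1 : rp r v.primeFactors ≤ (v : ℝ) ^ (-c) := by
    have h2 : (v : ℝ) ^ (-c) = ∏ p ∈ v.primeFactors, (p : ℝ) ^ (-c) := by
      conv_lhs => rw [← Nat.prod_primeFactors_of_squarefree hv]
      push_cast
      rw [Real.finsetProd_rpow _ _ (fun p _ => by positivity)]
    rw [h2]
    unfold rp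
    refine Finset.prod_le_prod (fun p _ => hr p) fun p hp => ?_
    have := (hP p (hvP hp)).2
    have := hr p
    linarith
  -- the factor from `u`
  have h3 : ∏ p ∈ P ∩ u.primeFactors, (2 * (r p * √(p : ℝ))) ≤ (u : ℝ) ^ (1 / 2 - c) := by
    have h4 : ∏ p ∈ P ∩ u.primeFactors, (2 * (r p * √(p : ℝ))) ≤
        ∏ p ∈ P ∩ u.primeFactors, (p : ℝ) ^ (1 / 2 - c) := by
      refine Finset.prod_le_prod (fun p _ => by have := hr p; positivity) fun p hp => ?_
      obtain ⟨hp1, hp2⟩ := hP p (Finset.mem_inter.mp hp).1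
      have hp0 : (0 : ℝ) < p := by exact_mod_cast hp1.pos
      calc 2 * (r p * √(p : ℝ)) = (2 * r p) * √(p : ℝ) := by ring
        _ ≤ (p : ℝ) ^ (-c) * √(p : ℝ) := by gcongr
        _ = (p : ℝ) ^ (1 / 2 - c) := by
            rw [Real.sqrt_eq_rpow, ← Real.rpow_add hp0]
            congr 1
            ring
    have h5 : ∏ p ∈ P ∩ u.primeFactors, (p : ℝ) ^ (1 / 2 - c) ≤
        ∏ p ∈ u.primeFactors, (p : ℝ) ^ (1 / 2 - c) := by
      refine Finset.prod_le_prod_of_subset_of_one_le Finset.inter_subset_right ?_ ?_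
      · intro i _
        positivity
      · intro p hp _
        have h1p : (1 : ℝ) ≤ p := by
          exact_mod_cast (Nat.prime_of_mem_primeFactors hp).one_lt.le
        exact Real.one_le_rpow h1p (by linarith)
    have h6 : ∏ p ∈ u.primeFactors, (p : ℝ) ^ (1 / 2 - c) ≤ (u : ℝ) ^ (1 / 2 - c) := by
      rw [Real.finsetProd_rpow _ _ (fun p _ => by positivity)]
      refine Real.rpow_le_rpow (by positivity) ?_ (by linarith)
      have := Nat.le_of_dvd hu (Nat.prod_primeFactors_dvd u)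
      rw [← Nat.cast_prod]
      exact_mod_cast this
    exact h4.trans (h5.trans h6)
  have hrp := rp_nonneg hr v.primeFactors
  unfold WW
  calc rp r v.primeFactors * (√(u : ℝ))⁻¹ * ∏ p ∈ P ∩ u.primeFactors, (2 * (r p * √(p : ℝ)))
      ≤ (v : ℝ) ^ (-c) * (√(u : ℝ))⁻¹ * (u : ℝ) ^ (1 / 2 - c) := by
        gcongr
        exact Finset.prod_nonneg fun p _ => by have := hr p; positivity
    _ = (u : ℝ) ^ (-c) * (v : ℝ) ^ (-c) := by
        rw [Real.sqrt_eq_rpow, ← Real.rpow_neg hu0.le, mul_assoc, ← Real.rpow_add hu0, mul_comm]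
        congr 2
        ring

/-- small index: the relation bound from a set killing the relations of height at most `U` -/
theorem relBound_small {q : ℕ} [hq : Fact q.Prime] {K : Subgroup (ZMod q)ˣ} {E : Finset ℕ}
    {n m : ℕ} {U : ℕ} {c : ℝ} (hc0 : 0 < c) (hc : c < 1 / 2)
    (hE : ∀ u v : ℕ, 0 < u → u ≤ U → 0 < v → v ≤ U → Nat.Coprime u v → ¬ (u = 1 ∧ v = 1) →
        Rel K u v → ∃ p ∈ E, p ∣ u ∨ p ∣ v)
    (hU : 1 ≤ U) (hUc : 8 * (Nat.card K : ℝ) ≤ (U : ℝ) ^ c)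
    (hl : 2 * √(Real.log q) ≤ (Real.log q ^ ((n : ℝ) / (m + 1))) ^ (1 / 2 - c))
    (hl0 : 0 < Real.log q) :
    RelBound q K E n m := by
  intro P r N C0 hr hP hN
  have hU0 : (0 : ℝ) < U := by exact_mod_cast hU
  have hP' : ∀ p ∈ P, p.Prime ∧ 2 * r p ≤ (p : ℝ) ^ (-c) := by
    intro p hp
    obtain ⟨h1, -, h3, -, h4⟩ := hP p hp
    refine ⟨h1, ?_⟩
    have hp0 : (0 : ℝ) < p := by exact_mod_cast h1.pos
    have h5 : r p ≤ √(Real.log q) * (√(p : ℝ))⁻¹ := by
      rw [← div_eq_mul_inv, ← Real.sqrt_div hl0.le]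
      exact Real.le_sqrt_of_sq_le h4
    calc 2 * r p ≤ 2 * √(Real.log q) * (√(p : ℝ))⁻¹ := by linarith
      _ ≤ (Real.log q ^ ((n : ℝ) / (m + 1))) ^ (1 / 2 - c) * (√(p : ℝ))⁻¹ := by gcongr
      _ ≤ (p : ℝ) ^ (1 / 2 - c) * (√(p : ℝ))⁻¹ := by
          gcongr
      _ = (p : ℝ) ^ (-c) := by
          rw [Real.sqrt_eq_rpow, ← Real.rpow_neg hp0.le, ← Real.rpow_add hp0]
          congr 1
          ring
  have hterm : ∀ X ∈ RR K P E N C0, WW P r X.1 X.2 ≤ (U : ℝ) ^ (-c) := by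
    intro X hX
    obtain ⟨⟨a1, a2⟩, ⟨a3, a4⟩, a5, a6, a7, a8, a9, a10⟩ := mem_RR.mp hX
    refine (WW_le hr hc0.le hc.le hP' a1 a9 a10).trans ?_
    have hu1 : (1 : ℝ) ≤ X.1 := by exact_mod_cast a1
    have hv1 : (1 : ℝ) ≤ X.2 := by exact_mod_cast a3
    have hbig : U < X.1 ∨ U < X.2 := by
      by_contra hcon
      push Not at hcon
      obtain ⟨p, hp, hpd⟩ := hE X.1 X.2 a1 hcon.1 a3 hcon.2 a5 a6 a7
      rcases hpd with h | h
      · exact (a8 p hp).1 h
      · exact (a8 p hp).2 h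
    have hneg : ∀ {x y : ℝ}, 0 < x → x ≤ y → y ^ (-c) ≤ x ^ (-c) := fun hx hxy =>
      Real.rpow_le_rpow_of_nonpos hx hxy (by linarith)
    have hu2 : (X.1 : ℝ) ^ (-c) ≤ 1 := by
      have := hneg one_pos hu1
      rwa [Real.one_rpow] at this
    have hv2 : (X.2 : ℝ) ^ (-c) ≤ 1 := by
      have := hneg one_pos hv1
      rwa [Real.one_rpow] at this
    have hu3 : 0 ≤ (X.1 : ℝ) ^ (-c) := by positivity
    have hv3 : 0 ≤ (X.2 : ℝ) ^ (-c) := by positivity
    rcases hbig with h | h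
    · have h1 : (X.1 : ℝ) ^ (-c) ≤ (U : ℝ) ^ (-c) := hneg hU0 (by exact_mod_cast h.le)
      nlinarith
    · have h1 : (X.2 : ℝ) ^ (-c) ≤ (U : ℝ) ^ (-c) := hneg hU0 (by exact_mod_cast h.le)
      nlinarith
  calc ∑ X ∈ RR K P E N C0, WW P r X.1 X.2 ≤ ∑ _X ∈ RR K P E N C0, (U : ℝ) ^ (-c) :=
        Finset.sum_le_sum hterm
    _ = (RR K P E N C0).card * (U : ℝ) ^ (-c) := by rw [Finset.sum_const, nsmul_eq_mul]
    _ ≤ (Nat.card K : ℝ) * (U : ℝ) ^ (-c) := by
        have := RR_card (K := K) (P := P) (E := E) hN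
        have h2 : ((RR K P E N C0).card : ℝ) ≤ Nat.card K := by exact_mod_cast this
        gcongr
    _ ≤ 1 / 8 := by
        rw [Real.rpow_neg hU0.le, ← div_eq_mul_inv, div_le_iff₀ (by positivity)]
        linarith

/-! ## The constant -/

theorem ZZ_ge {n m : ℕ} (hm : 1 ≤ m) (hmn : m ≤ n) :
    (Real.log (2 * n) - Real.log (2 * n - m)) / 2 - Real.log (m + 1) / (2 * n) ≤ ZZ n m := by
  have hn0 : (0 : ℝ) < n := by
    have : 0 < n := by omega
    exact_mod_cast this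
  have key : ∀ m : ℕ, m ≤ n →
      (Real.log (2 * n) - Real.log (2 * n - m)) / 2 - Real.log (m + 1) / (2 * n) ≤ ZZ n m := by
    intro m
    induction m with
    | zero =>
      intro _
      simp [ZZ]
    | succ m ih =>
      intro hm
      have ih' := ih (by omega)
      have hmn' : (m : ℝ) + 1 ≤ n := by exact_mod_cast hm
      have hm0 : (0 : ℝ) ≤ m := by positivity
      have h1 : ZZ n (m + 1) = ZZ n m + 1 / (((m + 1 : ℕ) : ℝ) + 1) / cc n (m + 1) := by
        unfold ZZ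
        rw [Finset.sum_Icc_succ_top (by omega)]
        congr 1
        rw [div_div]
      have h2 : 1 / (((m + 1 : ℕ) : ℝ) + 1) / cc n (m + 1) =
          (1 / (2 * n - (m + 1)) - 1 / ((m + 2) * (2 * n - (m + 1)))) / 2 := by
        unfold cc
        push_cast
        have h3 : (2 * (n : ℝ) - (m + 1)) ≠ 0 := by linarith
        have h4 : (m : ℝ) + 1 ≠ 0 := by linarith
        have h5 : 4 * (n : ℝ) / (m + 1) - 2 = 2 * (2 * n - (m + 1)) / (m + 1) := by
          field_simp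
          ring
        rw [h5]
        have h6 : (m : ℝ) + 1 + 1 ≠ 0 := by linarith
        have h7 : (m : ℝ) + 2 ≠ 0 := by linarith
        field_simp
        ring
      have h3 : Real.log (2 * n - m) - Real.log (2 * n - (m + 1)) ≤ 1 / (2 * n - (m + 1)) := by
        rw [← Real.log_div (by linarith) (by linarith)]
        refine (Real.log_le_sub_one_of_pos (div_pos (by linarith) (by linarith))).trans ?_
        rw [div_sub_one (by linarith)]
        refine le_of_eq ?_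
        congr 1
        ring
      have h4 : 1 / ((m + 2) * (2 * n - (m + 1))) / 2 ≤
          (Real.log (m + 2) - Real.log (m + 1)) / (2 * n) := by
        have h5 : 1 / ((m : ℝ) + 2) ≤ Real.log (m + 2) - Real.log (m + 1) := by
          rw [← Real.log_div (by linarith) (by linarith)]
          refine le_trans (le_of_eq ?_)
            (Real.one_sub_inv_le_log_of_pos (div_pos (by linarith) (by linarith)))
          have : (m : ℝ) + 2 ≠ 0 := by linarith
          rw [inv_div]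
          field_simp
          ring
        calc 1 / ((m + 2) * (2 * n - (m + 1))) / 2 =
              1 / ((m : ℝ) + 2) / (2 * (2 * n - (m + 1))) := by
                rw [div_div, div_div]
                congr 1
                ring
          _ ≤ 1 / ((m : ℝ) + 2) / (2 * n) := by
                refine div_le_div_of_nonneg_left (by positivity) (by positivity) ?_
                linarith
          _ ≤ _ := by gcongr
      rw [h1, h2]
      push_cast
      rw [show (m : ℝ) + 1 + 1 = m + 2 by ring]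
      have h6 : (Real.log (2 * n) - Real.log (2 * n - (m + 1))) / 2 -
          Real.log (m + 2) / (2 * n) = ((Real.log (2 * n) - Real.log (2 * n - m)) / 2 -
          Real.log (m + 1) / (2 * n)) +
          (Real.log (2 * n - m) - Real.log (2 * n - (m + 1))) / 2 -
          (Real.log (m + 2) - Real.log (m + 1)) / (2 * n) := by ring
      rw [h6]
      linarith
  exact key m hmn

/-- the limit of the constant -/
theorem exists_ZZ {ε : ℝ} (hε : 0 < ε) :
    ∃ n : ℕ, 3 ≤ n ∧ Real.log 2 / 2 - ε ≤ ZZ n (n - 2) := by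
  -- `log (n) / n → 0` and `log (1 + 2/n) → 0`
  have h1 : ∀ᶠ x : ℝ in atTop, Real.log x ≤ ε * x ^ (1 : ℝ) := ev_log hε one_pos
  have h2 : Tendsto (fun n : ℕ => (n : ℝ)) atTop atTop := tendsto_natCast_atTop_atTop
  obtain ⟨n, hn1, hn2, hn3⟩ := ((h2.eventually h1).and
    ((h2.eventually (eventually_ge_atTop (2 / ε))).and
      (Filter.eventually_ge_atTop 3))).exists
  refine ⟨n, hn3, ?_⟩
  have hn0 : (0 : ℝ) < n := by
    have : 0 < n := by omega
    exact_mod_cast this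
  refine le_trans ?_ (ZZ_ge (by omega) (by omega))
  rw [Real.rpow_one] at hn1
  have hcast : ((n - 2 : ℕ) : ℝ) = n - 2 := by
    rw [Nat.cast_sub (by omega)]
    norm_num
  rw [hcast]
  have h3 : Real.log ((n : ℝ) - 2 + 1) / (2 * n) ≤ ε / 2 := by
    rw [div_le_iff₀ (by positivity)]
    have h3n : (3 : ℝ) ≤ n := by exact_mod_cast hn3
    have : Real.log ((n : ℝ) - 2 + 1) ≤ Real.log n := Real.log_le_log (by linarith) (by linarith)
    linarith
  have h4 : Real.log 2 - ε ≤ Real.log (2 * n) - Real.log (2 * n - (n - 2)) := by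
    have h5 : Real.log (2 * (n : ℝ)) = Real.log 2 + Real.log n :=
      Real.log_mul (by norm_num) hn0.ne'
    have h6 : Real.log (2 * (n : ℝ) - (n - 2)) ≤ Real.log n + ε := by
      have h7 : 2 * (n : ℝ) - (n - 2) = n * (1 + 2 / n) := by
        field_simp
        ring
      rw [h7, Real.log_mul hn0.ne' (by positivity)]
      have h8 : Real.log (1 + 2 / (n : ℝ)) ≤ 2 / n := by
        have := Real.log_le_sub_one_of_pos (x := 1 + 2 / (n : ℝ)) (by positivity)
        linarith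
      have h9 : 2 / (n : ℝ) ≤ ε := by
        rw [div_le_iff₀ hn0]
        rw [div_le_iff₀ hε] at hn2
        linarith
      linarith
    linarith
  linarith

/-- **Small index.** -/
theorem small_index {ε : ℝ} (hε : 0 < ε) :
    ∃ δ : ℝ, 0 < δ ∧ ∃ q₀ : ℕ, ∀ (q : ℕ) [Fact q.Prime], q₀ ≤ q →
      ∀ (H : Subgroup (DirichletCharacter ℂ q)) (χ₀ : DirichletCharacter ℂ q),
        Real.log H.index ≤ δ * √(Real.log q) →
        ∃ ψ ∈ H, Real.exp ((√(Real.log 2 / 2) - ε) *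
          √(Real.log q / Real.log (Real.log q))) ≤ ‖(χ₀ * ψ).LFunction (1 / 2)‖ := by
  -- choice of the auxiliary parameters
  set η : ℝ := min (ε / 8) (1 / 4) with hη
  have hη0 : 0 < η := lt_min (by linarith) (by norm_num)
  have hη1 : η ≤ 1 / 4 := min_le_right _ _
  have hηε : η ≤ ε / 8 := min_le_left _ _
  obtain ⟨n, hn3, hn⟩ := exists_ZZ (ε := η ^ 2) (by positivity)
  have hm1 : 1 ≤ n - 2 := by omega
  have hmn : n - 2 + 2 ≤ n := by omega
  obtain ⟨q₁, hgen⟩ := gen (n := n) (m := n - 2) hm1 hmn hη0 (by linarith : η < 1)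
  have hn0 : (0 : ℝ) < n := by
    have : 0 < n := by omega
    exact_mod_cast this
  have hn1 : (0 : ℝ) < (n : ℝ) - 1 := by
    have : 1 < n := by omega
    have : (1 : ℝ) < n := by exact_mod_cast this
    linarith
  -- the constant
  have hconst : √(Real.log 2 / 2) - ε ≤ (1 - η) ^ 2 * √(ZZ n (n - 2)) - η := by
    have hl2 := Real.log_two_gt_d9
    have hl2' := Real.log_two_lt_d9
    have h1 : √(Real.log 2 / 2) - η ≤ √(ZZ n (n - 2)) := by
      have h2 : √(Real.log 2 / 2) ≤ √(ZZ n (n - 2)) + η := by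
        rw [Real.sqrt_le_left (by positivity)]
        have h3 : 0 ≤ ZZ n (n - 2) := by
          have : η ^ 2 ≤ 1 / 16 := by nlinarith
          linarith
        nlinarith [Real.sq_sqrt h3, Real.sqrt_nonneg (ZZ n (n - 2))]
      linarith
    have h4 : √(Real.log 2 / 2) ≤ 1 := by
      rw [Real.sqrt_le_one]
      linarith
    have h5 : 0 ≤ √(Real.log 2 / 2) := Real.sqrt_nonneg _
    have h6 : 0 ≤ (1 - η) ^ 2 := sq_nonneg _
    have h7 : (1 - η) ^ 2 ≤ 1 := by nlinarith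
    have h8 : (1 - η) ^ 2 * (√(Real.log 2 / 2) - η) ≤ (1 - η) ^ 2 * √(ZZ n (n - 2)) :=
      mul_le_mul_of_nonneg_left h1 h6
    nlinarith [mul_nonneg hη0.le h5]
  -- the size of the index
  set δ : ℝ := 1 / (8 * n) with hδ
  have hδ0 : 0 < δ := by positivity
  refine ⟨δ, hδ0, ?_⟩
  -- eventual conditions on `ℓ = log q`
  have hev : ∀ᶠ ℓ : ℝ in atTop, 16 ≤ ℓ ∧ 3 / δ ≤ √ℓ ∧ 2 * √ℓ ≤ ℓ ^ (1 - η) ∧
      2 ≤ ℓ ^ (1 / (4 * ((n : ℝ) - 1))) := by
    refine (eventually_ge_atTop 16).and (Filter.Eventually.and ?_ (Filter.Eventually.and ?_ ?_))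
    · exact (Real.tendsto_sqrt_atTop).eventually_ge_atTop _
    · filter_upwards [ev_pow 2 (a := 1 / 4) (by norm_num), eventually_ge_atTop 1] with ℓ h1 h2
      calc 2 * √ℓ ≤ ℓ ^ (1 / 4 : ℝ) * ℓ ^ (1 / 2 : ℝ) := by
            rw [Real.sqrt_eq_rpow]
            gcongr
        _ = ℓ ^ (3 / 4 : ℝ) := by
            rw [← Real.rpow_add (by linarith)]
            norm_num
        _ ≤ ℓ ^ (1 - η) := Real.rpow_le_rpow_of_exponent_le h2 (by linarith)
    · exact ev_pow 2 (by positivity)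
  have hlog : Tendsto (fun q : ℕ => Real.log (q : ℝ)) atTop atTop :=
    Real.tendsto_log_atTop.comp tendsto_natCast_atTop_atTop
  obtain ⟨q₂, hq₂⟩ := Filter.eventually_atTop.mp (hlog.eventually hev)
  refine ⟨max q₁ q₂, ?_⟩
  intro q hq hqq H χ₀ hidx
  obtain ⟨hl16, hlδ, hlη, hln⟩ := hq₂ q (le_of_max_le_right hqq)
  set ℓ := Real.log q with hℓ
  have hl0 : 0 < ℓ := by linarith
  have hs0 : 0 < √ℓ := Real.sqrt_pos.mpr hl0
  have hss : √ℓ * √ℓ = ℓ := Real.mul_self_sqrt hl0.le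
  set d := H.index with hd
  have hd0 : 0 < d := Nat.pos_of_ne_zero Subgroup.index_ne_zero_of_finite
  set ρ := Nat.log 2 d with hρ
  set U := (8 * d) ^ (4 * n) with hU
  have hcard : Nat.card (KK H) = d := card_KK H
  have hdρ : d < 2 ^ (ρ + 1) := Nat.lt_pow_succ_log_self (by norm_num) d
  have hU1 : 1 ≤ U := Nat.one_le_pow _ _ (by omega)
  have hρle : (ρ : ℝ) * Real.log 2 ≤ Real.log d := by
    have h1 : 2 ^ ρ ≤ d := Nat.pow_log_le_self 2 hd0.ne'
    rw [← Real.log_pow]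
    refine Real.log_le_log (by positivity) ?_
    exact_mod_cast h1
  have h3δ : 3 ≤ δ * √ℓ := by
    rw [div_le_iff₀ hδ0] at hlδ
    linarith
  have hρ2 : (ρ : ℝ) + 1 ≤ 2 * (δ * √ℓ) := by
    have := Real.log_two_gt_d9
    have h0 : (0 : ℝ) ≤ ρ := by positivity
    have h1 : (ρ : ℝ) * (2 / 3) ≤ δ * √ℓ := by nlinarith
    linarith
  have hlog8 : Real.log (8 * d) ≤ 2 * (δ * √ℓ) := by
    rw [Real.log_mul (by norm_num) (by exact_mod_cast hd0.ne')]
    have h8 : Real.log 8 ≤ 3 := by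
      have h2 : Real.log 8 = 3 * Real.log 2 := by
        rw [show (8 : ℝ) = 2 ^ 3 by norm_num, Real.log_pow]
        norm_num
      have := Real.log_two_lt_d9
      rw [h2]
      linarith
    linarith
  have hUq : U ^ (2 * (ρ + 1)) < q := by
    have h1 : Real.log ((U ^ (2 * (ρ + 1)) : ℕ) : ℝ) < Real.log q := by
      rw [hU]
      push_cast
      rw [Real.log_pow, Real.log_pow]
      push_cast
      have h2 : 0 ≤ Real.log (8 * (d : ℝ)) := by
        refine Real.log_nonneg ?_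
        have : (1 : ℝ) ≤ d := by exact_mod_cast hd0
        linarith
      have h3 : 2 * ((ρ : ℝ) + 1) * (4 * n * Real.log (8 * d)) ≤
          2 * (2 * (δ * √ℓ)) * (4 * n * (2 * (δ * √ℓ))) := by gcongr
      have h4 : 2 * (2 * (δ * √ℓ)) * (4 * n * (2 * (δ * √ℓ))) = (32 * n * δ ^ 2) * ℓ := by
        calc _ = 32 * n * δ ^ 2 * (√ℓ * √ℓ) := by ring
          _ = _ := by rw [hss]
      have h5 : 32 * n * δ ^ 2 = 1 / (2 * n) := by
        rw [hδ]
        field_simp
        norm_num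
      rw [h4, h5] at h3
      refine lt_of_le_of_lt h3 ?_
      have h6 : 1 / (2 * (n : ℝ)) < 1 := by
        rw [div_lt_one (by positivity)]
        linarith
      nlinarith
    have hq0 : (0 : ℝ) < q := by exact_mod_cast hq.out.pos
    have h2 := (Real.log_lt_log_iff (by positivity) hq0).mp h1
    exact_mod_cast h2
  obtain ⟨E, hE1, hE2, hE3⟩ := exists_E (KK H) hU1 (by rw [hcard]; exact hdρ) hUq
  have hUltq : U < q := by
    refine lt_of_le_of_lt ?_ hUq
    exact Nat.le_self_pow (by omega) U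
  have hδ1 : δ ≤ 1 := by
    rw [hδ, div_le_one (by positivity)]
    linarith
  have hδs : δ * √ℓ ≤ √ℓ := by nlinarith
  have hA : (E.card : ℝ) ≤ ℓ ^ (1 - η) := by
    have h1 : (E.card : ℝ) ≤ ρ := by exact_mod_cast hE2
    linarith
  have hB : Real.log d ≤ ℓ ^ (1 - η) := by
    linarith
  have hC : RelBound q (KK H) E n (n - 2) := by
    have hc0 : (0 : ℝ) < 1 / (4 * n) := by positivity
    have hc1 : 1 / (4 * (n : ℝ)) < 1 / 2 := by
      rw [div_lt_div_iff₀ (by positivity) (by norm_num)]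
      linarith
    refine relBound_small (U := U) hc0 hc1 hE3 hU1 ?_ ?_ hl0
    · rw [hcard, hU]
      push_cast
      rw [← Real.rpow_natCast, ← Real.rpow_mul (by positivity)]
      have : ((4 * n : ℕ) : ℝ) * (1 / (4 * n)) = 1 := by
        push_cast
        field_simp
      rw [this, Real.rpow_one]
    · rw [← Real.rpow_mul hl0.le]
      have h1 : ((n - 2 : ℕ) : ℝ) + 1 = n - 1 := by
        rw [Nat.cast_sub (by omega)]
        push_cast
        ring
      rw [h1]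
      have h2 : (n : ℝ) / (n - 1) * (1 / 2 - 1 / (4 * n)) = 1 / (4 * ((n : ℝ) - 1)) + 1 / 2 := by
        field_simp
        ring
      rw [h2, Real.rpow_add hl0, ← Real.sqrt_eq_rpow]
      gcongr
  obtain ⟨ψ, hψ, hψ2⟩ := hgen q (le_of_max_le_left hqq) H χ₀ E
    (fun p hp => ⟨(hE1 p hp).1, lt_of_le_of_lt (hE1 p hp).2 hUltq⟩) hA hB hC
  refine ⟨ψ, hψ, le_trans (Real.exp_le_exp.mpr ?_) hψ2⟩
  exact mul_le_mul_of_nonneg_right hconst (Real.sqrt_nonneg _)

end

end Pool.Agent.H.MP_3e6494_nt
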